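import Mathlib

set_option autoImplicit false
open Complex Filter Topology MeasureTheory FourierTransform
open scoped Real

namespace Pool.Agent.H989Z.FU

lemma integrable_exp_neg_abs' : Integrable (fun t : ℝ => rexp (-|t|)) := by
  have h1 : IntegrableOn (fun t : ℝ => rexp (-|t|)) (Set.Ioi 0) := by
    refine (integrableOn_exp_neg_Ioi 0).congr_fun (fun t ht => ?_) measurableSet_Ioi
    simp only [abs_of_pos (Set.mem_Ioi.mp ht)]
  have h2 : IntegrableOn (fun t : ℝ => rexp (-|t|)) (Set.Iic 0) := by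
    refine (integrableOn_exp_Iic 0).congr_fun (fun t ht => ?_) measurableSet_Iic
    simp only [abs_of_nonpos (Set.mem_Iic.mp ht), neg_neg]
  rw [← integrableOn_univ, ← Set.Iic_union_Ioi (a := (0 : ℝ))]
  exact h2.union h1

lemma line_cont {h : ℂ → ℂ} {W b : ℝ} (hd : ∀ v : ℂ, |v.im| < W → DifferentiableAt ℂ h v)
    (hb : |b| < W) : Continuous (fun t : ℝ => h (t + b * I)) := by
  rw [continuous_iff_continuousAt]
  intro t
  have h1 : ContinuousAt h ((t : ℂ) + b * I) := (hd _ (by simpa using hb)).continuousAt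
  exact ContinuousAt.comp (f := fun t : ℝ => (t : ℂ) + b * I) h1 (by fun_prop)

lemma line_int {h : ℂ → ℂ} {W b C a : ℝ} (hd : ∀ v : ℂ, |v.im| < W → DifferentiableAt ℂ h v)
    (ha : a < W) (hb : |b| ≤ a) (hC : ∀ v : ℂ, |v.im| ≤ a → ‖h v‖ ≤ C * rexp (-|v.re|)) :
    Integrable (fun t : ℝ => h (t + b * I)) := by
  refine Integrable.mono' (integrable_exp_neg_abs'.const_mul C)
    (line_cont hd (hb.trans_lt ha)).aestronglyMeasurable (Eventually.of_forall fun t => ?_)
  simpa using hC (t + b * I) (by simpa using hb)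

lemma shift_line {h : ℂ → ℂ} {W b C : ℝ} (hd : ∀ v : ℂ, |v.im| < W → DifferentiableAt ℂ h v)
    (hb : |b| < W) (hC : ∀ v : ℂ, |v.im| ≤ |b| → ‖h v‖ ≤ C * rexp (-|v.re|)) :
    ∫ t : ℝ, h (t + b * I) = ∫ t : ℝ, h t := by
  have i1 := line_int hd hb le_rfl hC
  have i0 := line_int (b := 0) hd hb (by simp) hC
  simp only [ofReal_zero, zero_mul, add_zero] at i0
  have t1 := intervalIntegral_tendsto_integral i1 tendsto_neg_atTop_atBot tendsto_id
  have t0 := intervalIntegral_tendsto_integral i0 tendsto_neg_atTop_atBot tendsto_id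
  have vert : ∀ s : ℝ → ℝ, (∀ R, 0 ≤ R → |s R| = R) →
      Tendsto (fun R : ℝ => ∫ y in (0 : ℝ)..b, h (s R + y * I)) atTop (𝓝 0) := by
    intro s hs
    have hlim : Tendsto (fun R : ℝ => C * rexp (-R) * |b - 0|) atTop (𝓝 0) := by
      have := (Real.tendsto_exp_neg_atTop_nhds_zero.const_mul C).mul_const |b - 0|
      simpa using this
    refine squeeze_zero_norm' ?_ hlim
    filter_upwards [eventually_ge_atTop 0] with R hR
    apply intervalIntegral.norm_integral_le_of_norm_le_const
    intro y hy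
    have : |y| ≤ |b| := by
      rcases Set.mem_uIoc.mp hy with h | h
      · rw [abs_of_pos h.1]; exact h.2.trans (le_abs_self b)
      · rw [abs_of_nonpos h.2]; linarith [neg_abs_le b, h.1]
    have := hC (s R + y * I) (by simpa using this)
    simpa [hs R hR] using this
  have v1 := vert (fun R => R) (fun R hR => abs_of_nonneg hR)
  have v2 := vert (fun R => -R) (fun R hR => by rw [abs_neg, abs_of_nonneg hR])
  have key : ∀ R : ℝ, (∫ x in (-R)..R, h x) - (∫ x in (-R)..R, h (x + b * I)) +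
      I • (∫ y in (0 : ℝ)..b, h (R + y * I)) - I • (∫ y in (0 : ℝ)..b, h ((-R : ℝ) + y * I)) = 0 := by
    intro R
    have := Complex.integral_boundary_rect_eq_zero_of_differentiableOn h ((-R : ℝ) : ℂ)
      (R + b * I) (by
        intro v hv
        apply DifferentiableAt.differentiableWithinAt
        apply hd
        have h2 := hv.2
        simp only [ofReal_im, add_im, mul_im, ofReal_re, I_im, mul_one, I_re, mul_zero, add_zero,
          zero_add, Set.mem_preimage] at h2
        refine lt_of_le_of_lt ?_ hb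
        rcases Set.mem_uIcc.mp h2 with h | h
        · rw [abs_of_nonneg h.1]; exact h.2.trans (le_abs_self b)
        · rw [abs_of_nonpos h.2]; linarith [neg_abs_le b, h.1])
    simpa using this
  have lim := ((t0.sub t1).add (v1.const_smul I)).sub (v2.const_smul I)
  simp only [id] at lim
  have := tendsto_nhds_unique lim (by simp only [key]; exact tendsto_const_nhds)
  simp only [smul_zero, add_zero, sub_zero] at this
  exact (sub_eq_zero.mp this).symm

lemma fourier_eq' (f : ℝ → ℂ) (ξ : ℝ) :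
    𝓕 f ξ = ∫ t : ℝ, cexp (-2 * π * I * ξ * t) * f t := by
  rw [Real.fourier_real_eq_integral_exp_smul]
  refine integral_congr_ae (Eventually.of_forall fun t => ?_)
  simp only [smul_eq_mul]
  congr 2; push_cast; ring

lemma fourierInv_eq' (f : ℝ → ℂ) (ξ : ℝ) :
    𝓕⁻ f ξ = ∫ t : ℝ, cexp (2 * π * I * ξ * t) * f t := by
  rw [Real.fourierInv_eq_fourier_neg, fourier_eq']
  refine integral_congr_ae (Eventually.of_forall fun t => ?_)
  simp only
  congr 2; push_cast; ring

lemma fourier_shift {g : ℂ → ℂ} {W b : ℝ} (hd : ∀ v : ℂ, |v.im| < W → DifferentiableAt ℂ g v)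
    (hdec : ∀ a < W, ∃ C, ∀ v : ℂ, |v.im| ≤ a → ‖g v‖ ≤ C * rexp (-|v.re|))
    (hb : |b| < W) (ξ : ℝ) :
    𝓕 (fun t : ℝ => g (t + b * I)) ξ = cexp (-2 * π * ξ * b) * 𝓕 (fun t : ℝ => g t) ξ := by
  obtain ⟨C, hC⟩ := hdec _ hb
  have := shift_line (h := fun v => cexp (-2 * π * I * ξ * v) * g v) (W := W) (b := b)
    (C := rexp (2 * π * |ξ| * |b|) * C) (fun v hv => DifferentiableAt.mul (by fun_prop) (hd v hv)) hb
    (by
      intro v hv
      rw [norm_mul, mul_assoc (rexp _)]
      apply mul_le_mul _ (hC v hv) (norm_nonneg _) (Real.exp_pos _).le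
      rw [Complex.norm_exp]
      apply Real.exp_le_exp.mpr
      have : (-2 * π * I * ξ * v : ℂ) = ((-2 * π * ξ : ℝ) : ℂ) * (v * I) := by push_cast; ring
      rw [this, re_ofReal_mul, mul_I_re]
      have h1 : ξ * v.im ≤ |ξ| * |b| := by
        refine (le_abs_self _).trans ?_
        rw [abs_mul]; gcongr
      have := Real.pi_pos
      nlinarith)
  rw [fourier_eq', fourier_eq', ← this, ← integral_const_mul]
  refine integral_congr_ae (Eventually.of_forall fun t => ?_)
  simp only
  rw [← mul_assoc, ← Complex.exp_add]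
  congr 2
  have := I_mul_I
  linear_combination (2 * π * ξ * b) * this

lemma fourier_decay {g : ℂ → ℂ} {W : ℝ} (hd : ∀ v : ℂ, |v.im| < W → DifferentiableAt ℂ g v)
    (hdec : ∀ a < W, ∃ C, ∀ v : ℂ, |v.im| ≤ a → ‖g v‖ ≤ C * rexp (-|v.re|))
    {a : ℝ} (ha0 : 0 ≤ a) (ha : a < W) :
    ∃ C, ∀ ξ : ℝ, ‖𝓕 (fun t : ℝ => g t) ξ‖ ≤ C * rexp (-(2 * π * a * |ξ|)) := by
  obtain ⟨C, hC⟩ := hdec _ ha
  refine ⟨∫ t : ℝ, C * rexp (-|t|), fun ξ => ?_⟩
  obtain ⟨b, hb, hb2⟩ : ∃ b : ℝ, |b| = a ∧ ξ * b = -(a * |ξ|) := by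
    rcases le_total 0 ξ with h | h
    · exact ⟨-a, by rw [abs_neg, abs_of_nonneg ha0], by rw [abs_of_nonneg h]; ring⟩
    · exact ⟨a, abs_of_nonneg ha0, by rw [abs_of_nonpos h]; ring⟩
  have h1 := fourier_shift hd hdec (hb.symm ▸ ha : |b| < W) ξ
  have h2 : ‖𝓕 (fun t : ℝ => g (t + b * I)) ξ‖ ≤ ∫ t : ℝ, C * rexp (-|t|) := by
    rw [fourier_eq']
    apply norm_integral_le_of_norm_le (integrable_exp_neg_abs'.const_mul C)
    refine Eventually.of_forall fun t => ?_
    have e : (-2 * π * I * ξ * t : ℂ) = ((-2 * π * ξ * t : ℝ) : ℂ) * I := by push_cast; ring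
    rw [norm_mul, e, Complex.norm_exp_ofReal_mul_I, one_mul]
    simpa using hC (t + b * I) (by simp [hb])
  rw [h1, norm_mul] at h2
  have e : (-2 * π * ξ * b : ℂ) = ((2 * π * a * |ξ| : ℝ) : ℂ) := by
    have : (-2 * π * ξ * b : ℝ) = 2 * π * a * |ξ| := by linear_combination (-2 * π) * hb2
    rw [← this]; push_cast; ring
  rw [e, Complex.norm_exp_ofReal] at h2
  rw [Real.exp_neg, ← div_eq_mul_inv, le_div_iff₀ (Real.exp_pos _)]
  linarith

lemma integrable_exp_neg_mul_abs {c : ℝ} (hc : 0 < c) :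
    Integrable (fun t : ℝ => rexp (-(c * |t|))) := by
  have := integrable_exp_neg_abs'.comp_mul_left' hc.ne'
  simpa [abs_mul, abs_of_pos hc] using this

theorem split (g : ℂ → ℂ) (ε : ℂ) (hε : ε ^ 2 = 1) {W : ℝ} (hW : 0 < W)
    (hd : ∀ v : ℂ, |v.im| < W → DifferentiableAt ℂ g v)
    (hsym : ∀ v : ℂ, |v.im| < W → g (-v) = ε * g v)
    (hdec : ∀ a < W, ∃ C, ∀ v : ℂ, |v.im| ≤ a → ‖g v‖ ≤ C * rexp (-|v.re|)) :
    ∃ φ : ℂ → ℂ, (∀ v : ℂ, v.im < W → DifferentiableAt ℂ φ v) ∧
      (∃ M, ∀ v : ℂ, v.im ≤ 0 → ‖φ v‖ ≤ M) ∧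
      ∀ v : ℂ, |v.im| < W → φ v + ε * φ (-v) = g v := by
  set G : ℝ → ℂ := 𝓕 (fun t : ℝ => g t) with hG
  have hpi := Real.pi_pos
  have i0 : Integrable (fun t : ℝ => g t) := by
    obtain ⟨C, hC⟩ := hdec 0 hW
    simpa using line_int (b := 0) hd hW (by simp) hC
  have Gc : Continuous G := VectorFourier.fourierIntegral_continuous Real.continuous_fourierChar
      (innerSL ℝ).continuous₂ i0
  have nexp : ∀ (ξ : ℝ) (v : ℂ), ‖cexp (2 * π * I * ξ * v)‖ = rexp (-(2 * π * ξ * v.im)) := by
    intro ξ v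
    have : (2 * π * I * ξ * v : ℂ) = ((2 * π * ξ : ℝ) : ℂ) * (v * I) := by push_cast; ring
    rw [Complex.norm_exp, this, re_ofReal_mul, mul_I_re]; ring_nf
  have hint : ∀ v : ℂ, |v.im| < W → Integrable (fun ξ : ℝ => cexp (2 * π * I * ξ * v) * G ξ) := by
    intro v hv
    obtain ⟨a, ha1, ha2⟩ := exists_between hv
    obtain ⟨C, hC⟩ := fourier_decay hd hdec ((abs_nonneg _).trans ha1.le) ha2
    refine Integrable.mono' ((integrable_exp_neg_mul_abs (c := 2 * π * (a - |v.im|))
      (by have := sub_pos.mpr ha1; positivity)).const_mul C)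
      (by fun_prop) (Eventually.of_forall fun ξ => ?_)
    rw [norm_mul, nexp]
    refine (mul_le_mul_of_nonneg_left (hC ξ) (Real.exp_pos _).le).trans ?_
    have hC0 : 0 ≤ C := by
      have := (norm_nonneg _).trans (hC 0)
      simpa using this
    rw [mul_left_comm, ← Real.exp_add]
    gcongr
    have h1 : -(ξ * v.im) ≤ |ξ| * |v.im| := by rw [← abs_mul]; exact neg_le_abs _
    nlinarith
  refine ⟨fun v => ∫ ξ in Set.Iic (0 : ℝ), cexp (2 * π * I * ξ * v) * G ξ, ?_, ?_, ?_⟩
  · intro v hv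
    obtain ⟨a, ha1, ha2⟩ := exists_between (max_lt hv hW)
    have hva : v.im < a := (le_max_left _ _).trans_lt ha1
    have ha0 : 0 < a := (le_max_right _ _).trans_lt ha1
    obtain ⟨C, hC⟩ := fourier_decay hd hdec ha0.le ha2
    have hC0 : 0 ≤ C := by
      have := (norm_nonneg _).trans (hC 0)
      simpa using this
    set r := (a - v.im) / 3 with hr
    have hr0 : 0 < r := by rw [hr]; linarith
    have key : ∀ ξ : ℝ, ξ ≤ 0 → ∀ x ∈ Metric.ball v r,
        ‖cexp (2 * π * I * ξ * x) * G ξ‖ ≤ C * rexp (-(2 * π * (2 * r) * |ξ|)) := by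
      intro ξ hξ x hx
      have hx1 : x.im ≤ v.im + r := by
        have h1 := Complex.abs_im_le_norm (x - v)
        rw [mem_ball_iff_norm] at hx
        have h2 := le_abs_self (x - v).im
        rw [sub_im] at h1 h2
        linarith
      rw [norm_mul, nexp]
      refine (mul_le_mul_of_nonneg_left (hC ξ) (Real.exp_pos _).le).trans ?_
      rw [mul_left_comm, ← Real.exp_add]
      gcongr
      rw [abs_of_nonpos hξ]
      have : a = v.im + 3 * r := by rw [hr]; ring
      rw [this]
      have h3 : 0 ≤ π * (-ξ) * (v.im + r - x.im) :=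
        mul_nonneg (mul_nonneg hpi.le (by linarith)) (by linarith)
      nlinarith
    have := hasDerivAt_integral_of_dominated_loc_of_deriv_le (μ := volume.restrict (Set.Iic (0 : ℝ)))
      (F := fun (x : ℂ) (ξ : ℝ) => cexp (2 * π * I * ξ * x) * G ξ)
      (F' := fun (x : ℂ) (ξ : ℝ) => (2 * π * I * ξ) * (cexp (2 * π * I * ξ * x) * G ξ))
      (x₀ := v) (bound := fun ξ => C / r * rexp (-(2 * π * r * |ξ|))) (s := Metric.ball v r)
      (Metric.ball_mem_nhds v hr0)
      (Eventually.of_forall fun x => Continuous.aestronglyMeasurable (by fun_prop))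
      (by
        refine Integrable.mono' (((integrable_exp_neg_mul_abs (c := 2 * π * (2 * r))
          (by positivity)).const_mul C).restrict) (Continuous.aestronglyMeasurable (by fun_prop)) ?_
        filter_upwards [ae_restrict_mem measurableSet_Iic] with ξ hξ
        exact key ξ hξ v (Metric.mem_ball_self hr0))
      (Continuous.aestronglyMeasurable (by fun_prop))
      (by
        filter_upwards [ae_restrict_mem measurableSet_Iic] with ξ hξ x hx
        rw [norm_mul]
        refine (mul_le_mul_of_nonneg_left (key ξ hξ x hx) (norm_nonneg _)).trans ?_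
        have e1 : ‖(2 * π * I * ξ : ℂ)‖ = 2 * π * |ξ| := by
          simp [abs_of_pos hpi]
        have e2 : rexp (-(2 * π * (2 * r) * |ξ|)) =
            rexp (-(2 * π * r * |ξ|)) * rexp (-(2 * π * r * |ξ|)) := by
          rw [← Real.exp_add]; ring_nf
        have h3 : 2 * π * r * |ξ| * rexp (-(2 * π * r * |ξ|)) ≤ 1 := by
          rw [Real.exp_neg, ← div_eq_mul_inv, div_le_one (Real.exp_pos _)]
          linarith [Real.add_one_le_exp (2 * π * r * |ξ|)]
        rw [e1, e2]
        have e3 : 2 * π * |ξ| * (C * (rexp (-(2 * π * r * |ξ|)) * rexp (-(2 * π * r * |ξ|)))) =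
            (2 * π * r * |ξ| * rexp (-(2 * π * r * |ξ|))) * (C / r * rexp (-(2 * π * r * |ξ|))) := by
          field_simp
        rw [e3]
        exact mul_le_of_le_one_left (by positivity) h3)
      (((integrable_exp_neg_mul_abs (c := 2 * π * r) (by positivity)).const_mul _).restrict)
      (by
        refine Eventually.of_forall fun ξ x _ => ?_
        have h1 : HasDerivAt (fun x : ℂ => 2 * π * I * ξ * x) (2 * π * I * ξ) x := by
          simpa using (hasDerivAt_id x).const_mul (2 * π * I * ξ : ℂ)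
        have h2 := (h1.cexp).mul_const (G ξ)
        have e : (2 * π * I * ξ) * (cexp (2 * π * I * ξ * x) * G ξ) =
            cexp (2 * π * I * ξ * x) * (2 * π * I * ξ) * G ξ := by ring
        rw [e]
        exact h2)
    exact this.2.differentiableAt
  · have iG : Integrable G := by simpa using hint 0 (by simpa using hW)
    refine ⟨∫ ξ in Set.Iic (0 : ℝ), ‖G ξ‖, fun v hv => ?_⟩
    apply norm_integral_le_of_norm_le iG.norm.restrict
    filter_upwards [ae_restrict_mem measurableSet_Iic] with ξ hξ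
    rw [norm_mul, nexp]
    apply mul_le_of_le_one_left (norm_nonneg _)
    rw [Real.exp_le_one_iff]
    have : 0 ≤ ξ * v.im := mul_nonneg_of_nonpos_of_nonpos hξ hv
    nlinarith
  · intro v hv
    have Gsym : ∀ ξ : ℝ, ε * G (-ξ) = G ξ := by
      intro ξ
      rw [hG, fourier_eq', fourier_eq', ← integral_neg_eq_self, ← integral_const_mul]
      refine integral_congr_ae (Eventually.of_forall fun t => ?_)
      have := hsym t (by simpa using hW)
      simp only [ofReal_neg]
      rw [this]
      have e : (-2 * π * I * -ξ * -t : ℂ) = -2 * π * I * ξ * t := by ring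
      rw [e]
      linear_combination (cexp (-2 * π * I * ξ * t) * g t) * hε
    have e2 : ε * ∫ ξ in Set.Iic (0 : ℝ), cexp (2 * π * I * ξ * (-v)) * G ξ =
        ∫ ξ in Set.Ioi (0 : ℝ), cexp (2 * π * I * ξ * v) * G ξ := by
      have := integral_comp_neg_Ioi (0 : ℝ) (fun ξ : ℝ => cexp (2 * π * I * ξ * (-v)) * G ξ)
      rw [neg_zero] at this
      rw [← this, ← integral_const_mul]
      refine integral_congr_ae (Eventually.of_forall fun ξ => ?_)
      simp only [ofReal_neg]
      rw [← Gsym ξ]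
      have e : (2 * π * I * -ξ * -v : ℂ) = 2 * π * I * ξ * v := by ring
      rw [e]; ring
    simp only
    rw [e2, intervalIntegral.integral_Iic_add_Ioi (hint v hv).integrableOn (hint v hv).integrableOn]
    obtain ⟨C, hC⟩ := hdec _ hv
    have hsh : 𝓕 (fun t : ℝ => g (t + v.im * I)) = fun ξ : ℝ => cexp (-2 * π * ξ * v.im) * G ξ :=
      funext fun ξ => fourier_shift hd hdec hv ξ
    have i1 := line_int hd hv le_rfl hC
    have i2 : Integrable (𝓕 (fun t : ℝ => g (t + v.im * I))) := by
      rw [hsh]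
      have := hint (v.im * I) (by simpa using hv)
      refine this.congr (Eventually.of_forall fun ξ => ?_)
      simp only
      congr 2
      have := I_mul_I
      linear_combination (2 * π * ξ * v.im) * this
    have inv := congrFun ((line_cont hd hv).fourierInv_fourier_eq i1 i2) v.re
    rw [hsh, fourierInv_eq', re_add_im] at inv
    rw [← inv]
    refine integral_congr_ae (Eventually.of_forall fun ξ => ?_)
    simp only
    rw [← mul_assoc, ← Complex.exp_add]
    congr 2
    have h1 := I_mul_I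
    have h2 := re_add_im v
    linear_combination (-2 * π * I * ξ) * h2 + (2 * π * ξ * v.im) * h1

end Pool.Agent.H989Z.FU
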