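import Pool.Agent.H989Z.FU.Poin
import Pool.Agent.H989Z.FU.Split

set_option autoImplicit false
open Complex Filter Topology
open scoped Real

namespace Pool.Agent.H989Z.FU

noncomputable def sg (v : ℂ) : ℂ := (I * cexp v + 1) / 2

noncomputable def tv (v : ℂ) : ℂ := 1 - 1 / sg v

noncomputable def zt (τ : ℂ) : ℂ := -I * (1 + τ) / (1 - τ)

lemma sg_im (v : ℂ) : (sg v).im = rexp v.re * Real.cos v.im / 2 := by
  simp [sg, Complex.exp_re]

lemma sg_im_pos {v : ℂ} (h : |v.im| < π / 2) : 0 < (sg v).im := by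
  rw [sg_im]
  have := Real.cos_pos_of_mem_Ioo (x := v.im) (abs_lt.mp h)
  positivity

lemma cusp_im_pos {σ : ℂ} (h : 0 < σ.im) : 0 < (1 - 1 / σ).im := by
  have := im_neg_inv_pos h
  have e : 1 - 1 / σ = -1 / σ + 1 := by ring
  rw [e]; simpa using this

lemma tv_im_pos {v : ℂ} (h : |v.im| < π / 2) : 0 < (tv v).im := cusp_im_pos (sg_im_pos h)

lemma tv_neg {v : ℂ} (h : |v.im| < π / 2) : tv (-v) = -1 / tv v := by
  have h1 := ne_zero_of_im (sg_im_pos h)
  have h2 := ne_zero_of_im (sg_im_pos (v := -v) (by simpa using h))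
  have h3 := ne_zero_of_im (tv_im_pos h)
  rw [eq_div_iff h3]
  unfold tv
  have h4 : sg (-v) + sg v - 2 * (sg (-v) * sg v) = 1 := by
    unfold sg
    have e : cexp (-v) * cexp v = 1 := by rw [← Complex.exp_add]; simp
    have := I_mul_I
    linear_combination (1 / 2) * e - (1 / 2 * (cexp (-v) * cexp v)) * this
  field_simp
  linear_combination -h4

lemma diff_tv {v : ℂ} (h : |v.im| < π / 2) : DifferentiableAt ℂ tv v := by
  have h1 := ne_zero_of_im (sg_im_pos h)
  have h2 : DifferentiableAt ℂ sg v := by unfold sg; fun_prop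
  unfold tv
  exact (differentiableAt_const _).sub ((differentiableAt_const _).div h2 h1)

lemma one_sub_ne {τ : ℂ} (h : 0 < τ.im) : 1 - τ ≠ 0 := by
  intro h0
  have := congrArg Complex.im h0
  simp at this; linarith

lemma one_add_ne {τ : ℂ} (h : 0 < τ.im) : 1 + τ ≠ 0 := by
  intro h0
  have := congrArg Complex.im h0
  simp at this; linarith

lemma zt_re {τ : ℂ} (h : 0 < τ.im) : 0 < (zt τ).re := by
  have h1 : 0 < normSq (1 - τ) := normSq_pos.mpr (one_sub_ne h)
  have : (zt τ).re = 2 * τ.im / normSq (1 - τ) := by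
    unfold zt
    rw [div_re, ← add_div]
    congr 1
    simp; ring
  rw [this]; positivity

lemma zt_im {τ : ℂ} (h : 0 < τ.im) (h2 : ‖τ‖ ≤ 1) : (zt τ).im ≤ 0 := by
  have h1 : 0 < normSq (1 - τ) := normSq_pos.mpr (one_sub_ne h)
  have : (zt τ).im = (normSq τ - 1) / normSq (1 - τ) := by
    unfold zt
    rw [div_im, ← sub_div]
    congr 1
    simp [normSq_apply]; ring
  rw [this]
  apply div_nonpos_of_nonpos_of_nonneg _ h1.le
  rw [Complex.normSq_eq_norm_sq]
  nlinarith [norm_nonneg τ]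

lemma zt_ne {τ : ℂ} (h : 0 < τ.im) : zt τ ≠ 0 := by
  intro h0
  have := zt_re h
  rw [h0] at this
  simp at this

lemma log_zt_im {τ : ℂ} (h : 0 < τ.im) : |(log (zt τ)).im| < π / 2 := by
  rw [log_im, Complex.abs_arg_lt_pi_div_two_iff]
  exact Or.inl (zt_re h)

lemma log_zt_nonpos {τ : ℂ} (h : 0 < τ.im) (h2 : ‖τ‖ ≤ 1) : (log (zt τ)).im ≤ 0 := by
  rw [log_im]
  rcases (zt_im h h2).lt_or_eq with h3 | h3
  · exact (Complex.arg_neg_iff.mpr h3).le
  · exact (Complex.arg_eq_zero_iff.mpr ⟨(zt_re h).le, h3⟩).le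

lemma tv_log {τ : ℂ} (h : 0 < τ.im) : tv (log (zt τ)) = τ := by
  have h1 := one_sub_ne h
  have : sg (log (zt τ)) = 1 / (1 - τ) := by
    unfold sg
    rw [Complex.exp_log (zt_ne h)]
    unfold zt
    have := I_mul_I
    field_simp
    linear_combination (-(1 + τ)) * this
  unfold tv
  rw [this, one_div_one_div]; ring

lemma log_zt_S {τ : ℂ} (h : 0 < τ.im) : log (zt (-1 / τ)) = -log (zt τ) := by
  have h0 := ne_zero_of_im h
  have h1 := one_sub_ne h
  have h2 := one_add_ne h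
  have e : zt (-1 / τ) = (zt τ)⁻¹ := by
    apply eq_inv_of_mul_eq_one_left
    unfold zt
    have h3 : 1 - -1 / τ = (1 + τ) / τ := by field_simp; ring
    have h4 : 1 + -1 / τ = -(1 - τ) / τ := by field_simp; ring
    rw [h3, h4]
    have := I_mul_I
    field_simp
    linear_combination (-1 : ℂ) * this
  rw [e, Complex.log_inv]
  intro h3
  have := log_zt_im h
  rw [log_im, h3, abs_of_pos Real.pi_pos] at this
  linarith [Real.pi_pos]

lemma diff_log_zt {τ : ℂ} (h : 0 < τ.im) : DifferentiableAt ℂ (fun τ => log (zt τ)) τ := by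
  apply DifferentiableAt.clog _ (Or.inl (zt_re h))
  unfold zt
  exact DifferentiableAt.div (by fun_prop) (by fun_prop) (one_sub_ne h)

lemma norm_one_sub_I {τ : ℂ} (h : 0 < τ.im) : 1 ≤ ‖1 - I * τ‖ := by
  have := Complex.re_le_norm (1 - I * τ)
  simp at this
  linarith

lemma th_decay {c : ℝ} (hc : 0 < c) : ∃ C, 0 ≤ C ∧ ∀ (σ : ℂ) (R : ℝ), 1 ≤ R → c * R ≤ σ.im →
    ‖σ‖ ≤ R → ‖jacobiTheta (1 - 1 / σ)‖ ^ 5 ≤ C / R := by
  have hpi := Real.pi_gt_three
  set r := rexp (-2 * π * c) with hr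
  have hr0 : 0 < r := Real.exp_pos _
  have hr1 : r < 1 := by rw [hr, Real.exp_lt_one_iff]; nlinarith
  set P := 2 + 2 * (r / (1 - r)) with hP
  have hP0 : 0 ≤ P := by
    have : 0 < 1 - r := by linarith
    positivity
  refine ⟨P ^ 5 * (720 / c ^ 6), by positivity, fun σ R hR h1 h2 => ?_⟩
  have h3 : c ≤ σ.im := by nlinarith
  have h0 : 0 < σ.im := by linarith
  have hp : ‖p2 σ‖ ≤ P := by
    have a := norm_p2_sub h0
    have b := norm_sub_norm_le (p2 σ) 2
    have d : rexp (-2 * π * σ.im) ≤ r := by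
      apply Real.exp_le_exp.mpr; nlinarith
    have d0 := Real.exp_pos (-2 * π * σ.im)
    have e : rexp (-2 * π * σ.im) / (1 - rexp (-2 * π * σ.im)) ≤ r / (1 - r) := by
      gcongr
    simp only [Complex.norm_two] at b
    linarith
  have hrt : ‖rt σ‖ ≤ R := by
    rw [norm_rt_eq, Real.sqrt_le_left (by linarith)]; nlinarith
  have hex : rexp (-(π * σ.im / 4)) ^ 5 ≤ 720 / (c * R) ^ 6 := by
    rw [← Real.exp_nat_mul]
    have a : rexp (((5 : ℕ) : ℝ) * -(π * σ.im / 4)) ≤ rexp (-(c * R)) := by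
      apply Real.exp_le_exp.mpr
      push_cast
      nlinarith
    refine a.trans ?_
    have b := Real.pow_div_factorial_le_exp (c * R) (by positivity) 6
    rw [Real.exp_neg, inv_eq_one_div, div_le_div_iff₀ (Real.exp_pos _) (by positivity)]
    norm_num [Nat.factorial] at b
    linarith
  rw [th_cusp h0, norm_mul, norm_th2, mul_pow, mul_pow]
  calc _ ≤ R ^ 5 * (720 / (c * R) ^ 6 * P ^ 5) := by gcongr
    _ = _ := by field_simp

/-- Hypotheses on the seed function. -/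
structure Seed (φ : ℂ → ℂ) (ε : ℂ) (K : ℝ) : Prop where
  eps : ε = 1 ∨ ε = -1
  diff : Differentiable ℂ φ
  bd : ∀ τ : ℂ, 0 < τ.im → ‖φ τ‖ ≤ K
  z1 : rt 1 * φ 1 + ε * φ (-1) = 0
  z2 : rt (-1) * φ (-1) + ε * φ 1 = 0

noncomputable def psi (φ : ℂ → ℂ) (ε : ℂ) (τ : ℂ) : ℂ := φ τ + ε * φ (-1 / τ) / rt τ

lemma Seed.norm_eps {φ : ℂ → ℂ} {ε : ℂ} {K : ℝ} (S : Seed φ ε K) : ‖ε‖ = 1 := by
  rcases S.eps with h | h <;> simp [h]

lemma Seed.eps_sq {φ : ℂ → ℂ} {ε : ℂ} {K : ℝ} (S : Seed φ ε K) : ε ^ 2 = 1 := by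
  rcases S.eps with h | h <;> simp [h]

lemma Seed.K_nonneg {φ : ℂ → ℂ} {ε : ℂ} {K : ℝ} (S : Seed φ ε K) : 0 ≤ K :=
  (norm_nonneg _).trans (S.bd I (by simp))

lemma Seed.diff_psi {φ : ℂ → ℂ} {ε : ℂ} {K : ℝ} (S : Seed φ ε K) {τ : ℂ}
    (h : 0 < τ.im ∨ τ.re ≠ 0) : DifferentiableAt ℂ (psi φ ε) τ := by
  have h0 : τ ≠ 0 := by rintro rfl; simp at h
  unfold psi
  refine (S.diff τ).add (DifferentiableAt.div (DifferentiableAt.const_mul ?_ _) (diff_rt h)
    (rt_ne h0))
  exact DifferentiableAt.comp (g := φ) (f := fun τ : ℂ => -1 / τ) τ (S.diff _)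
    ((differentiableAt_const _).div differentiableAt_id h0)

lemma Seed.psi_S {φ : ℂ → ℂ} {ε : ℂ} {K : ℝ} (S : Seed φ ε K) {τ : ℂ} (h : 0 < τ.im) :
    psi φ ε (-1 / τ) = ε * rt τ * psi φ ε τ := by
  unfold psi
  rw [neg_inv_neg_inv]
  have h1 := rt_mul_rt h
  have h2 := rt_ne (ne_zero_of_im h)
  have h3 : rt (-1 / τ) = 1 / rt τ := by rw [eq_div_iff h2]; exact h1
  rw [h3]
  have := S.eps_sq
  field_simp
  linear_combination (-φ (-(1 / τ))) * this

lemma Seed.norm_psi {φ : ℂ → ℂ} {ε : ℂ} {K : ℝ} (S : Seed φ ε K) {τ : ℂ} (h : 0 < τ.im) :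
    ‖psi φ ε τ‖ ≤ K + K / √‖τ‖ := by
  unfold psi
  refine (norm_add_le _ _).trans (add_le_add (S.bd τ h) ?_)
  rw [norm_div, norm_mul, S.norm_eps, one_mul, norm_rt_eq]
  gcongr
  exact S.bd _ (im_neg_inv_pos h)

lemma rt_pow_six (τ : ℂ) : rt τ ^ 6 = (-I * τ) ^ 3 := by
  rw [← rt_sq]; ring

theorem exists_split {φ : ℂ → ℂ} {ε : ℂ} {K : ℝ} (S : Seed φ ε K) :
    ∃ (f : ℂ → ℂ) (M : ℝ), (∀ w : ℂ, 0 < w.im → DifferentiableAt ℂ f w) ∧
      (∀ w : ℂ, 0 < w.im → ‖w‖ ≤ 1 → ‖f w‖ ≤ M) ∧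
      (∀ w : ℂ, 0 < w.im → ‖f w‖ ≤ M * (1 + 1 / w.im) ^ 5) ∧
      ∀ τ : ℂ, 0 < τ.im → (-I * τ) ^ 3 * f τ + ε * f (-1 / τ) =
        (-I * τ) ^ 3 * (psi φ ε τ * jacobiTheta τ ^ 5) := by
  have hK := S.K_nonneg
  have hpi := Real.pi_pos
  set g : ℂ → ℂ := fun v => (1 - I * tv v) ^ 3 * (psi φ ε (tv v) * jacobiTheta (tv v) ^ 5) with hg
  have eS : ∀ τ : ℂ, 0 < τ.im → (1 - I * (-1 / τ)) * (-I * τ) = 1 - I * τ := by
    intro τ h
    have h0 := ne_zero_of_im h
    have := I_mul_I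
    field_simp
    linear_combination (-1 : ℂ) * this
  have gsym : ∀ v : ℂ, |v.im| < π / 2 → g (-v) = ε * g v := by
    intro v hv
    have h := tv_im_pos hv
    simp only [hg]
    rw [tv_neg hv, S.psi_S h, th_S h, ← eS _ h, mul_pow (1 - I * (-1 / tv v)), ← rt_pow_six]
    ring
  obtain ⟨f0, f1, ⟨M, f2⟩, f3⟩ := split g ε S.eps_sq (W := π / 2) (by positivity)
    (by
      intro v hv
      have h := tv_im_pos hv
      have hd := diff_tv hv
      refine DifferentiableAt.mul (by fun_prop) (DifferentiableAt.mul ?_ (DifferentiableAt.pow ?_ 5))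
      · exact DifferentiableAt.comp (g := psi φ ε) v (S.diff_psi (Or.inl h)) hd
      · exact DifferentiableAt.comp (g := jacobiTheta) v (differentiableAt_jacobiTheta h) hd)
    gsym
    (by
      intro a ha
      by_cases ha0 : a < 0
      · exact ⟨0, fun v hv => absurd ((abs_nonneg _).trans hv) (not_le.mpr ha0)⟩
      push Not at ha0
      set c := Real.cos a with hc
      have hc0 : 0 < c := Real.cos_pos_of_mem_Ioo ⟨by linarith, ha⟩
      obtain ⟨C, hC0, hC⟩ := th_decay (c := c / 2) (by positivity)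
      have pos : ∀ v : ℂ, |v.im| ≤ a → 0 ≤ v.re →
          ‖g v‖ ≤ (2 + 2 / c) ^ 3 * ((K + K / √(c / 2)) * C) * rexp (-|v.re|) := by
        intro v hv hre
        have hv' : |v.im| < π / 2 := hv.trans_lt ha
        set R := rexp v.re with hR
        have hR1 : 1 ≤ R := Real.one_le_exp hre
        have hcos : c ≤ Real.cos v.im := by
          rw [← Real.cos_abs v.im]
          exact Real.cos_le_cos_of_nonneg_of_le_pi (abs_nonneg _) (by linarith) hv
        have h1 : c / 2 * R ≤ (sg v).im := by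
          rw [sg_im, ← hR]; nlinarith
        have h2 : ‖sg v‖ ≤ R := by
          unfold sg
          rw [norm_div, Complex.norm_two]
          have := norm_add_le (I * cexp v) 1
          rw [norm_mul, norm_I, one_mul, Complex.norm_exp, norm_one, ← hR] at this
          linarith
        have h3 := hC _ R hR1 h1 h2
        have hs0 := sg_im_pos hv'
        have hsn : 0 < ‖sg v‖ := norm_pos_iff.mpr (ne_zero_of_im hs0)
        have h4 : c / 2 * R ≤ ‖sg v‖ := h1.trans ((le_abs_self _).trans (Complex.abs_im_le_norm _))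
        have h5 : ‖1 - I * tv v‖ ≤ 2 + 2 / c := by
          refine (norm_sub_le _ _).trans ?_
          rw [norm_mul, norm_I, one_mul, norm_one]
          unfold tv
          have := norm_sub_le 1 (1 / sg v)
          rw [norm_one, norm_div, norm_one] at this
          have h6 : 1 / ‖sg v‖ ≤ 2 / c := by
            rw [div_le_div_iff₀ hsn hc0]; nlinarith
          linarith
        have h6 : c / 2 ≤ ‖tv v‖ := by
          have e : tv v = (sg v - 1) / sg v := by
            unfold tv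
            have := ne_zero_of_im hs0
            field_simp
          rw [e, norm_div, le_div_iff₀ hsn]
          have h7 := Complex.abs_im_le_norm (sg v - 1)
          simp only [sub_im, one_im, sub_zero] at h7
          have h8 := le_abs_self (sg v).im
          nlinarith
        have h7 : ‖psi φ ε (tv v)‖ ≤ K + K / √(c / 2) := by
          refine (S.norm_psi (tv_im_pos hv')).trans ?_
          gcongr
        simp only [hg]
        rw [norm_mul, norm_mul, norm_pow, norm_pow, abs_of_nonneg hre, Real.exp_neg, ← hR]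
        calc _ ≤ (2 + 2 / c) ^ 3 * ((K + K / √(c / 2)) * (C / R)) := by
              gcongr
              exact h3
          _ = _ := by ring
      refine ⟨(2 + 2 / c) ^ 3 * ((K + K / √(c / 2)) * C), fun v hv => ?_⟩
      rcases le_total 0 v.re with hre | hre
      · exact pos v hv hre
      · have h1 := pos (-v) (by simpa using hv) (by simpa using hre)
        rw [gsym v (hv.trans_lt ha), norm_mul, S.norm_eps, one_mul] at h1
        simpa using h1)
  have hM : 0 ≤ M := (norm_nonneg _).trans (f2 0 (by simp))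
  have hne : ∀ τ : ℂ, 0 < τ.im → 1 - I * τ ≠ 0 := by
    intro τ h h0
    have := norm_one_sub_I h
    rw [h0] at this; norm_num at this
  set f : ℂ → ℂ := fun τ => f0 (log (zt τ)) / (1 - I * τ) ^ 3 with hf
  have b1 : ∀ w : ℂ, 0 < w.im → ‖w‖ ≤ 1 → ‖f w‖ ≤ M := by
    intro w h h1
    simp only [hf]
    rw [norm_div, norm_pow]
    exact (div_le_self (norm_nonneg _) (one_le_pow₀ (norm_one_sub_I h))).trans
      (f2 _ (log_zt_nonpos h h1))
  have fe : ∀ τ : ℂ, 0 < τ.im → (-I * τ) ^ 3 * f τ + ε * f (-1 / τ) =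
      (-I * τ) ^ 3 * (psi φ ε τ * jacobiTheta τ ^ 5) := by
    intro τ h
    have h1 := f3 _ (log_zt_im h)
    simp only [hg, tv_log h] at h1
    simp only [hf]
    rw [log_zt_S h]
    have h2 := hne τ h
    have h3 := hne _ (im_neg_inv_pos h)
    have h4 : (-I * τ) = (1 - I * τ) / (1 - I * (-1 / τ)) := by
      rw [eq_div_iff h3, mul_comm, eS τ h]
    rw [h4]
    set A := 1 - I * τ
    set B := 1 - I * (-1 / τ)
    field_simp
    linear_combination h1
  refine ⟨f, M + 2 * K, ?_, fun w h h1 => (b1 w h h1).trans (by linarith), ?_, fe⟩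
  · intro w h
    refine DifferentiableAt.div ?_ (by fun_prop) (pow_ne_zero _ (hne w h))
    exact DifferentiableAt.comp (g := f0) w (f1 _ ((le_abs_self _).trans_lt (log_zt_im h)))
      (diff_log_zt h)
  · intro w h
    have hp : 1 ≤ (1 + 1 / w.im) ^ 5 := by
      apply one_le_pow₀
      have : 0 < 1 / w.im := by positivity
      linarith
    rcases le_total ‖w‖ 1 with h1 | h1
    · refine (b1 w h h1).trans ?_
      nlinarith
    · have h0 := ne_zero_of_im h
      have h2 : f w = psi φ ε w * jacobiTheta w ^ 5 - ε * f (-1 / w) / (-I * w) ^ 3 := by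
        have h3 : (-I * w) ^ 3 ≠ 0 := pow_ne_zero _ (mul_ne_zero (by simp) h0)
        rw [eq_sub_iff_add_eq]
        apply mul_left_cancel₀ h3
        rw [← fe w h, mul_add, mul_div_cancel₀ _ h3]
      rw [h2]
      refine (norm_sub_le _ _).trans ?_
      have h4 : ‖ε * f (-1 / w) / (-I * w) ^ 3‖ ≤ M := by
        rw [norm_div, norm_mul, S.norm_eps, one_mul, norm_pow]
        refine (div_le_self (norm_nonneg _) (one_le_pow₀ (by simpa using h1))).trans
          (b1 _ (im_neg_inv_pos h) ?_)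
        rw [norm_div, norm_neg, norm_one, div_le_one (by linarith)]
        exact h1
      have h5 : ‖psi φ ε w‖ ≤ 2 * K := by
        refine (S.norm_psi h).trans ?_
        have : K / √‖w‖ ≤ K := div_le_self hK (Real.one_le_sqrt.mpr h1)
        linarith
      have h6 : ‖psi φ ε w * jacobiTheta w ^ 5‖ ≤ 2 * K * (1 + 1 / w.im) ^ 5 := by
        rw [norm_mul, norm_pow]
        gcongr
        exact th_crude h
      nlinarith

theorem exists_F0 {φ : ℂ → ℂ} {ε : ℂ} {K : ℝ} (S : Seed φ ε K) :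
    ∃ Φ : ℂ → ℂ, (∀ τ : ℂ, 0 < τ.im → DifferentiableAt ℂ Φ τ) ∧ (∀ τ : ℂ, Φ (τ + 2) = Φ τ) ∧
      (∀ τ : ℂ, 0 < τ.im → rt τ * (Φ τ / jacobiTheta τ ^ 5) +
        ε * (Φ (-1 / τ) / jacobiTheta (-1 / τ) ^ 5) = rt τ * psi φ ε τ) ∧
      ∃ C, 0 ≤ C ∧ ∀ τ : ℂ, 0 < τ.im →
        ‖Φ τ‖ ≤ C * ((1 + 1 / τ.im) ^ 5 * (1 + (1 + ‖τ‖) / τ.im) ^ 3) := by
  obtain ⟨f, M, f1, f2, f3, f4⟩ := exists_split S
  obtain ⟨Φ, p1, p2, p3, p4⟩ := poincare f S.eps f1 f2 f3
  refine ⟨Φ, p1, p2, fun τ h => ?_, p4⟩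
  have h1 := (p3 τ h).trans (f4 τ h)
  rw [← rt_pow_six] at h1
  rw [th_S h]
  have h2 := th_ne h
  have h3 := rt_ne (ne_zero_of_im h)
  generalize Φ (-1 / τ) = X at h1 ⊢
  field_simp
  linear_combination h1

end Pool.Agent.H989Z.FU
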