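import Mathlib

set_option autoImplicit false
open Complex Filter Topology Asymptotics
open scoped Real

namespace Pool.Agent.H989Z.FU

lemma ev_iff (P : ℂ → Prop) :
    (∀ᶠ z in comap Complex.im atTop, P z) ↔ ∃ Y : ℝ, ∀ z : ℂ, Y ≤ z.im → P z := by
  simp only [Filter.eventually_comap, Filter.eventually_atTop]
  constructor
  · rintro ⟨Y, h⟩
    exact ⟨Y, fun z hz => h _ hz z rfl⟩
  · rintro ⟨Y, h⟩
    exact ⟨Y, fun y hy z hz => h z (hz ▸ hy)⟩

lemma norm_exp_I_mul (c : ℝ) (σ : ℂ) : ‖cexp (c * I * σ)‖ = rexp (-(c * σ.im)) := by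
  have : (c * I * σ : ℂ) = (c : ℂ) * (σ * I) := by ring
  rw [Complex.norm_exp, this, re_ofReal_mul, mul_I_re]; ring_nf

lemma cusp_removable (p : ℂ → ℂ) (Y0 C : ℝ) (hper : ∀ σ : ℂ, Y0 < σ.im → p (σ + 1) = p σ)
    (hd : ∀ σ : ℂ, Y0 < σ.im → DifferentiableAt ℂ p σ)
    (hb : ∀ σ : ℂ, Y0 < σ.im → |σ.re| ≤ 1 / 2 → ‖p σ‖ ≤ C * rexp (7 * π / 4 * σ.im)) :
    ∃ (p0 : ℂ) (C' Y1 : ℝ), ∀ σ : ℂ, Y1 ≤ σ.im → ‖p σ - p0‖ ≤ C' * rexp (-(2 * π * σ.im)) := by
  classical
  set P : ℂ → ℂ := fun σ => if Y0 < σ.im then p σ else 0 with hP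
  have Pper : Function.Periodic P ((1 : ℝ) : ℂ) := by
    intro σ
    simp only [hP, ofReal_one, add_im, one_im, add_zero]
    split_ifs with h
    · exact hper σ h
    · rfl
  have Pd : ∀ σ : ℂ, Y0 < σ.im → DifferentiableAt ℂ P σ := by
    intro σ h
    refine (hd σ h).congr_of_eventuallyEq ?_
    filter_upwards [(isOpen_lt continuous_const Complex.continuous_im).mem_nhds h] with z hz
    simp only [hP]
    rw [if_pos hz]
  have Pb : ∀ σ : ℂ, Y0 < σ.im → ‖P σ‖ ≤ C * rexp (7 * π / 4 * σ.im) := by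
    intro σ h
    have h1 := (Pper.int_mul (round σ.re)).sub_eq σ
    rw [← h1]
    have h2 : (σ - (round σ.re : ℤ) * ((1 : ℝ) : ℂ)).im = σ.im := by simp
    have h3 : (σ - (round σ.re : ℤ) * ((1 : ℝ) : ℂ)).re = σ.re - round σ.re := by simp
    have := hb (σ - (round σ.re : ℤ) * ((1 : ℝ) : ℂ)) (by rw [h2]; exact h)
      (by rw [h3]; exact abs_sub_round _)
    rw [h2] at this
    simp only [hP]
    rw [h2, if_pos h]
    exact this
  have hol : ∀ᶠ z in comap Complex.im atTop, DifferentiableAt ℂ P z :=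
    (ev_iff _).mpr ⟨Y0 + 1, fun z hz => Pd z (by linarith)⟩
  set Q : ℂ → ℂ := fun σ => cexp ((2 * π : ℝ) * I * σ) * P σ with hQ
  have Qper : Function.Periodic Q ((1 : ℝ) : ℂ) := by
    intro σ
    simp only [hQ]
    rw [Pper σ]
    congr 1
    have : ((2 * π : ℝ) : ℂ) * I * (σ + ((1 : ℝ) : ℂ)) = (2 * π : ℝ) * I * σ + 2 * π * I := by
      push_cast; ring
    rw [this, Complex.exp_add, Complex.exp_two_pi_mul_I, mul_one]
  have Qhol : ∀ᶠ z in comap Complex.im atTop, DifferentiableAt ℂ Q z := by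
    filter_upwards [hol] with z hz
    exact DifferentiableAt.mul (by fun_prop) hz
  have Qz : ZeroAtFilter (comap Complex.im atTop) Q := by
    have hlim : Tendsto (fun z : ℂ => C * rexp (-(π / 4 * z.im))) (comap Complex.im atTop) (𝓝 0) := by
      have h1 : Tendsto (fun y : ℝ => C * rexp (-(π / 4 * y))) atTop (𝓝 0) := by
        have := (Real.tendsto_exp_neg_atTop_nhds_zero.comp
          (tendsto_id.const_mul_atTop (by positivity : 0 < π / 4))).const_mul C
        simpa using this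
      exact h1.comp tendsto_comap
    refine squeeze_zero_norm' ?_ hlim
    refine (ev_iff _).mpr ⟨Y0 + 1, fun z hz => ?_⟩
    simp only [hQ]
    rw [norm_mul, norm_exp_I_mul]
    refine (mul_le_mul_of_nonneg_left (Pb z (by linarith)) (Real.exp_pos _).le).trans ?_
    rw [mul_left_comm, ← Real.exp_add]
    apply le_of_eq
    congr 2; ring
  have h1 := Function.Periodic.exp_decay_of_zero_at_inf one_pos Qper Qhol Qz
  have Pbd : BoundedAtFilter (comap Complex.im atTop) P := by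
    obtain ⟨c, hc⟩ := h1.bound
    refine IsBigO.of_bound c ?_
    filter_upwards [hc] with z hz
    simp only [hQ] at hz
    rw [norm_mul, norm_exp_I_mul, Real.norm_eq_abs, Real.abs_exp] at hz
    have e : -2 * π * z.im / 1 = -(2 * π * z.im) := by ring
    rw [e, mul_comm] at hz
    simpa using le_of_mul_le_mul_right hz (Real.exp_pos _)
  have h2 := Function.Periodic.exp_decay_sub_of_bounded_at_inf one_pos Pper hol Pbd
  obtain ⟨c, hc⟩ := h2.bound
  obtain ⟨Y, hY⟩ := (ev_iff _).mp hc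
  refine ⟨Function.Periodic.cuspFunction 1 P 0, c, max Y (Y0 + 1), fun σ hσ => ?_⟩
  have := hY σ ((le_max_left _ _).trans hσ)
  have h3 : Y0 < σ.im := by linarith [(le_max_right _ _).trans hσ]
  rw [Real.norm_eq_abs, Real.abs_exp] at this
  have e : -2 * π * σ.im / 1 = -(2 * π * σ.im) := by ring
  rw [e] at this
  have e2 : P σ = p σ := by simp only [hP]; rw [if_pos h3]
  rwa [e2] at this

lemma summable_w : Summable (fun k : ℤ => (1 + |(k : ℝ)|) ^ (-(5 / 4 : ℝ))) := by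
  have h : Summable (fun n : ℕ => (1 + (n : ℝ)) ^ (-(5 / 4 : ℝ))) := by
    have := (summable_nat_add_iff 1).mpr (Real.summable_nat_rpow.mpr (by norm_num : -(5 / 4 : ℝ) < -1))
    refine this.congr fun n => ?_
    push_cast
    rw [add_comm]
  apply Summable.of_nat_of_neg
  · simpa using h
  · simpa using h

lemma shift_bound {σ : ℂ} (h : 1 ≤ σ.im) {n : ℤ} (hn : |σ.re - n| ≤ 2) (j : ℕ) :
    ‖σ - j‖ ^ (-(3 / 2 : ℝ)) ≤
      σ.im ^ (-(1 / 4 : ℝ)) * (16 * (1 + |(((j : ℤ) - n : ℤ) : ℝ)|) ^ (-(5 / 4 : ℝ))) := by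
  have h1 : σ.im ≤ ‖σ - j‖ := by
    have := Complex.abs_im_le_norm (σ - j)
    simp only [sub_im, natCast_im, sub_zero] at this
    exact (le_abs_self _).trans this
  have h2 : |σ.re - j| ≤ ‖σ - j‖ := by
    have := Complex.abs_re_le_norm (σ - j)
    simpa using this
  set N := ‖σ - j‖
  have hN : 0 < N := by linarith
  have h3 : (1 + |(((j : ℤ) - n : ℤ) : ℝ)|) / 4 ≤ N := by
    push_cast
    have : |(j : ℝ) - n| ≤ |σ.re - n| + |σ.re - j| := by
      have := abs_sub (σ.re - n) (σ.re - j)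
      have e : σ.re - n - (σ.re - j) = j - n := by ring
      rwa [e] at this
    linarith
  have e : N ^ (-(3 / 2 : ℝ)) = N ^ (-(1 / 4 : ℝ)) * N ^ (-(5 / 4 : ℝ)) := by
    rw [← Real.rpow_add hN]; norm_num
  rw [e]
  apply mul_le_mul
  · exact Real.rpow_le_rpow_of_nonpos (by linarith) h1 (by norm_num)
  · refine (Real.rpow_le_rpow_of_nonpos (by positivity) h3 (by norm_num)).trans ?_
    rw [Real.div_rpow (by positivity) (by norm_num), div_eq_mul_inv, mul_comm,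
      ← Real.rpow_neg (by norm_num)]
    gcongr
    calc (4 : ℝ) ^ (- -(5 / 4 : ℝ)) ≤ 4 ^ ((2 : ℕ) : ℝ) :=
          Real.rpow_le_rpow_of_exponent_le (by norm_num) (by norm_num)
      _ = 16 := by rw [Real.rpow_natCast]; norm_num
  · positivity
  · positivity

lemma cusp_particular (r : ℂ → ℂ) (μ : ℂ) (hμ : ‖μ‖ = 1) (Y0 C : ℝ) (hY : 1 ≤ Y0)
    (hd : ∀ σ : ℂ, Y0 < σ.im → DifferentiableAt ℂ r σ)
    (hb : ∀ σ : ℂ, Y0 < σ.im → ‖r σ‖ ≤ C * ‖σ‖ ^ (-(3 / 2 : ℝ))) :
    ∃ (G : ℂ → ℂ) (C' : ℝ), (∀ σ : ℂ, Y0 < σ.im → DifferentiableAt ℂ G σ) ∧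
      (∀ σ : ℂ, Y0 < σ.im → G σ = r σ + μ * G (σ - 1)) ∧
      ∀ σ : ℂ, Y0 < σ.im → ‖G σ‖ ≤ C' * σ.im ^ (-(1 / 4 : ℝ)) := by
  have hC : 0 ≤ C := by
    have h1 := (norm_nonneg _).trans (hb ((Y0 + 1 : ℝ) * I) (by simp))
    have h2 : 0 < ‖((Y0 + 1 : ℝ) : ℂ) * I‖ ^ (-(3 / 2 : ℝ)) := by
      apply Real.rpow_pos_of_pos
      rw [norm_mul, norm_I, mul_one, Complex.norm_real, Real.norm_eq_abs, abs_pos]
      linarith
    exact nonneg_of_mul_nonneg_left h1 h2
  set w : ℤ → ℝ := fun k => (1 + |(k : ℝ)|) ^ (-(5 / 4 : ℝ)) with hw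
  have inj : ∀ n : ℤ, Function.Injective (fun j : ℕ => (j : ℤ) - n) := by
    intro n a b h
    simpa using h
  have sw : ∀ n : ℤ, Summable (fun j : ℕ => w ((j : ℤ) - n)) := fun n =>
    summable_w.comp_injective (inj n)
  have tb : ∀ (σ : ℂ) (n : ℤ), Y0 < σ.im → |σ.re - n| ≤ 2 → ∀ j : ℕ,
      ‖μ ^ j * r (σ - j)‖ ≤ 16 * C * σ.im ^ (-(1 / 4 : ℝ)) * w ((j : ℤ) - n) := by
    intro σ n h hn j
    rw [norm_mul, norm_pow, hμ, one_pow, one_mul]
    refine (hb _ (by simpa using h)).trans ?_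
    refine (mul_le_mul_of_nonneg_left (shift_bound (by linarith) hn j) hC).trans (le_of_eq ?_)
    simp only [hw]; ring
  have rnd : ∀ σ : ℂ, |σ.re - (round σ.re : ℤ)| ≤ 2 := fun σ =>
    (abs_sub_round _).trans (by norm_num)
  have sm : ∀ σ : ℂ, Y0 < σ.im → Summable (fun j : ℕ => μ ^ j * r (σ - j)) := fun σ h =>
    Summable.of_norm_bounded ((sw _).mul_left _) (tb σ _ h (rnd σ))
  refine ⟨fun σ => ∑' j : ℕ, μ ^ j * r (σ - j), 16 * C * ∑' k, w k, ?_, ?_, ?_⟩
  · intro σ h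
    set U : Set ℂ := {z | Y0 < z.im} ∩ Metric.ball σ 1 with hU
    have hUo : IsOpen U := (isOpen_lt continuous_const Complex.continuous_im).inter
      Metric.isOpen_ball
    have hσU : σ ∈ U := ⟨h, by simp⟩
    refine (differentiableOn_tsum_of_summable_norm ((sw (round σ.re)).mul_left (16 * C)) ?_ hUo
      ?_).differentiableAt (hUo.mem_nhds hσU)
    · intro j z hz
      apply DifferentiableAt.differentiableWithinAt
      apply DifferentiableAt.const_mul
      exact DifferentiableAt.comp (g := r) (f := fun z : ℂ => z - j) z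
        (hd _ (by simpa using hz.1)) (by fun_prop)
    · intro j z hz
      have hz1 : Y0 < z.im := hz.1
      have hz2 : |z.re - (round σ.re : ℤ)| ≤ 2 := by
        have h1 := abs_sub_round σ.re
        have h2 := Complex.abs_re_le_norm (z - σ)
        have h3 := mem_ball_iff_norm.mp hz.2
        rw [sub_re] at h2
        have := abs_add_le (z.re - σ.re) (σ.re - round σ.re)
        have e : z.re - σ.re + (σ.re - round σ.re) = z.re - round σ.re := by ring
        rw [e] at this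
        linarith
      refine (tb z _ hz1 hz2 j).trans ?_
      have h4 : z.im ^ (-(1 / 4 : ℝ)) ≤ 1 :=
        Real.rpow_le_one_of_one_le_of_nonpos (by linarith) (by norm_num)
      have h5 : 0 ≤ w ((j : ℤ) - round σ.re) := by simp only [hw]; positivity
      apply mul_le_mul_of_nonneg_right _ h5
      exact mul_le_of_le_one_right (by positivity) h4
  · intro σ h
    simp only
    rw [(sm σ h).tsum_eq_zero_add, ← tsum_mul_left]
    simp only [pow_zero, Nat.cast_zero, sub_zero, one_mul]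
    congr 1
    refine tsum_congr fun j => ?_
    push_cast
    have : σ - (j + 1) = σ - 1 - j := by ring
    rw [this]; ring
  · intro σ h
    have h1 := tsum_of_norm_bounded ((sw (round σ.re)).mul_left
      (16 * C * σ.im ^ (-(1 / 4 : ℝ)))).hasSum (tb σ _ h (rnd σ))
    rw [tsum_mul_left] at h1
    refine h1.trans ?_
    have h2 : ∑' j : ℕ, w ((j : ℤ) - round σ.re) ≤ ∑' k, w k :=
      tsum_comp_le_tsum_of_inj summable_w (fun k => by positivity) (inj _)
    have h3 : 0 < σ.im := by linarith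
    calc _ ≤ 16 * C * σ.im ^ (-(1 / 4 : ℝ)) * ∑' k, w k := by gcongr
      _ = _ := by ring

theorem cusp_main (G r : ℂ → ℂ) (α : ℝ) (hα1 : -(1 / 2) ≤ α) (hα2 : α ≤ 1 / 2) (Y0 C : ℝ)
    (hY : 1 ≤ Y0)
    (hd : ∀ σ : ℂ, Y0 < σ.im → DifferentiableAt ℂ r σ)
    (hb : ∀ σ : ℂ, Y0 < σ.im → ‖r σ‖ ≤ C * ‖σ‖ ^ (-(3 / 2 : ℝ)))
    (hG : ∀ σ : ℂ, Y0 < σ.im → DifferentiableAt ℂ G σ)
    (hrec : ∀ σ : ℂ, Y0 < σ.im → G σ = r σ + cexp ((2 * π * α : ℝ) * I) * G (σ - 1))
    (C2 : ℝ) (hgr : ∀ σ : ℂ, Y0 < σ.im → |σ.re| ≤ 1 / 2 →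
      ‖G σ‖ ≤ C2 * rexp ((7 * π / 4 - 2 * π * α) * σ.im)) :
    ∃ (p0 : ℂ) (C' Y1 : ℝ), 1 ≤ Y1 ∧ ∀ σ : ℂ, Y1 ≤ σ.im →
      ‖G σ - p0 * cexp ((2 * π * α : ℝ) * I * σ)‖ ≤ C' * σ.im ^ (-(1 / 4 : ℝ)) := by
  have hpi := Real.pi_gt_three
  obtain ⟨Gp, C1, g1, g2, g3⟩ := cusp_particular r (cexp ((2 * π * α : ℝ) * I))
    (Complex.norm_exp_ofReal_mul_I _) Y0 C hY hd hb
  have hC1 : 0 ≤ C1 := by
    have h1 := (norm_nonneg _).trans (g3 ((Y0 + 1 : ℝ) * I) (by simp))
    have h2 : 0 < (((Y0 + 1 : ℝ) : ℂ) * I).im ^ (-(1 / 4 : ℝ)) := by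
      apply Real.rpow_pos_of_pos
      simp; linarith
    exact nonneg_of_mul_nonneg_left h1 h2
  obtain ⟨p0, C', Y1, hp⟩ := cusp_removable
    (fun σ => cexp ((-(2 * π * α) : ℝ) * I * σ) * (G σ - Gp σ)) Y0 (C2 + C1)
    (by
      intro σ h
      have h' : Y0 < (σ + 1).im := by simpa using h
      rw [hrec _ h', g2 _ h', add_sub_cancel_right]
      have : cexp ((-(2 * π * α) : ℝ) * I * (σ + 1)) * cexp ((2 * π * α : ℝ) * I) =
          cexp ((-(2 * π * α) : ℝ) * I * σ) := by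
        rw [← Complex.exp_add]; congr 1; push_cast; ring
      rw [← this]; ring)
    (fun σ h => DifferentiableAt.mul (by fun_prop) ((hG σ h).sub (g1 σ h)))
    (by
      intro σ h hre
      rw [norm_mul, norm_exp_I_mul]
      have h0 : 0 < σ.im := by linarith
      have h4 : σ.im ^ (-(1 / 4 : ℝ)) ≤ 1 :=
        Real.rpow_le_one_of_one_le_of_nonpos (by linarith) (by norm_num)
      have h5 : ‖Gp σ‖ ≤ C1 * rexp ((7 * π / 4 - 2 * π * α) * σ.im) := by
        refine (g3 σ h).trans (mul_le_mul_of_nonneg_left (h4.trans ?_) hC1)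
        apply Real.one_le_exp
        apply mul_nonneg _ h0.le
        nlinarith
      have h6 := (norm_sub_le (G σ) (Gp σ)).trans (add_le_add (hgr σ h hre) h5)
      refine (mul_le_mul_of_nonneg_left h6 (Real.exp_pos _).le).trans (le_of_eq ?_)
      rw [← add_mul, mul_left_comm, ← Real.exp_add]
      congr 2; ring)
  refine ⟨p0, C1 + |C'|, max Y1 (Y0 + 1), le_max_of_le_right (by linarith), fun σ hσ => ?_⟩
  have h1 := hp σ ((le_max_left _ _).trans hσ)
  have h3 : Y0 < σ.im := by linarith [(le_max_right _ _).trans hσ]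
  have h0 : 0 < σ.im := by linarith
  have e : G σ - p0 * cexp ((2 * π * α : ℝ) * I * σ) = Gp σ + cexp ((2 * π * α : ℝ) * I * σ) *
      (cexp ((-(2 * π * α) : ℝ) * I * σ) * (G σ - Gp σ) - p0) := by
    have : cexp ((2 * π * α : ℝ) * I * σ) * cexp ((-(2 * π * α) : ℝ) * I * σ) = 1 := by
      rw [← Complex.exp_add, ← Complex.exp_zero]; congr 1; push_cast; ring
    linear_combination (-(G σ - Gp σ)) * this
  rw [e]
  refine (norm_add_le _ _).trans ?_
  rw [add_mul]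
  apply add_le_add (g3 σ h3)
  rw [norm_mul, norm_exp_I_mul]
  refine (mul_le_mul_of_nonneg_left h1 (Real.exp_pos _).le).trans ?_
  rw [mul_left_comm, ← Real.exp_add]
  apply mul_le_mul (le_abs_self _) _ (Real.exp_pos _).le (abs_nonneg _)
  have h7 : rexp (-(2 * π * α * σ.im) + -(2 * π * σ.im)) ≤ rexp (-σ.im) := by
    apply Real.exp_le_exp.mpr
    have : 0 ≤ (2 * π * α + 2 * π - 1) * σ.im := by
      apply mul_nonneg _ h0.le
      nlinarith
    nlinarith
  refine h7.trans ?_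
  rw [Real.rpow_def_of_pos h0]
  apply Real.exp_le_exp.mpr
  have h8 := Real.log_le_sub_one_of_pos h0
  have h9 : 0 ≤ Real.log σ.im := Real.log_nonneg (by linarith)
  nlinarith

end Pool.Agent.H989Z.FU
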