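import Pool.Agent.H989Z.FU.Build1
import Pool.Agent.H989Z.FU.Cusp

set_option autoImplicit false
open Complex Filter Topology
open scoped Real

namespace Pool.Agent.H989Z.FU

lemma rt_cusp {σ : ℂ} (h : 0 < σ.im) : rt (1 - 1 / σ) * rt σ * zeta = rt (σ - 1) := by
  have h0 := ne_zero_of_im h
  have h' : 0 < (σ - 1).im := by simpa using h
  have h1 := ne_zero_of_im h'
  have e : -1 / (1 - 1 / σ) + 2 = 1 - 1 / (σ - 1) := by
    have : 1 - 1 / σ = (σ - 1) / σ := by field_simp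
    rw [this]; field_simp; ring
  have a := th_S (cusp_im_pos h)
  rw [← th_add_two, e, th_cusp h', th_cusp h] at a
  have b := th2_add_one (σ - 1)
  rw [sub_add_cancel] at b
  rw [b] at a
  have c := th2_ne h'
  apply mul_right_cancel₀ c
  linear_combination -a

lemma cusp_rec {F ψ : ℂ → ℂ} {ε : ℂ} (hper : ∀ τ, F (τ + 2) = F τ)
    (hfe : ∀ τ : ℂ, 0 < τ.im → rt τ * F τ + ε * F (-1 / τ) = rt τ * ψ τ) {σ : ℂ} (h : 0 < σ.im) :
    F (1 - 1 / σ) / rt σ = ψ (1 - 1 / σ) / rt σ +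
      (-ε * zeta) * (F (1 - 1 / (σ - 1)) / rt (σ - 1)) := by
  have h0 := ne_zero_of_im h
  have h' : 0 < (σ - 1).im := by simpa using h
  have h1 := ne_zero_of_im h'
  have e : -1 / (1 - 1 / σ) + 2 = 1 - 1 / (σ - 1) := by
    have : 1 - 1 / σ = (σ - 1) / σ := by field_simp
    rw [this]; field_simp; ring
  have a := hfe _ (cusp_im_pos h)
  rw [← hper (-1 / (1 - 1 / σ)), e] at a
  rw [← rt_cusp h]
  have r1 := rt_ne h0
  have r2 := rt_ne (ne_zero_of_im (cusp_im_pos h))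
  have r3 := zeta_ne
  generalize F (1 - 1 / (σ - 1)) = X at a ⊢
  generalize F (1 - 1 / σ) = Y at a ⊢
  generalize ψ (1 - 1 / σ) = Z at a ⊢
  generalize rt (1 - 1 / σ) = W at a r2 ⊢
  field_simp
  linear_combination a

lemma diff_cusp {F : ℂ → ℂ} (hF : ∀ τ : ℂ, 0 < τ.im → DifferentiableAt ℂ F τ) {σ : ℂ}
    (h : 0 < σ.im) : DifferentiableAt ℂ (fun σ => F (1 - 1 / σ) / rt σ) σ := by
  have h0 := ne_zero_of_im h
  refine DifferentiableAt.div ?_ (diff_rt (Or.inl h)) (rt_ne h0)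
  exact DifferentiableAt.comp (g := F) (f := fun σ : ℂ => 1 - 1 / σ) σ (hF _ (cusp_im_pos h))
    ((differentiableAt_const _).sub ((differentiableAt_const _).div differentiableAt_id h0))

lemma near_zero {f : ℂ → ℂ} {c : ℂ} (hd : DifferentiableAt ℂ f c) (h0 : f c = 0) :
    ∃ C δ : ℝ, 0 ≤ C ∧ 0 < δ ∧ δ ≤ 1 ∧ ∀ z : ℂ, ‖z - c‖ < δ → ‖f z‖ ≤ C * ‖z - c‖ := by
  obtain ⟨C, hC0, hC⟩ := hd.isBigO_sub.exists_nonneg
  obtain ⟨δ, hδ, h⟩ := Metric.eventually_nhds_iff.mp hC.bound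
  refine ⟨C, min δ 1, hC0, by positivity, min_le_right _ _, fun z hz => ?_⟩
  have := h (y := z) (by rw [dist_eq_norm]; exact hz.trans_le (min_le_left _ _))
  simpa [h0] using this

lemma Seed.psi_one {φ : ℂ → ℂ} {ε : ℂ} {K : ℝ} (S : Seed φ ε K) : psi φ ε 1 = 0 := by
  have h := S.z1
  have h1 : rt 1 ≠ 0 := rt_ne one_ne_zero
  unfold psi
  rw [div_one]
  field_simp
  linear_combination h

lemma Seed.psi_neg_one {φ : ℂ → ℂ} {ε : ℂ} {K : ℝ} (S : Seed φ ε K) : psi φ ε (-1) = 0 := by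
  have h := S.z2
  have h1 : rt (-1) ≠ 0 := rt_ne (by norm_num)
  unfold psi
  have : (-1 / -1 : ℂ) = 1 := by norm_num
  rw [this]
  field_simp
  linear_combination h

lemma Seed.r_bound {φ : ℂ → ℂ} {ε : ℂ} {K : ℝ} (S : Seed φ ε K) :
    ∃ Y0 C : ℝ, 1 ≤ Y0 ∧ ∀ σ : ℂ, Y0 < σ.im →
      ‖psi φ ε (1 - 1 / σ) / rt σ‖ ≤ C * ‖σ‖ ^ (-(3 / 2 : ℝ)) := by
  obtain ⟨C, δ, hC, hδ, hδ1, h⟩ := near_zero (S.diff_psi (τ := 1) (Or.inr (by simp))) S.psi_one
  refine ⟨1 / δ, C, by rw [le_div_iff₀ hδ]; linarith, fun σ hσ => ?_⟩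
  have h1 : 1 / δ < ‖σ‖ := hσ.trans_le ((le_abs_self _).trans (Complex.abs_im_le_norm _))
  have h2 : 0 < ‖σ‖ := lt_trans (by positivity) h1
  have e : ‖1 - 1 / σ - 1‖ = 1 / ‖σ‖ := by simp
  have h3 := h (1 - 1 / σ) (by rw [e, div_lt_iff₀ h2]; rw [div_lt_iff₀ hδ] at h1; linarith)
  rw [e] at h3
  rw [norm_div, norm_rt_eq, div_le_iff₀ (Real.sqrt_pos.mpr h2)]
  refine h3.trans (le_of_eq ?_)
  rw [mul_assoc, Real.sqrt_eq_rpow, ← Real.rpow_add h2]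
  norm_num
  left
  exact (Real.rpow_neg_one _).symm

lemma th2_lower {σ : ℂ} (h : 1 / 4 ≤ σ.im) : rexp (-(π * σ.im / 4)) ≤ ‖th2 σ‖ := by
  rw [norm_th2]
  have := p2_lower h
  exact le_mul_of_one_le_right (Real.exp_pos _).le (by linarith)

lemma growth0 {Φ : ℂ → ℂ} {C : ℝ} (hC : 0 ≤ C) (hb : ∀ τ : ℂ, 0 < τ.im →
      ‖Φ τ‖ ≤ C * ((1 + 1 / τ.im) ^ 5 * (1 + (1 + ‖τ‖) / τ.im) ^ 3)) :
    ∃ C2, 0 ≤ C2 ∧ ∀ σ : ℂ, 1 ≤ σ.im → |σ.re| ≤ 1 / 2 →
      ‖Φ (1 - 1 / σ) / jacobiTheta (1 - 1 / σ) ^ 5 / rt σ‖ ≤ C2 * rexp (3 * π / 2 * σ.im) := by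
  refine ⟨C * (3 ^ 5 * 7 ^ 3 * (40320 * 2 ^ 8)), by positivity, fun σ h hre => ?_⟩
  have hpi := Real.pi_gt_three
  have h0 : 0 < σ.im := by linarith
  set Y := σ.im with hY
  have hn : 1 ≤ ‖σ‖ := h.trans ((le_abs_self _).trans (Complex.abs_im_le_norm _))
  have hτ := cusp_im_pos h0
  have him : (1 - 1 / σ).im = Y / ‖σ‖ ^ 2 := by
    have e : 1 - 1 / σ = -1 / σ + 1 := by ring
    rw [e, add_im, im_neg_inv]; simp [hY]
  have hsq : ‖σ‖ ^ 2 = σ.re ^ 2 + Y ^ 2 := by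
    rw [← Complex.normSq_eq_norm_sq, Complex.normSq_apply]; ring
  have hre2 : σ.re ^ 2 ≤ 1 / 4 := by
    have := sq_abs σ.re
    nlinarith [abs_nonneg σ.re]
  have hinv : 1 / (1 - 1 / σ).im ≤ 2 * Y := by
    rw [him, one_div_div, div_le_iff₀ h0, hsq]; nlinarith
  have hnt : ‖1 - 1 / σ‖ ≤ 2 := by
    refine (norm_sub_le _ _).trans ?_
    rw [norm_one, norm_div, norm_one]
    have : 1 / ‖σ‖ ≤ 1 := by rw [div_le_one (by linarith)]; exact hn
    linarith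
  have h1 : ‖Φ (1 - 1 / σ)‖ ≤ C * ((3 * Y) ^ 5 * (7 * Y) ^ 3) := by
    refine (hb _ hτ).trans ?_
    have a : 1 + 1 / (1 - 1 / σ).im ≤ 3 * Y := by linarith
    have b : 1 + (1 + ‖1 - 1 / σ‖) / (1 - 1 / σ).im ≤ 7 * Y := by
      have : (1 + ‖1 - 1 / σ‖) / (1 - 1 / σ).im ≤ 3 * (1 / (1 - 1 / σ).im) := by
        rw [mul_one_div]; gcongr; linarith
      linarith
    gcongr
  have hrt : 1 ≤ ‖rt σ‖ := by rw [norm_rt_eq]; exact Real.one_le_sqrt.mpr hn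
  have h2 : rexp (-(π * Y / 4)) ≤ ‖jacobiTheta (1 - 1 / σ)‖ := by
    rw [th_cusp h0, norm_mul]
    exact (th2_lower (by linarith)).trans (le_mul_of_one_le_left (norm_nonneg _) hrt)
  have h3 : Y ^ 8 ≤ 40320 * 2 ^ 8 * rexp (π / 4 * Y) := by
    have b := Real.pow_div_factorial_le_exp (Y / 2) (by positivity) 8
    have c : rexp (Y / 2) ≤ rexp (π / 4 * Y) := by
      apply Real.exp_le_exp.mpr; nlinarith
    norm_num [Nat.factorial] at b
    rw [div_pow, div_div, div_le_iff₀ (by norm_num)] at b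
    nlinarith
  rw [norm_div, norm_div, norm_pow]
  refine (div_le_self (by positivity) hrt).trans ?_
  have h4 : 0 < rexp (-(π * Y / 4)) := Real.exp_pos _
  calc _ ≤ C * ((3 * Y) ^ 5 * (7 * Y) ^ 3) / rexp (-(π * Y / 4)) ^ 5 := by gcongr
    _ = C * (3 ^ 5 * 7 ^ 3 * Y ^ 8) * rexp (5 * π / 4 * Y) := by
      rw [← Real.exp_nat_mul, div_eq_mul_inv, ← Real.exp_neg]
      congr 1
      · ring
      · congr 1; push_cast; ring
    _ ≤ C * (3 ^ 5 * 7 ^ 3 * (40320 * 2 ^ 8 * rexp (π / 4 * Y))) * rexp (5 * π / 4 * Y) := by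
      gcongr
    _ = _ := by
      have : rexp (3 * π / 2 * Y) = rexp (π / 4 * Y) * rexp (5 * π / 4 * Y) := by
        rw [← Real.exp_add]; congr 1; ring
      rw [this]; ring

noncomputable def Fc (τ : ℂ) : ℂ := E2 τ / jacobiTheta τ ^ 3

lemma Fc_diff {τ : ℂ} (h : 0 < τ.im) : DifferentiableAt ℂ Fc τ :=
  (diff_E2 h).div ((differentiableAt_jacobiTheta h).pow 3) (pow_ne_zero _ (th_ne h))

lemma Fc_per (τ : ℂ) : Fc (τ + 2) = Fc τ := by
  unfold Fc; rw [E2_add_two, th_add_two]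

lemma Fc_fe {τ : ℂ} (h : 0 < τ.im) : rt τ * Fc τ + Fc (-1 / τ) = 0 := by
  unfold Fc
  rw [E2_S h, th_S h]
  have h2 := th_ne h
  have h3 := rt_ne (ne_zero_of_im h)
  field_simp
  ring

lemma Fc_cusp {σ : ℂ} (h : 0 < σ.im) : Fc (1 - 1 / σ) / rt σ =
    (jacobiTheta σ ^ 4 + jacobiTheta (σ + 1) ^ 4) / th2 σ ^ 3 := by
  unfold Fc
  rw [E2_cusp h, th_cusp h]
  have h2 := th2_ne h
  have h3 := rt_ne (ne_zero_of_im h)
  field_simp

lemma Fc_bound {τ : ℂ} (h : 1 ≤ τ.im) : ‖Fc τ‖ ≤ 60 / (1 / 3) ^ 3 := by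
  unfold Fc
  rw [norm_div, norm_pow]
  have h1 := E2_bound (τ := τ) (by linarith)
  have h2 := th_lower (τ := τ) (by linarith)
  gcongr

lemma mu_neg : cexp ((2 * π * (1 / 8 : ℝ) : ℝ) * I) = -(-1) * zeta := by
  unfold zeta
  rw [neg_neg, one_mul]
  congr 1; push_cast; ring

lemma mu_pos : cexp ((2 * π * (-(3 / 8) : ℝ) : ℝ) * I) = -1 * zeta := by
  unfold zeta
  have : ((2 * π * (-(3 / 8) : ℝ) : ℝ) : ℂ) * I = π * I / 4 - π * I := by push_cast; ring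
  rw [this, Complex.exp_sub, Complex.exp_pi_mul_I]
  ring

lemma Fc_main : ∃ (p0 : ℂ) (C' Y1 : ℝ), p0 ≠ 0 ∧ 1 ≤ Y1 ∧ ∀ σ : ℂ, Y1 ≤ σ.im →
      ‖Fc (1 - 1 / σ) / rt σ - p0 * cexp ((2 * π * (-(3 / 8) : ℝ) : ℝ) * I * σ)‖ ≤
        C' * σ.im ^ (-(1 / 4 : ℝ)) := by
  have hpi := Real.pi_gt_three
  obtain ⟨p0, C', Y1, h1, h2⟩ := cusp_main (fun σ => Fc (1 - 1 / σ) / rt σ) (fun _ => 0)
    (-(3 / 8)) (by norm_num) (by norm_num) 1 0 le_rfl (fun _ _ => by fun_prop)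
    (fun _ _ => by simp) (fun σ h => diff_cusp (fun τ => Fc_diff) (by linarith))
    (by
      intro σ h
      have := cusp_rec (F := Fc) (ψ := fun _ => 0) (ε := 1) Fc_per
        (fun τ hτ => by simpa using Fc_fe hτ) (σ := σ) (by linarith)
      rw [mu_pos]
      simpa using this)
    16 (by
      intro σ h _
      rw [Fc_cusp (by linarith), norm_div, norm_pow]
      have a := th_upper (τ := σ) (by linarith)
      have b := th_upper (τ := σ + 1) (by simp; linarith)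
      have c : ‖jacobiTheta σ ^ 4 + jacobiTheta (σ + 1) ^ 4‖ ≤ 16 := by
        refine (norm_add_le _ _).trans ?_
        rw [norm_pow, norm_pow]
        have a' := pow_le_pow_left₀ (norm_nonneg _) a 4
        have b' := pow_le_pow_left₀ (norm_nonneg _) b 4
        norm_num at a' b'
        linarith
      have d := th2_lower (σ := σ) (by linarith)
      have e := Real.exp_pos (-(π * σ.im / 4))
      calc _ ≤ 16 / rexp (-(π * σ.im / 4)) ^ 3 := by gcongr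
        _ ≤ _ := by
          rw [← Real.exp_nat_mul, div_eq_mul_inv, ← Real.exp_neg]
          gcongr
          push_cast
          nlinarith)
  refine ⟨p0, C', Y1, ?_, h1, h2⟩
  rintro rfl
  have t1 : Tendsto jacobiTheta (comap Complex.im atTop) (𝓝 1) := by
    rw [← tendsto_sub_nhds_zero_iff]
    refine isBigO_at_im_infty_jacobiTheta_sub_one.trans_tendsto ?_
    have := (Real.tendsto_exp_neg_atTop_nhds_zero.comp
      (tendsto_id.const_mul_atTop Real.pi_pos)).comp (tendsto_comap (f := Complex.im))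
    refine this.congr fun z => ?_
    simp
  have t2 : Tendsto (fun σ : ℂ => jacobiTheta (σ + 1)) (comap Complex.im atTop) (𝓝 1) := by
    refine t1.comp ?_
    rw [tendsto_comap_iff]
    refine (tendsto_comap (f := Complex.im)).congr fun z => ?_
    simp
  have t3 := (t1.pow 4).add (t2.pow 4)
  have t4 : Tendsto (fun σ : ℂ => jacobiTheta σ ^ 4 + jacobiTheta (σ + 1) ^ 4)
      (comap Complex.im atTop) (𝓝 0) := by
    have hlim : Tendsto (fun z : ℂ => |C'| * (rexp (-(π / 4 * z.im)) * (8 / 3)) ^ 3)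
        (comap Complex.im atTop) (𝓝 0) := by
      have := ((((Real.tendsto_exp_neg_atTop_nhds_zero.comp
          (tendsto_id.const_mul_atTop (by positivity : 0 < π / 4))).mul_const (8 / 3)).pow 3).const_mul
          |C'|).comp (tendsto_comap (f := Complex.im))
      simpa [Function.comp_def] using this
    refine squeeze_zero_norm' ((ev_iff _).mpr ⟨Y1, fun σ hσ => ?_⟩) hlim
    have h0 : 0 < σ.im := by linarith
    have a := h2 σ hσ
    rw [zero_mul, sub_zero, Fc_cusp h0, norm_div, norm_pow,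
      div_le_iff₀ (pow_pos (norm_pos_iff.mpr (th2_ne h0)) 3)] at a
    refine a.trans ?_
    have h4 : σ.im ^ (-(1 / 4 : ℝ)) ≤ 1 :=
      Real.rpow_le_one_of_one_le_of_nonpos (by linarith) (by norm_num)
    have h5 : C' * σ.im ^ (-(1 / 4 : ℝ)) ≤ |C'| :=
      (mul_le_mul_of_nonneg_right (le_abs_self _) (by positivity)).trans
        (mul_le_of_le_one_right (abs_nonneg _) h4)
    have h6 : ‖th2 σ‖ ≤ rexp (-(π / 4 * σ.im)) * (8 / 3) := by
      rw [norm_th2]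
      have := p2_upper (σ := σ) (by linarith)
      have e : π * σ.im / 4 = π / 4 * σ.im := by ring
      rw [e]; gcongr
    gcongr
  have : (comap Complex.im atTop).NeBot := by
    apply Filter.comap_neBot
    intro t ht
    obtain ⟨y, hy⟩ := Filter.nonempty_of_mem ht
    exact ⟨y * I, by simpa using hy⟩
  have := tendsto_nhds_unique t3 t4
  norm_num at this

theorem exists_F1 {φ : ℂ → ℂ} {ε : ℂ} {K : ℝ} (S : Seed φ ε K) :
    ∃ F : ℂ → ℂ, (∀ τ : ℂ, 0 < τ.im → DifferentiableAt ℂ F τ) ∧ (∀ τ : ℂ, F (τ + 2) = F τ) ∧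
      (∀ τ : ℂ, 0 < τ.im → rt τ * F τ + ε * F (-1 / τ) = rt τ * psi φ ε τ) ∧
      (∃ M, ∀ τ : ℂ, 1 ≤ τ.im → |τ.re| ≤ 1 → ‖F τ‖ ≤ M) ∧
      ∃ C Y1 : ℝ, 1 ≤ Y1 ∧ ∀ σ : ℂ, Y1 ≤ σ.im →
        ‖F (1 - 1 / σ) / rt σ‖ ≤ C * σ.im ^ (-(1 / 4 : ℝ)) := by
  have hpi := Real.pi_gt_three
  obtain ⟨Φ, p1, p2, p3, C, hC, p4⟩ := exists_F0 S
  set F0 : ℂ → ℂ := fun τ => Φ τ / jacobiTheta τ ^ 5 with hF0
  have d0 : ∀ τ : ℂ, 0 < τ.im → DifferentiableAt ℂ F0 τ := fun τ h =>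
    (p1 τ h).div ((differentiableAt_jacobiTheta h).pow 5) (pow_ne_zero _ (th_ne h))
  have per0 : ∀ τ : ℂ, F0 (τ + 2) = F0 τ := fun τ => by simp only [hF0, p2, th_add_two]
  have bd0 : ∀ τ : ℂ, 1 ≤ τ.im → |τ.re| ≤ 1 → ‖F0 τ‖ ≤ C * (2 ^ 5 * 4 ^ 3) / (1 / 3) ^ 5 := by
    intro τ h hre
    have h0 : 0 < τ.im := by linarith
    simp only [hF0]
    rw [norm_div, norm_pow]
    have h2 := th_lower (τ := τ) (by linarith)
    have h3 : ‖Φ τ‖ ≤ C * (2 ^ 5 * 4 ^ 3) := by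
      refine (p4 τ h0).trans ?_
      have a : 1 + 1 / τ.im ≤ 2 := by
        have : 1 / τ.im ≤ 1 := by rw [div_le_one h0]; exact h
        linarith
      have b : 1 + (1 + ‖τ‖) / τ.im ≤ 4 := by
        have h4 := Complex.norm_le_abs_re_add_abs_im τ
        rw [abs_of_pos h0] at h4
        have : (1 + ‖τ‖) / τ.im ≤ 3 := by rw [div_le_iff₀ h0]; linarith
        linarith
      gcongr
    gcongr
  obtain ⟨Y0, Cr, hY0, hr⟩ := S.r_bound
  obtain ⟨C2, hC2, hgr⟩ := growth0 hC p4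
  have main : ∀ α : ℝ, -(1 / 2) ≤ α → α ≤ 1 / 8 → cexp ((2 * π * α : ℝ) * I) = -ε * zeta →
      ∃ (p0 : ℂ) (C' Y1 : ℝ), 1 ≤ Y1 ∧ ∀ σ : ℂ, Y1 ≤ σ.im →
      ‖F0 (1 - 1 / σ) / rt σ - p0 * cexp ((2 * π * α : ℝ) * I * σ)‖ ≤
        C' * σ.im ^ (-(1 / 4 : ℝ)) := by
    intro α h1 h2 h3
    refine cusp_main (fun σ => F0 (1 - 1 / σ) / rt σ) (fun σ => psi φ ε (1 - 1 / σ) / rt σ) α h1
      (by linarith) Y0 Cr hY0
      (fun σ h => diff_cusp (fun τ hτ => S.diff_psi (Or.inl hτ)) (by linarith)) hr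
      (fun σ h => diff_cusp d0 (by linarith)) ?_ C2 ?_
    · intro σ h
      rw [h3]
      exact cusp_rec per0 p3 (by linarith)
    · intro σ h hre
      refine (hgr σ (by linarith) hre).trans ?_
      gcongr
      · linarith
      · nlinarith
  rcases S.eps with he | he
  · obtain ⟨p0, C', Y1, hY1, hp⟩ := main (-(3 / 8)) (by norm_num) (by norm_num)
      (by rw [mu_pos, he])
    obtain ⟨q0, Cq, Yq, hq0, hYq, hq⟩ := Fc_main
    refine ⟨fun τ => F0 τ - p0 / q0 * Fc τ, fun τ h => (d0 τ h).sub ((Fc_diff h).const_mul _),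
      fun τ => by simp only [per0, Fc_per], fun τ h => ?_,
      ⟨C * (2 ^ 5 * 4 ^ 3) / (1 / 3) ^ 5 + ‖p0 / q0‖ * (60 / (1 / 3) ^ 3), fun τ h hre => ?_⟩,
      C' + ‖p0 / q0‖ * Cq, max Y1 Yq, le_max_of_le_left hY1, fun σ hσ => ?_⟩
    · have a := p3 τ h
      have b := Fc_fe h
      simp only [hF0]
      rw [he] at a ⊢
      linear_combination a - p0 / q0 * b
    · refine (norm_sub_le _ _).trans (add_le_add (bd0 τ h hre) ?_)
      rw [norm_mul]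
      gcongr
      exact Fc_bound h
    · have a := hp σ ((le_max_left _ _).trans hσ)
      have b := hq σ ((le_max_right _ _).trans hσ)
      set e := cexp ((2 * π * (-(3 / 8) : ℝ) : ℝ) * I * σ)
      have c : (F0 (1 - 1 / σ) - p0 / q0 * Fc (1 - 1 / σ)) / rt σ =
          (F0 (1 - 1 / σ) / rt σ - p0 * e) - p0 / q0 * (Fc (1 - 1 / σ) / rt σ - q0 * e) := by
        have : p0 / q0 * q0 = p0 := div_mul_cancel₀ _ hq0
        linear_combination (-e) * this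
      simp only
      rw [c]
      refine (norm_sub_le _ _).trans ?_
      rw [add_mul, norm_mul, mul_assoc]
      gcongr
  · obtain ⟨p0, C', Y1, hY1, hp⟩ := main (1 / 8) (by norm_num) (by norm_num)
      (by rw [mu_neg, he])
    refine ⟨F0, d0, per0, p3, ⟨_, bd0⟩, C' + ‖p0‖, Y1, hY1, fun σ hσ => ?_⟩
    have a := hp σ hσ
    have b := norm_sub_norm_le (F0 (1 - 1 / σ) / rt σ) (p0 * cexp ((2 * π * (1 / 8 : ℝ) : ℝ) * I * σ))
    have h0 : 0 < σ.im := by linarith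
    have c : ‖p0 * cexp ((2 * π * (1 / 8 : ℝ) : ℝ) * I * σ)‖ ≤ ‖p0‖ * σ.im ^ (-(1 / 4 : ℝ)) := by
      rw [norm_mul, norm_exp_I_mul, Real.rpow_def_of_pos h0]
      gcongr
      have h8 := Real.log_le_sub_one_of_pos h0
      nlinarith
    rw [add_mul]
    linarith

end Pool.Agent.H989Z.FU
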