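import Pool.Agent.H989Z.FU.Build2

set_option autoImplicit false
open Complex Filter Topology
open scoped Real

namespace Pool.Agent.H989Z.FU

lemma Seed.omega_bound {φ : ℂ → ℂ} {ε : ℂ} {K : ℝ} (S : Seed φ ε K) :
    ∃ A : ℝ, 0 ≤ A ∧ ∀ τ : ℂ, 0 < τ.im → ‖τ‖ ≤ 1 → ‖rt τ * psi φ ε τ‖ ≤ A * ‖1 - τ ^ 2‖ := by
  have hK := S.K_nonneg
  obtain ⟨C1, δ1, hC1, hδ1, hδ1', h1⟩ :=
    near_zero (S.diff_psi (τ := 1) (Or.inr (by simp))) S.psi_one
  obtain ⟨C2, δ2, hC2, hδ2, hδ2', h2⟩ :=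
    near_zero (S.diff_psi (τ := -1) (Or.inr (by simp))) S.psi_neg_one
  refine ⟨C1 + C2 + 2 * K / (δ1 * δ2), by positivity, fun τ h hn => ?_⟩
  have hn0 : 0 < ‖τ‖ := norm_pos_iff.mpr (ne_zero_of_im h)
  have hrt : ‖rt τ‖ ≤ 1 := by rw [norm_rt_eq]; exact Real.sqrt_le_one.mpr hn
  have e : ‖1 - τ ^ 2‖ = ‖τ - 1‖ * ‖τ - -1‖ := by
    rw [← norm_mul, ← norm_neg]; congr 1; ring
  have tri : 2 ≤ ‖τ - 1‖ + ‖τ - -1‖ := by
    have := norm_sub_le (τ - -1) (τ - 1)
    have e : τ - -1 - (τ - 1) = 2 := by ring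
    rw [e, Complex.norm_two] at this
    linarith
  have n1 := norm_nonneg (τ - 1)
  have n2 := norm_nonneg (τ - -1)
  have n3 : 0 ≤ 2 * K / (δ1 * δ2) := by positivity
  have hle : ‖rt τ * psi φ ε τ‖ ≤ ‖psi φ ε τ‖ := by
    rw [norm_mul]; exact mul_le_of_le_one_left (norm_nonneg _) hrt
  rw [e]
  by_cases c1 : ‖τ - 1‖ < δ1
  · refine hle.trans ((h1 τ c1).trans ?_)
    have : ‖τ - 1‖ ≤ ‖τ - 1‖ * ‖τ - -1‖ := le_mul_of_one_le_right n1 (by linarith)
    gcongr; linarith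
  by_cases c2 : ‖τ - -1‖ < δ2
  · refine hle.trans ((h2 τ c2).trans ?_)
    have : ‖τ - -1‖ ≤ ‖τ - 1‖ * ‖τ - -1‖ := le_mul_of_one_le_left n2 (by linarith)
    gcongr; linarith
  push Not at c1 c2
  have h3 : ‖rt τ * psi φ ε τ‖ ≤ 2 * K := by
    rw [norm_mul]
    refine (mul_le_mul_of_nonneg_left (S.norm_psi h) (norm_nonneg _)).trans ?_
    rw [norm_rt_eq] at hrt ⊢
    have h4 : 0 < √‖τ‖ := Real.sqrt_pos.mpr hn0
    rw [mul_add, mul_div_cancel₀ _ h4.ne']
    nlinarith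
  refine h3.trans ?_
  have h5 : δ1 * δ2 ≤ ‖τ - 1‖ * ‖τ - -1‖ := by gcongr
  calc 2 * K = 2 * K / (δ1 * δ2) * (δ1 * δ2) := by field_simp
    _ ≤ _ := by gcongr; linarith

noncomputable def q4 (y : ℝ) : ℝ := √(√y)

lemma q4_pos {y : ℝ} (h : 0 < y) : 0 < q4 y := Real.sqrt_pos.mpr (Real.sqrt_pos.mpr h)

lemma q4_div {y N : ℝ} (hy : 0 ≤ y) (hN : 0 < N) : q4 (y / N ^ 2) * √N = q4 y := by
  unfold q4
  rw [Real.sqrt_div hy, Real.sqrt_sq hN.le, Real.sqrt_div (Real.sqrt_nonneg _)]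
  have := Real.sqrt_pos.mpr hN
  field_simp

lemma q4_le_one {y : ℝ} (h : y ≤ 1) : q4 y ≤ 1 := Real.sqrt_le_one.mpr (Real.sqrt_le_one.mpr h)

lemma q4_rpow {y : ℝ} (h : 0 < y) : y ^ (-(1 / 4 : ℝ)) = 1 / q4 y := by
  unfold q4
  rw [Real.sqrt_eq_rpow, Real.sqrt_eq_rpow, ← Real.rpow_mul h.le, Real.rpow_neg h.le, one_div]
  norm_num

lemma q4_sq {y : ℝ} : q4 y ^ 2 = √y := Real.sq_sqrt (Real.sqrt_nonneg _)

theorem exists_F {φ : ℂ → ℂ} {ε : ℂ} {K : ℝ} (S : Seed φ ε K) :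
    ∃ F : ℂ → ℂ, (∀ τ : ℂ, 0 < τ.im → DifferentiableAt ℂ F τ) ∧ (∀ τ : ℂ, F (τ + 2) = F τ) ∧
      (∀ τ : ℂ, 0 < τ.im → F τ + ε * F (-1 / τ) / rt τ = psi φ ε τ) ∧
      ∃ B : ℝ, 0 ≤ B ∧ ∀ τ : ℂ, 0 < τ.im →
        ‖F τ‖ ^ 2 ≤ B * (1 / √τ.im + ‖jacobiTheta τ‖ ^ 2) := by
  obtain ⟨F, f1, f2, f3, ⟨M1, f4⟩, C, Y1, hY1, f5⟩ := exists_F1 S
  obtain ⟨A', hA', hA⟩ := S.omega_bound
  have hM1 : 0 ≤ M1 := (norm_nonneg _).trans (f4 I (by simp) (by simp))
  set y0 : ℝ := 1 / (8 * Y1) with hy0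
  have hy0pos : 0 < y0 := by positivity
  have hy0le : y0 ≤ 1 / 2 := by
    apply one_div_le_one_div_of_le (by norm_num); linarith
  obtain ⟨M2, hM2⟩ : ∃ M2, ∀ τ ∈ Set.Icc (-1 : ℝ) 1 ×ℂ Set.Icc y0 1, ‖F τ‖ ≤ M2 := by
    apply IsCompact.exists_bound_of_continuousOn (isCompact_Icc.reProdIm isCompact_Icc)
    intro τ hτ
    exact (f1 τ (hy0pos.trans_le hτ.2.1)).continuousAt.continuousWithinAt
  have hM20 : 0 ≤ M2 := (norm_nonneg _).trans (hM2 I ⟨by simp, by simp; linarith⟩)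
  have horo : ∀ τ : ℂ, 0 < τ.im → Y1 ≤ τ.im / ‖1 - τ‖ ^ 2 → q4 τ.im * ‖F τ‖ ≤ |C| := by
    intro τ h hY
    have h1 := one_sub_ne h
    have hN : 0 < ‖1 - τ‖ := norm_pos_iff.mpr h1
    obtain ⟨e1, e2⟩ := cusp_coord τ
    have a := f5 (1 / (1 - τ)) (by rw [e2]; exact hY)
    rw [← e1, e2, q4_rpow (by positivity), norm_div, norm_rt_eq, norm_div, norm_one,
      Real.sqrt_div zero_le_one, Real.sqrt_one, div_div_eq_mul_div, div_one, mul_one_div,
      le_div_iff₀ (q4_pos (by positivity))] at a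
    rw [← q4_div h.le hN]
    calc _ = ‖F τ‖ * √‖1 - τ‖ * q4 (τ.im / ‖1 - τ‖ ^ 2) := by ring
      _ ≤ _ := a.trans (le_abs_self _)
  set A := 8 * A' with hAdef
  have hA0 : 0 ≤ A := by positivity
  set B := 3 * (M1 + A) + (M2 + |C|) with hB
  have hC0 := abs_nonneg C
  have hB0 : 0 ≤ B := by positivity
  have key := reduce (fun τ => q4 τ.im * (‖F τ‖ + A) ≤ B * (1 + q4 τ.im * ‖jacobiTheta τ‖))
    (by intro τ _; simp only [f2, th_add_two, add_im, im_ofNat, add_zero])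
    (by
      intro τ h hre hb
      have hq := q4_pos h
      have hθ := norm_nonneg (jacobiTheta τ)
      have hqθ : 0 ≤ q4 τ.im * ‖jacobiTheta τ‖ := by positivity
      rcases le_total 1 τ.im with hy | hy
      · have a := f4 τ hy hre
        have b := th_lower (τ := τ) (by linarith)
        calc _ ≤ q4 τ.im * (M1 + A) := by gcongr
          _ = 3 * (M1 + A) * (q4 τ.im * (1 / 3)) := by ring
          _ ≤ B * (1 + q4 τ.im * ‖jacobiTheta τ‖) := by
            apply mul_le_mul (by linarith) _ (by positivity) hB0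
            have : q4 τ.im * (1 / 3) ≤ q4 τ.im * ‖jacobiTheta τ‖ := by gcongr
            linarith
      · have hq1 := q4_le_one hy
        have hmain : q4 τ.im * ‖F τ‖ ≤ M2 + |C| := by
          rcases le_total y0 τ.im with hy' | hy'
          · have := hM2 τ ⟨abs_le.mp hre, hy', hy⟩
            have : q4 τ.im * ‖F τ‖ ≤ 1 * M2 := by gcongr
            linarith
          · have hYY : Y1 ≤ 1 / (8 * τ.im) := by
              rw [hy0, le_div_iff₀ (by positivity)] at hy'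
              rw [le_div_iff₀ (by positivity)]; linarith
            rcases le_total 0 τ.re with h0 | h0
            · have a := cusp_height h h0 (abs_le.mp hre).2 hb (by linarith)
              rw [(cusp_coord τ).2] at a
              linarith [horo τ h (hYY.trans a)]
            · have a := cusp_height (τ := -(starRingEnd ℂ) τ) (by simpa using h) (by simpa using h0)
                (by simp; linarith [(abs_le.mp hre).1]) (by simpa using hb) (by simp; linarith)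
              rw [(cusp_coord _).2] at a
              have e1 : ‖1 - -(starRingEnd ℂ) τ‖ = ‖1 - (τ + 2)‖ := by
                rw [← Complex.norm_conj, ← norm_neg]; congr 1; simp; ring
              have e2 : (-(starRingEnd ℂ) τ).im = τ.im := by simp
              rw [e1, e2] at a
              have b := horo (τ + 2) (by simpa using h) (by simpa using hYY.trans a)
              rw [f2] at b
              simp only [add_im, im_ofNat, add_zero] at b
              linarith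
        have h2 : q4 τ.im * A ≤ A := mul_le_of_le_one_left hA0 hq1
        have h3 : B ≤ B * (1 + q4 τ.im * ‖jacobiTheta τ‖) :=
          le_mul_of_one_le_right hB0 (by linarith)
        rw [mul_add]
        linarith)
    (by
      intro τ h hL ih
      have h0 := ne_zero_of_im h
      have hN : 0 < ‖τ‖ := norm_pos_iff.mpr h0
      have hn1 : ‖τ‖ ≤ 1 := by nlinarith
      rw [im_neg_inv, th_S h, norm_mul, norm_rt_eq, ← mul_assoc (q4 _), q4_div h.le hN] at ih
      refine le_trans ?_ ih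
      rw [← q4_div h.le hN, mul_assoc]
      apply mul_le_mul_of_nonneg_left _ (q4_pos (by positivity)).le
      have a : √‖τ‖ * ‖F τ‖ ≤ ‖rt τ * psi φ ε τ‖ + ‖F (-1 / τ)‖ := by
        rw [← norm_rt_eq, ← norm_mul, ← f3 τ h]
        have := norm_sub_le (rt τ * F τ + ε * F (-1 / τ)) (ε * F (-1 / τ))
        rw [add_sub_cancel_right, norm_mul ε, S.norm_eps, one_mul] at this
        exact this
      have b : ‖1 - τ ^ 2‖ ≤ 2 * (1 - ‖τ‖ ^ 2) := by
        have e : 1 - τ ^ 2 = ((1 - ‖τ‖ ^ 2 : ℝ) : ℂ) - 2 * τ.im * (τ * I) := by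
          have : ((‖τ‖ ^ 2 : ℝ) : ℂ) = τ * (starRingEnd ℂ) τ := by
            rw [Complex.mul_conj, Complex.normSq_eq_norm_sq]
          rw [ofReal_sub, this]
          have e2 := Complex.sub_conj τ
          push_cast at e2 ⊢
          linear_combination (-τ) * e2
        rw [e]
        refine (norm_sub_le _ _).trans ?_
        rw [Complex.norm_real, Real.norm_eq_abs, abs_of_nonneg (by linarith)]
        have : ‖2 * (τ.im : ℂ) * (τ * I)‖ = 2 * τ.im * ‖τ‖ := by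
          simp [abs_of_pos h]
        rw [this]
        nlinarith
      have c : 1 - ‖τ‖ ^ 2 ≤ 4 * (1 - √‖τ‖) := by
        have s1 := Real.sq_sqrt hN.le
        have s2 : √‖τ‖ ≤ 1 := Real.sqrt_le_one.mpr hn1
        have s3 := Real.sqrt_nonneg ‖τ‖
        set s := √‖τ‖
        rw [← s1]
        have : 0 ≤ (1 - s) * (3 - s - s ^ 2 - s ^ 3) := by
          apply mul_nonneg (by linarith)
          have : s ^ 2 ≤ 1 := pow_le_one₀ s3 s2
          have : s ^ 3 ≤ 1 := pow_le_one₀ s3 s2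
          linarith
        nlinarith
      have d := hA τ h hn1
      have e : A' * ‖1 - τ ^ 2‖ ≤ A' * (8 * (1 - √‖τ‖)) := by gcongr; linarith
      rw [mul_add, hAdef]
      linarith)
  refine ⟨F, f1, f2, fun τ h => ?_, 2 * B ^ 2, by positivity, fun τ h => ?_⟩
  · have h1 := f3 τ h
    have h3 := rt_ne (ne_zero_of_im h)
    generalize F (-1 / τ) = X at h1 ⊢
    field_simp
    linear_combination h1
  · have h1 := key τ h
    have hq := q4_pos h
    have h2 : ‖F τ‖ ≤ B * (1 / q4 τ.im + ‖jacobiTheta τ‖) := by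
      have : q4 τ.im * ‖F τ‖ ≤ q4 τ.im * (B * (1 / q4 τ.im + ‖jacobiTheta τ‖)) := by
        have e : q4 τ.im * (B * (1 / q4 τ.im + ‖jacobiTheta τ‖)) =
            B * (1 + q4 τ.im * ‖jacobiTheta τ‖) := by field_simp
        rw [e]
        refine le_trans ?_ h1
        gcongr; linarith
      exact le_of_mul_le_mul_left this hq
    have h3 := pow_le_pow_left₀ (norm_nonneg _) h2 2
    refine h3.trans ?_
    rw [← q4_sq, ← one_div_pow, mul_pow]
    nlinarith [sq_nonneg (1 / q4 τ.im - ‖jacobiTheta τ‖), sq_nonneg B]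

lemma exists_seed (x : ℝ) {ε : ℂ} (hε : ε = 1 ∨ ε = -1) :
    ∃ a : ℂ, Seed (fun τ => cexp (π * I * τ * x ^ 2) - a) ε (1 + ‖a‖) := by
  have hε2 : ε ^ 2 = 1 := by rcases hε with h | h <;> simp [h]
  have h1 := rt_sq 1
  have hne : rt 1 + ε ≠ 0 := by
    intro h
    have : rt 1 = -ε := by linear_combination h
    rw [this, neg_sq, hε2] at h1
    have := congrArg Complex.re h1
    simp at this
  have hm : rt 1 * rt (-1) = 1 := by
    unfold rt
    have e1 : (-I * 1 : ℂ) = I⁻¹ := by simp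
    have e2 : (-I * -1 : ℂ) = I := by simp
    rw [e1, e2, Complex.inv_cpow _ _ (by rw [Complex.arg_I]; linarith [Real.pi_pos])]
    apply inv_mul_cancel₀
    rw [Ne, cpow_eq_zero_iff]
    simp
  set u := cexp (π * I * 1 * x ^ 2)
  set v := cexp (π * I * (-1) * x ^ 2)
  have z1 : rt 1 * (u - (rt 1 * u + ε * v) / (rt 1 + ε)) +
      ε * (v - (rt 1 * u + ε * v) / (rt 1 + ε)) = 0 := by
    field_simp; ring
  refine ⟨(rt 1 * u + ε * v) / (rt 1 + ε), hε, by fun_prop, fun τ h => ?_, z1, ?_⟩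
  · refine (norm_sub_le _ _).trans (add_le_add ?_ le_rfl)
    have : (π * I * τ * x ^ 2 : ℂ) = ((π * x ^ 2 : ℝ) : ℂ) * I * τ := by push_cast; ring
    rw [this, norm_exp_I_mul, Real.exp_le_one_iff]
    have : 0 ≤ π * x ^ 2 * τ.im := by have := Real.pi_pos; positivity
    linarith
  · change rt (-1) * (v - _) + ε * (u - _) = 0
    set a := (rt 1 * u + ε * v) / (rt 1 + ε)
    linear_combination (ε * rt (-1)) * z1 - (ε * (u - a)) * hm - (rt (-1) * (v - a)) * hε2

end Pool.Agent.H989Z.FU
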