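import Pool.Agent.H989Z.FU.Rep2

set_option autoImplicit false
open Complex Filter Topology MeasureTheory FourierTransform
open scoped Real ENNReal

namespace Pool.Agent.H989Z.FU

noncomputable def rr (f : ℝ → ℂ) (τ : ℂ) : ℂ := PP f (-(starRingEnd ℂ) τ) / ((√τ.im : ℝ) : ℂ)

lemma meas_rr {f : ℝ → ℂ} (hc : Continuous f) : Measurable (rr f) := by
  have mP := meas_PP hc
  have : Measurable fun τ : ℂ => -(starRingEnd ℂ) τ := Complex.continuous_conj.neg.measurable
  unfold rr
  fun_prop

lemma Nu_add {Φ Ψ Θ : ℂ → ℂ} (hm : Measurable Φ) (h1 : Nu Φ ≠ ∞) (h2 : Nu Ψ ≠ ∞)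
    (h : ∀ z ∈ H, ‖Θ z‖ ≤ ‖Φ z‖ + ‖Ψ z‖) : Nu Θ ≠ ∞ := by
  refine ne_top_of_le_ne_top (ENNReal.mul_ne_top (ENNReal.ofReal_ne_top (r := 2))
    (ENNReal.add_ne_top.mpr ⟨h1, h2⟩)) ?_
  unfold Nu
  rw [← lintegral_add_left (by fun_prop), ← lintegral_const_mul' _ _ ENNReal.ofReal_ne_top]
  refine setLIntegral_mono' measH fun z hz => ?_
  rw [← ENNReal.ofReal_add (by positivity) (by positivity), ← ENNReal.ofReal_mul (by positivity),
    ← add_div, ← mul_div_assoc]
  apply ENNReal.ofReal_le_ofReal
  gcongr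
  refine (pow_le_pow_left₀ (norm_nonneg _) (h z hz) 2).trans ?_
  nlinarith [sq_nonneg (‖Φ z‖ - ‖Ψ z‖)]

lemma B1 {f : ℝ → ℂ} (hc : Continuous f) (hf : Integrable f) (hgc : Continuous (𝓕 f))
    (hg : Integrable (𝓕 f)) (h0 : ∫ x, 𝓕 f x = 0) (n1 : Nu (PP f) ≠ ∞)
    (n2 : Nu (PP (𝓕 f)) ≠ ∞) :
    Integrable (fun z => ‖rr f z‖ ^ 2 / wg z) (volume.restrict H) := by
  have mr := meas_rr hc
  have mw := meas_wg
  have hpi := Real.pi_gt_three
  refine (lintegral_ofReal_ne_top_iff_integrable (Measurable.aestronglyMeasurable (by fun_prop))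
    ?_).mp ?_
  · filter_upwards [ae_H] with z hz
    exact div_nonneg (sq_nonneg _) (wg_pos hz).le
  have a1 : Nu (fun w => PP (𝓕 f) w + Ph (𝓕 f) w / w / (2 * π * I)) ≠ ∞ := by
    refine Nu_add (meas_PP hgc) n2 (hardy hgc hg h0 n2) fun z _ => ?_
    refine (norm_add_le _ _).trans (add_le_add le_rfl ?_)
    rw [norm_div]
    apply div_le_self (norm_nonneg _)
    rw [norm_mul, norm_mul, norm_I, Complex.norm_real, Real.norm_eq_abs, abs_of_pos Real.pi_pos]
    norm_num; linarith
  have a2 : Nu (fun z => PP f z * z) ≠ ∞ := by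
    have := Nu_S (PP f) (fun z => ‖z‖ ^ 2)
    unfold Nu at a1 ⊢
    simp only [norm_mul, mul_pow]
    rw [← this]
    refine ne_of_eq_of_ne (setLIntegral_congr_fun measH fun z hz => ?_) a1
    have h : 0 < z.im := hz
    have hN : 0 < ‖z‖ := norm_pos_iff.mpr (ne_zero_of_im h)
    congr 2
    rw [PP_S hf hg h, norm_mul, norm_mul, mul_pow, mul_pow, norm_rt_sq, norm_pow, norm_div,
      norm_neg, norm_one]
    field_simp
  have a3 : Nu (fun z => PP f z * (z + I)) ≠ ∞ := by
    refine Nu_add (meas_PP hc) n1 a2 fun z _ => ?_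
    rw [mul_add, add_comm]
    refine (norm_add_le _ _).trans (le_of_eq ?_)
    rw [norm_mul _ I, norm_I, mul_one]
  unfold Nu at a3
  rw [← cv_refl] at a3
  refine ne_of_eq_of_ne (setLIntegral_congr_fun measH fun z hz => ?_) a3
  have h : 0 < z.im := hz
  have hs := Real.sqrt_pos.mpr h
  have e1 : (-(starRingEnd ℂ) z).im = z.im := by simp
  have e2 : ‖-(starRingEnd ℂ) z + I‖ = ‖z + I‖ := by
    rw [← Complex.norm_conj (z + I), ← norm_neg]; simp [add_comm]
  congr 1
  unfold rr wg
  rw [e1, norm_mul, e2, norm_div, Complex.norm_real, Real.norm_eq_abs, abs_of_pos hs]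
  field_simp

lemma B2 {f : ℝ → ℂ} (hc : Continuous f) (hf : Integrable f) (he : ∀ x, f (-x) = f x)
    (h0 : f 0 = 0) (hr : Integrable (rr f) (volume.restrict H)) (x : ℝ) :
    ∫ z in H, rr f z * cexp (π * I * z * x ^ 2) = ((√2 : ℝ) : ℂ) * f x := by
  have hpi := Real.pi_pos
  have i1 : Integrable (fun z => rr f z * cexp (π * I * z * x ^ 2)) (volume.restrict H) := by
    refine hr.mul_bdd (c := 1) (Continuous.aestronglyMeasurable (by fun_prop)) ?_
    filter_upwards [ae_H] with z hz
    exact norm_gauss_le hz.le x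
  have ae := (integral_H hr).1
  rw [(integral_H i1).2]
  have rv : ∀ (t : ℝ) {y : ℝ}, 0 < y → rr f (t + y * I) = 𝓕 (AA f y) (t / 2) / ((√y : ℝ) : ℂ) := by
    intro t y hy
    have := PP_eq hf he (-t) hy
    rw [neg_neg] at this
    unfold rr
    rw [← this]
    congr 2
    · simp [add_comm]
    · simp
  have step : ∀ᵐ y : ℝ ∂(volume.restrict (Set.Ioi 0)),
      ∫ t : ℝ, rr f (t + y * I) * cexp (π * I * (t + y * I) * x ^ 2) =
        f x * ((2 * |x| * (rexp (-(2 * π * x ^ 2 * y)) / √y) : ℝ) : ℂ) := by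
    filter_upwards [ae, ae_restrict_mem measurableSet_Ioi] with y hy1 hy
    have hy0 : 0 < y := hy
    have hs : ((√y : ℝ) : ℂ) ≠ 0 := by exact_mod_cast (Real.sqrt_pos.mpr hy0).ne'
    simp only [rv _ hy0] at hy1 ⊢
    have j1 : Integrable (𝓕 (AA f y)) := by
      have := hy1.mul_const ((√y : ℝ) : ℂ)
      simp only [div_mul_cancel₀ _ hs] at this
      exact (integrable_comp_div_iff _ two_ne_zero).mp this
    have j2 := congrFun ((cont_AA hc y).fourierInv_fourier_eq (int_AA hf hy0) j1) (x ^ 2)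
    rw [fourierInv_eq'] at j2
    have j3 := Measure.integral_comp_div
      (fun t : ℝ => cexp (2 * π * I * ((x ^ 2 : ℝ) : ℂ) * t) * 𝓕 (AA f y) t) 2
    rw [j2] at j3
    have e : ∀ t : ℝ, 𝓕 (AA f y) (t / 2) / ((√y : ℝ) : ℂ) * cexp (π * I * (t + y * I) * x ^ 2) =
        ((rexp (-(π * x ^ 2 * y)) : ℝ) : ℂ) / ((√y : ℝ) : ℂ) *
          (cexp (2 * π * I * ((x ^ 2 : ℝ) : ℂ) * ((t / 2 : ℝ) : ℂ)) * 𝓕 (AA f y) (t / 2)) := by
      intro t
      have : cexp (π * I * (t + y * I) * x ^ 2) = ((rexp (-(π * x ^ 2 * y)) : ℝ) : ℂ) *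
          cexp (2 * π * I * ((x ^ 2 : ℝ) : ℂ) * ((t / 2 : ℝ) : ℂ)) := by
        rw [Complex.ofReal_exp, ← Complex.exp_add]
        congr 1
        push_cast
        linear_combination (π * y * (x : ℂ) ^ 2) * I_mul_I
      rw [this]; ring
    simp only [e]
    have fx : f |x| = f x := by
      rcases abs_choice x with h | h <;> rw [h]
      exact he x
    rw [integral_const_mul, j3, ← sq_abs x, AA_sq f y (abs_nonneg x), fx, sq_abs]
    have : rexp (-(2 * π * x ^ 2 * y)) = rexp (-(π * x ^ 2 * y)) * rexp (-(π * x ^ 2 * y)) := by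
      rw [← Real.exp_add]; congr 1; ring
    rw [this, Complex.real_smul, abs_two]
    simp only [ofReal_mul, ofReal_div, ofReal_ofNat]
    ring
  rw [integral_congr_ae step, integral_const_mul, integral_complex_ofReal, integral_const_mul]
  by_cases hx : x = 0
  · simp [hx, h0]
  have hx2 : 0 < |x| := abs_pos.mpr hx
  rw [gamma_half (by positivity), mul_comm]
  congr 2
  have : π / (2 * π * x ^ 2) = 2 / (2 * |x|) ^ 2 := by
    rw [mul_pow, sq_abs]; field_simp
  rw [this, Real.sqrt_div (by norm_num), Real.sqrt_sq (by positivity)]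
  field_simp

lemma B3 {f : ℝ → ℂ} {r : ℂ → ℂ} {c : ℂ} (hf : Integrable f) (i1 : Integrable r (volume.restrict H))
    (i2 : Integrable (fun z => r z * (1 / rt z)) (volume.restrict H))
    (h : ∀ x : ℝ, ∫ z in H, r z * cexp (π * I * z * x ^ 2) = c * f x) (ξ : ℝ) :
    ∫ z in H, r z * (cexp (π * I * (-1 / z) * ξ ^ 2) / rt z) = c * 𝓕 f ξ := by
  have ne : ∀ x : ℝ, ‖cexp (-2 * π * I * ξ * x)‖ = 1 := by
    intro x
    have e : (-2 * π * I * ξ * x : ℂ) = ((-2 * π * ξ * x : ℝ) : ℂ) * I := by push_cast; ring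
    rw [e, Complex.norm_exp_ofReal_mul_I]
  have key : ∀ η : ℝ, 0 < η →
      ∫ z in H, r z * (cexp (π * I * (-1 / (z + η * I)) * ξ ^ 2) / rt (z + η * I)) =
        c * ∫ x : ℝ, cexp (-2 * π * I * ξ * x) * f x * cexp (π * I * (η * I) * x ^ 2) := by
    intro η hη
    have ig := int_gauss (w := η * I) (by simpa using hη)
    have ip : Integrable (Function.uncurry fun (z : ℂ) (x : ℝ) =>
        cexp (-2 * π * I * ξ * x) * cexp (π * I * (η * I) * x ^ 2) *
          (r z * cexp (π * I * z * x ^ 2))) ((volume.restrict H).prod volume) := by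
      refine Integrable.mono' (i1.norm.mul_prod ig.norm) ?_ ?_
      · exact (Continuous.aestronglyMeasurable (f := fun p : ℂ × ℝ => cexp (-2 * π * I * ξ * p.2) *
          cexp (π * I * (η * I) * p.2 ^ 2)) (by fun_prop)).mul (i1.1.comp_fst.mul
          (Continuous.aestronglyMeasurable (f := fun p : ℂ × ℝ => cexp (π * I * p.1 * p.2 ^ 2))
          (by fun_prop)))
      · filter_upwards [Measure.quasiMeasurePreserving_fst.ae ae_H] with p hp
        simp only [Function.uncurry]
        rw [norm_mul, norm_mul, ne, one_mul, norm_mul, mul_comm]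
        gcongr
        exact mul_le_of_le_one_right (norm_nonneg _) (norm_gauss_le hp.le _)
    have sw := integral_integral_swap ip
    simp only [integral_const_mul, h] at sw
    rw [← integral_const_mul]
    refine Eq.trans (setIntegral_congr_fun measH fun z hz => ?_) (sw.trans
      (integral_congr_ae (Eventually.of_forall fun x => by ring)))
    have hz0 : 0 < z.im := hz
    rw [← four_gauss (by simp; linarith), fourier_eq', ← integral_const_mul]
    refine integral_congr_ae (Eventually.of_forall fun x => ?_)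
    have : cexp (π * I * (z + η * I) * x ^ 2) =
        cexp (π * I * (η * I) * x ^ 2) * cexp (π * I * z * x ^ 2) := by
      rw [← Complex.exp_add]; congr 1; ring
    simp only [this]; ring
  set d : ℕ → ℝ := fun k => 1 / ((k : ℝ) + 1) with hd
  have d0 : ∀ k, 0 < d k := fun k => by simp only [hd]; positivity
  have dl : Tendsto (fun k => ((d k : ℝ) : ℂ) * I) atTop (𝓝 0) := by
    have := ((Complex.continuous_ofReal.tendsto 0).comp
      tendsto_one_div_add_atTop_nhds_zero_nat).mul_const I
    simpa [hd, Function.comp_def] using this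
  have cG : ContinuousOn (fun z : ℂ => cexp (π * I * (-1 / z) * ξ ^ 2) / rt z) H :=
    contOn_S (F := fun z => cexp (π * I * z * ξ ^ 2)) (Continuous.continuousOn (by fun_prop))
  have t1 := tendsto_integral_of_dominated_convergence (μ := volume.restrict H)
    (F := fun k z => r z * (cexp (π * I * (-1 / (z + d k * I)) * ξ ^ 2) / rt (z + d k * I)))
    (f := fun z => r z * (cexp (π * I * (-1 / z) * ξ ^ 2) / rt z))
    (fun z => ‖r z * (1 / rt z)‖)
    (fun k => i1.1.mul ((contOn_shift cG (d0 k)).aestronglyMeasurable measH)) i2.norm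
    (fun k => by
      filter_upwards [ae_H] with z hz
      have := d0 k
      have h1 : 0 < (z + d k * I).im := by simp; linarith
      have hN : 0 < ‖z‖ := norm_pos_iff.mpr (ne_zero_of_im hz)
      have h2 : ‖z‖ ≤ ‖z + d k * I‖ := by
        rw [Complex.norm_eq_sqrt_sq_add_sq, Complex.norm_eq_sqrt_sq_add_sq]
        apply Real.sqrt_le_sqrt
        simp
        nlinarith
      rw [norm_mul, norm_mul, norm_div, norm_div, norm_one, norm_rt_eq, norm_rt_eq]
      gcongr
      exact norm_gauss_le (im_neg_inv_pos h1).le ξ)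
    (by
      filter_upwards [ae_H] with z hz
      refine Tendsto.const_mul _ ((cG.continuousAt (isOpen_H.mem_nhds hz)).tendsto.comp
        (f := fun k => z + d k * I) ?_)
      simpa using dl.const_add z)
  have t2 := tendsto_integral_of_dominated_convergence (μ := volume)
    (F := fun k (x : ℝ) => cexp (-2 * π * I * ξ * x) * f x * cexp (π * I * (d k * I) * x ^ 2))
    (f := fun x : ℝ => cexp (-2 * π * I * ξ * x) * f x) (fun x => ‖f x‖)
    (fun k => ((Continuous.aestronglyMeasurable (by fun_prop)).mul hf.1).mul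
      (Continuous.aestronglyMeasurable (by fun_prop))) hf.norm
    (fun k => Eventually.of_forall fun x => by
      rw [norm_mul, norm_mul, ne, one_mul]
      exact mul_le_of_le_one_right (norm_nonneg _)
        (norm_gauss_le (by simpa using (d0 k).le) _))
    (Eventually.of_forall fun x => by
      have c : Continuous fun w : ℂ => cexp (-2 * π * I * ξ * x) * f x * cexp (π * I * w * x ^ 2) := by
        fun_prop
      simpa [Function.comp_def] using (c.tendsto 0).comp dl)
  simp only [key _ (d0 _)] at t1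
  rw [fourier_eq']
  exact tendsto_nhds_unique t1 (t2.const_mul c)

lemma int_of_w {f : ℝ → ℂ} (hc : Continuous f)
    (h2 : Integrable (fun x => (1 + x ^ 2) * ‖f x‖ ^ 2)) : Integrable f := by
  refine Integrable.mono' (h2.add integrable_inv_one_add_sq) hc.aestronglyMeasurable
    (Eventually.of_forall fun x => ?_)
  have h : 0 < 1 + x ^ 2 := by positivity
  simp only [Pi.add_apply]
  rw [inv_eq_one_div, add_div' _ _ _ h.ne', le_div_iff₀ h]
  nlinarith [sq_nonneg ((1 + x ^ 2) * ‖f x‖ - 1), mul_nonneg h.le (norm_nonneg (f x))]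

theorem unique (f : ℝ → ℂ) (hc : Continuous f) (he : ∀ x, f (-x) = f x)
    (h1 : Integrable (fun x : ℝ => (1 + x ^ 2) * ‖f x‖ ^ 2))
    (h2 : Integrable (fun ξ : ℝ => (1 + ξ ^ 2) * ‖𝓕 f ξ‖ ^ 2))
    (z1 : ∀ n : ℕ, f (√n) = 0) (z2 : ∀ n : ℕ, 𝓕 f (√n) = 0) : f = 0 := by
  have hf := int_of_w hc h1
  have hgc : Continuous (𝓕 f) := VectorFourier.fourierIntegral_continuous
    Real.continuous_fourierChar (innerSL ℝ).continuous₂ hf
  have hg := int_of_w hgc h2
  have hge : ∀ x, 𝓕 f (-x) = 𝓕 f x := by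
    intro x
    rw [fourier_eq', fourier_eq', ← integral_neg_eq_self]
    refine integral_congr_ae (Eventually.of_forall fun t => ?_)
    simp only [he]
    congr 2; push_cast; ring
  have f0 : f 0 = 0 := by simpa using z1 0
  have g0 : ∫ x, 𝓕 f x = 0 := by
    have := congrFun (hc.fourierInv_fourier_eq hf hg) 0
    rw [fourierInv_eq', f0] at this
    simpa using this
  have hr := B1 hc hf hgc hg g0 (PL hc hf he h1) (PL hgc hg hge h2)
  have hrm : AEStronglyMeasurable (rr f) (volume.restrict H) := (meas_rr hc).aestronglyMeasurable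
  have mrt : AEStronglyMeasurable (fun z => 1 / rt z) (volume.restrict H) :=
    (contOn_S (F := fun _ => 1) continuousOn_const).aestronglyMeasurable measH
  have i1 : Integrable (rr f) (volume.restrict H) := by
    simpa using int_mul hrm hr aestronglyMeasurable_const Nrm_one
  have i2 : Integrable (fun z => rr f z * (1 / rt z)) (volume.restrict H) :=
    int_mul hrm hr mrt (by rw [Nrm_S (fun _ => 1)]; exact Nrm_one)
  have b2 := B2 hc hf he f0 i1
  have b3 := B3 hf i1 i2 b2
  have sq : ∀ n : ℕ, ((√n : ℝ) : ℂ) ^ 2 = n := by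
    intro n
    rw [← ofReal_pow, Real.sq_sqrt (Nat.cast_nonneg n)]; simp
  have y1 : ∀ n : ℕ, ∫ z in H, rr f z * cexp (π * I * n * z) = 0 := by
    intro n
    have := b2 (√n)
    rw [z1, mul_zero, sq] at this
    rw [← this]
    refine setIntegral_congr_fun measH fun z _ => ?_
    congr 2; ring
  have y2 : ∀ n : ℕ, ∫ z in H, rr f z * (cexp (π * I * n * (-1 / z)) / rt z) = 0 := by
    intro n
    have := b3 (√n)
    rw [z2, mul_zero, sq] at this
    rw [← this]
    refine setIntegral_congr_fun measH fun z _ => ?_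
    congr 3; ring
  have fin : ∀ (x : ℝ) (ε : ℂ), ε = 1 ∨ ε = -1 → f x + ε * 𝓕 f x = 0 := by
    intro x ε hε
    obtain ⟨a, S⟩ := exists_seed x hε
    have p := partC hrm hr y1 y2 S
    have j1 : Integrable (fun z => rr f z * cexp (π * I * z * x ^ 2)) (volume.restrict H) := by
      refine i1.mul_bdd (c := 1) (Continuous.aestronglyMeasurable (by fun_prop)) ?_
      filter_upwards [ae_H] with z hz
      exact norm_gauss_le hz.le x
    have j2 : Integrable (fun z => rr f z * (1 / rt z) * cexp (π * I * (-1 / z) * x ^ 2))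
        (volume.restrict H) := by
      refine i2.mul_bdd (c := 1) (Measurable.aestronglyMeasurable (by fun_prop)) ?_
      filter_upwards [ae_H] with z hz
      exact norm_gauss_le (im_neg_inv_pos hz).le x
    have e : (fun z => rr f z * psi (fun τ => cexp (π * I * τ * x ^ 2) - a) ε z) = fun z =>
        (rr f z * cexp (π * I * z * x ^ 2) - a * rr f z) +
        (ε * (rr f z * (1 / rt z) * cexp (π * I * (-1 / z) * x ^ 2)) -
          ε * a * (rr f z * (1 / rt z))) := by
      funext z; simp only [psi]; ring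
    have k1 : ∫ z in H, rr f z = 0 := by simpa using y1 0
    have k2 : ∫ z in H, rr f z * (1 / rt z) = 0 := by simpa using y2 0
    have k3 : ∫ z in H, rr f z * (1 / rt z) * cexp (π * I * (-1 / z) * x ^ 2) =
        ((√2 : ℝ) : ℂ) * 𝓕 f x := by
      rw [← b3 x]
      refine setIntegral_congr_fun measH fun z _ => ?_
      ring
    have j3 : Integrable (fun z => rr f z * cexp (π * I * z * x ^ 2) - a * rr f z)
        (volume.restrict H) := j1.sub (i1.const_mul a)
    have j4 : Integrable (fun z => ε * (rr f z * (1 / rt z) * cexp (π * I * (-1 / z) * x ^ 2)) -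
        ε * a * (rr f z * (1 / rt z))) (volume.restrict H) :=
      (j2.const_mul ε).sub (i2.const_mul _)
    rw [e, integral_add j3 j4,
      integral_sub j1 (i1.const_mul a), integral_sub (j2.const_mul ε) (i2.const_mul _),
      integral_const_mul, integral_const_mul, integral_const_mul, k1, k2, k3, b2] at p
    have s2 : ((√2 : ℝ) : ℂ) ≠ 0 := by
      exact_mod_cast (Real.sqrt_pos.mpr (by norm_num : (0 : ℝ) < 2)).ne'
    apply mul_left_cancel₀ s2
    linear_combination p
  funext x
  have a := fin x 1 (Or.inl rfl)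
  have b := fin x (-1) (Or.inr rfl)
  simp only [Pi.zero_apply]
  linear_combination (a + b) / 2

end Pool.Agent.H989Z.FU
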