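import Pool.Agent.H989Z.FU.Pars

set_option autoImplicit false
open Complex Filter Topology MeasureTheory
open scoped Real ENNReal

namespace Pool.Agent.H989Z.FU

def H : Set ℂ := {z | 0 < z.im}

lemma isOpen_H : IsOpen H := isOpen_lt continuous_const Complex.continuous_im

lemma measH : MeasurableSet H := isOpen_H.measurableSet

noncomputable def emb : ℝ × ℝ ≃ᵐ ℂ := Complex.measurableEquivRealProd.symm

lemma emb_apply (t y : ℝ) : emb (t, y) = t + y * I := by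
  apply Complex.ext <;> simp [emb]

lemma mp_emb : MeasurePreserving emb ((volume : Measure ℝ).prod (volume.restrict (Set.Ioi (0 : ℝ))))
    (volume.restrict H) := by
  have h1 := (Complex.volume_preserving_equiv_real_prod.symm).restrict_preimage measH
  have h2 : Complex.measurableEquivRealProd.symm ⁻¹' H = Set.univ ×ˢ Set.Ioi (0 : ℝ) := by
    ext p; simp [H]
  rw [h2, Measure.volume_eq_prod, ← Measure.prod_restrict, Measure.restrict_univ] at h1
  exact h1

lemma lintegral_H {G : ℂ → ℝ≥0∞} (hG : AEMeasurable G (volume.restrict H)) :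
    ∫⁻ z in H, G z = ∫⁻ y in Set.Ioi (0 : ℝ), ∫⁻ t : ℝ, G (t + y * I) := by
  rw [← mp_emb.lintegral_comp_emb emb.measurableEmbedding, lintegral_prod_symm (fun a => G (emb a))
    (hG.comp_quasiMeasurePreserving mp_emb.quasiMeasurePreserving)]
  simp only [emb_apply]

lemma integral_H {G : ℂ → ℂ} (hG : Integrable G (volume.restrict H)) :
    (∀ᵐ y : ℝ ∂(volume.restrict (Set.Ioi 0)), Integrable (fun t : ℝ => G (t + y * I))) ∧
    ∫ z in H, G z = ∫ y in Set.Ioi (0 : ℝ), ∫ t : ℝ, G (t + y * I) := by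
  have h1 := (mp_emb.integrable_comp_emb emb.measurableEmbedding).mpr hG
  constructor
  · simpa only [Function.comp_apply, emb_apply] using h1.prod_left_ae
  · rw [← mp_emb.integral_comp emb.measurableEmbedding, integral_prod_symm (fun a => G (emb a)) h1]
    simp only [emb_apply]

lemma cv {φ φ' : ℂ → ℂ} (hd : ∀ z ∈ H, HasDerivAt φ (φ' z) z) (hi : Set.InjOn φ H)
    (him : φ '' H = H) (g : ℂ → ℝ≥0∞) :
    ∫⁻ z in H, g z = ∫⁻ z in H, ENNReal.ofReal (‖φ' z‖ ^ 2) * g (φ z) := by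
  have := lintegral_image_eq_lintegral_abs_det_fderiv_mul volume measH
    (fun z hz => ((hd z hz).hasFDerivAt.restrictScalars ℝ).hasFDerivWithinAt) hi g
  rw [him] at this
  rw [this]
  refine lintegral_congr fun z => ?_
  congr 2
  simp [ContinuousLinearMap.det, LinearMap.det_restrictScalars, Algebra.norm_complex_eq,
    Complex.normSq_eq_norm_sq]

lemma cv_S (g : ℂ → ℝ≥0∞) :
    ∫⁻ z in H, g z = ∫⁻ z in H, ENNReal.ofReal (1 / ‖z‖ ^ 4) * g (-1 / z) := by
  rw [cv (φ := fun z => -1 / z) (φ' := fun z => 1 / z ^ 2) ?_ ?_ ?_ g]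
  · refine lintegral_congr fun z => ?_
    congr 2
    rw [norm_div, norm_one, norm_pow, div_pow, one_pow, ← pow_mul]
  · intro z hz
    have h0 := ne_zero_of_im hz
    have := (hasDerivAt_inv h0).const_mul (-1 : ℂ)
    simpa [div_eq_mul_inv] using this
  · intro a _ b _ h
    have := congrArg (fun w => -1 / w) h
    simpa only [neg_inv_neg_inv] using this
  · ext w
    constructor
    · rintro ⟨z, hz, rfl⟩; exact im_neg_inv_pos hz
    · intro hw; exact ⟨-1 / w, im_neg_inv_pos hw, neg_inv_neg_inv w⟩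

lemma cv_scale {s : ℝ} (hs : 0 < s) (g : ℂ → ℝ≥0∞) :
    ∫⁻ z in H, g z = ∫⁻ z in H, ENNReal.ofReal (s ^ 2) * g (s * z) := by
  have hs' : (s : ℂ) ≠ 0 := by exact_mod_cast hs.ne'
  rw [cv (φ := fun z => s * z) (φ' := fun _ => s) ?_ ?_ ?_ g]
  · simp
  · intro z _
    simpa using (hasDerivAt_id z).const_mul (s : ℂ)
  · intro a _ b _ h
    exact mul_left_cancel₀ hs' h
  · ext w
    constructor
    · rintro ⟨z, hz, rfl⟩
      have : 0 < z.im := hz
      change 0 < ((s : ℂ) * z).im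
      simp; positivity
    · intro hw
      have : 0 < w.im := hw
      refine ⟨w / s, ?_, by field_simp⟩
      change 0 < (w / s).im
      simp; positivity

lemma cv_refl (g : ℂ → ℝ≥0∞) :
    ∫⁻ z in H, g (-(starRingEnd ℂ) z) = ∫⁻ z in H, g z := by
  let L : ℂ ≃ₗᵢ[ℝ] ℂ := Complex.conjLIE.trans (LinearIsometryEquiv.neg ℝ)
  have h := L.measurePreserving.setLIntegral_comp_preimage_emb
    L.toHomeomorph.measurableEmbedding g H
  have e : L ⁻¹' H = H := by ext z; simp [L, H]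
  rw [e] at h
  simpa [L] using h

noncomputable def wg (z : ℂ) : ℝ := 1 / (√z.im * ‖z + I‖ ^ 2)

noncomputable def Nrm (Φ : ℂ → ℂ) : ℝ≥0∞ := ∫⁻ z in H, ENNReal.ofReal (‖Φ z‖ ^ 2 * wg z)

noncomputable def Nu (Φ : ℂ → ℂ) : ℝ≥0∞ := ∫⁻ z in H, ENNReal.ofReal (‖Φ z‖ ^ 2 / √z.im)

lemma norm_add_I {z : ℂ} (_h : 0 < z.im) : 1 + z.im ≤ ‖z + I‖ := by
  have := Complex.abs_im_le_norm (z + I)
  simp only [add_im, I_im] at this
  linarith [le_abs_self (z.im + 1)]

lemma wg_pos {z : ℂ} (h : 0 < z.im) : 0 < wg z := by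
  have := norm_add_I h
  have : 0 < ‖z + I‖ := by linarith
  unfold wg; positivity

lemma sqrt_im_S {z : ℂ} (h : 0 < z.im) : √(-1 / z).im = √z.im / ‖z‖ := by
  rw [im_neg_inv, Real.sqrt_div h.le, Real.sqrt_sq (norm_nonneg _)]

lemma norm_S_add_I {z : ℂ} (h : 0 < z.im) : ‖-1 / z + I‖ = ‖z + I‖ / ‖z‖ := by
  have h0 := ne_zero_of_im h
  have : -1 / z + I = I * (z + I) / z := by
    field_simp
    linear_combination -I_mul_I
  rw [this, norm_div, norm_mul, norm_I, one_mul]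

lemma Nrm_S (Φ : ℂ → ℂ) : Nrm (fun z => Φ (-1 / z) / rt z) = Nrm Φ := by
  unfold Nrm
  rw [cv_S (fun z => ENNReal.ofReal (‖Φ z‖ ^ 2 * wg z))]
  refine setLIntegral_congr_fun measH fun z hz => ?_
  have h : 0 < z.im := hz
  have hN : 0 < ‖z‖ := norm_pos_iff.mpr (ne_zero_of_im h)
  have h1 : 0 < ‖z + I‖ := by linarith [norm_add_I h]
  have h2 := Real.sqrt_pos.mpr h
  simp only
  rw [← ENNReal.ofReal_mul (by positivity)]
  congr 1
  unfold wg
  rw [sqrt_im_S h, norm_S_add_I h, norm_div, div_pow, norm_rt_sq]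
  field_simp

lemma Nu_S (Φ : ℂ → ℂ) (k : ℂ → ℝ) :
    ∫⁻ z in H, ENNReal.ofReal (‖Φ (-1 / z)‖ ^ 2 * k (-1 / z) / ‖z‖ ^ 3 / √z.im) =
      ∫⁻ z in H, ENNReal.ofReal (‖Φ z‖ ^ 2 * k z / √z.im) := by
  rw [cv_S (fun z => ENNReal.ofReal (‖Φ z‖ ^ 2 * k z / √z.im))]
  refine setLIntegral_congr_fun measH fun z hz => ?_
  have h : 0 < z.im := hz
  have hN : 0 < ‖z‖ := norm_pos_iff.mpr (ne_zero_of_im h)
  have h2 := Real.sqrt_pos.mpr h
  rw [← ENNReal.ofReal_mul (by positivity)]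
  congr 1
  rw [sqrt_im_S h]
  field_simp

noncomputable def W (t : ℝ) : ℝ := (1 + |t|) ^ (-(5 / 4 : ℝ))

lemma W_pos (t : ℝ) : 0 < W t := by unfold W; positivity

lemma rpow_four : (2 : ℝ) ^ (5 / 4 : ℝ) ≤ 4 := by
  calc (2 : ℝ) ^ (5 / 4 : ℝ) ≤ 2 ^ ((2 : ℕ) : ℝ) :=
        Real.rpow_le_rpow_of_exponent_le (by norm_num) (by norm_num)
    _ = 4 := by rw [Real.rpow_natCast]; norm_num

lemma half_rpow {a b : ℝ} (ha : 0 < a) (h : a / 2 ≤ b) :
    b ^ (-(5 / 4 : ℝ)) ≤ 4 * a ^ (-(5 / 4 : ℝ)) := by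
  refine (Real.rpow_le_rpow_of_nonpos (by positivity) h (by norm_num)).trans ?_
  rw [Real.div_rpow ha.le (by norm_num), div_eq_mul_inv, mul_comm,
    ← Real.rpow_neg (by norm_num), neg_neg]
  gcongr
  exact rpow_four

noncomputable def CW : ℝ := 4 * ∑' k : ℤ, (1 + |(k : ℝ)|) ^ (-(5 / 4 : ℝ))

lemma CW_nonneg : 0 ≤ CW := by
  unfold CW
  exact mul_nonneg (by norm_num) (tsum_nonneg fun k => by positivity)

lemma LW {h : ℝ → ℂ} (hc : Continuous h) {M : ℝ}
    (hM : ∀ X : ℝ, ∫ t in X..(X + 2), ‖h t‖ ^ 2 ≤ M) :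
    ∫⁻ t, ENNReal.ofReal (‖h t‖ ^ 2 * W t) ≤ ENNReal.ofReal (CW * M) := by
  have hM0 : 0 ≤ M := le_trans (intervalIntegral.integral_nonneg (by linarith)
    (fun t _ => by positivity)) (hM 0)
  have cover : (Set.univ : Set ℝ) ⊆ ⋃ k : ℤ, Set.Ioc (2 * (k : ℝ)) (2 * k + 2) := by
    intro t _
    refine Set.mem_iUnion.mpr ⟨⌈t / 2⌉ - 1, ?_, ?_⟩
    · push_cast; linarith [Int.ceil_lt_add_one (t / 2)]
    · push_cast; linarith [Int.le_ceil (t / 2)]
  rw [← setLIntegral_univ]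
  refine (lintegral_mono_set cover).trans ((lintegral_iUnion_le _ _).trans ?_)
  have each : ∀ k : ℤ, ∫⁻ t in Set.Ioc (2 * (k : ℝ)) (2 * k + 2), ENNReal.ofReal (‖h t‖ ^ 2 * W t) ≤
      ENNReal.ofReal (4 * (1 + |(k : ℝ)|) ^ (-(5 / 4 : ℝ)) * M) := by
    intro k
    have h1 : ∀ t ∈ Set.Ioc (2 * (k : ℝ)) (2 * k + 2),
        W t ≤ 4 * (1 + |(k : ℝ)|) ^ (-(5 / 4 : ℝ)) := by
      intro t ht
      apply half_rpow (by positivity)
      rcases le_or_gt 0 k with hk | hk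
      · have : (0 : ℝ) ≤ k := by exact_mod_cast hk
        rw [abs_of_nonneg this, abs_of_nonneg (by linarith [ht.1])]
        linarith [ht.1]
      · have : (k : ℝ) ≤ -1 := by exact_mod_cast (by omega : k ≤ -1)
        rw [abs_of_nonpos (by linarith), abs_of_nonpos (by linarith [ht.2])]
        linarith [ht.2]
    calc _ ≤ ∫⁻ t in Set.Ioc (2 * (k : ℝ)) (2 * k + 2),
          ENNReal.ofReal (4 * (1 + |(k : ℝ)|) ^ (-(5 / 4 : ℝ)) * ‖h t‖ ^ 2) := by
          refine setLIntegral_mono' measurableSet_Ioc fun t ht => ENNReal.ofReal_le_ofReal ?_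
          rw [mul_comm]
          gcongr
          exact h1 t ht
      _ = ENNReal.ofReal (∫ t in Set.Ioc (2 * (k : ℝ)) (2 * k + 2),
          4 * (1 + |(k : ℝ)|) ^ (-(5 / 4 : ℝ)) * ‖h t‖ ^ 2) := by
          rw [ofReal_integral_eq_lintegral_ofReal (Continuous.integrableOn_Ioc (by fun_prop))
            (Eventually.of_forall fun t => by positivity)]
      _ ≤ _ := by
          apply ENNReal.ofReal_le_ofReal
          rw [integral_const_mul, ← intervalIntegral.integral_of_le (by linarith)]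
          gcongr
          exact hM _
  refine (ENNReal.tsum_le_tsum each).trans (le_of_eq ?_)
  rw [← ENNReal.ofReal_tsum_of_nonneg (fun k => by positivity)
    ((summable_w.mul_left 4).mul_right M), tsum_mul_right, tsum_mul_left]
  rfl

lemma meas_W : Measurable W := by unfold W; fun_prop

lemma LB {Φ : ℂ → ℂ} (hΦ : ContinuousOn Φ H) {n u : ℝ → ℝ} (hu : Measurable u)
    (hu0 : ∀ y, 0 < y → 0 ≤ u y)
    (hn : ∀ y : ℝ, 0 < y → ∀ X : ℝ, ∫ t in X..(X + 2), ‖Φ (t + y * I)‖ ^ 2 ≤ n y) :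
    ∫⁻ z in H, ENNReal.ofReal (‖Φ z‖ ^ 2 * W z.re * u z.im) ≤
      ∫⁻ y in Set.Ioi (0 : ℝ), ENNReal.ofReal (CW * n y * u y) := by
  have hm : AEMeasurable Φ (volume.restrict H) := hΦ.aemeasurable measH
  have mW := meas_W
  rw [lintegral_H (by fun_prop)]
  refine setLIntegral_mono' measurableSet_Ioi fun y hy => ?_
  have hy' : 0 < y := hy
  have hc : Continuous (fun t : ℝ => Φ (t + y * I)) :=
    hΦ.comp_continuous (by fun_prop) (fun t => by simpa [H] using hy')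
  have h1 := LW hc (hn y hy')
  simp only [add_re, ofReal_re, mul_re, I_re, mul_zero, ofReal_im, I_im, mul_one, sub_self,
    add_zero, add_im, mul_im, zero_add]
  have h2 : ∀ t : ℝ, ENNReal.ofReal (‖Φ (t + y * I)‖ ^ 2 * W t * u y) =
      ENNReal.ofReal (‖Φ (t + y * I)‖ ^ 2 * W t) * ENNReal.ofReal (u y) := fun t =>
    ENNReal.ofReal_mul' (hu0 y hy')
  simp only [h2]
  rw [lintegral_mul_const' _ _ ENNReal.ofReal_ne_top, ENNReal.ofReal_mul' (hu0 y hy')]
  gcongr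

lemma Jbound {δ : ℝ} (hδ : 0 < δ) :
    ∫⁻ y in Set.Ioi (0 : ℝ), ENNReal.ofReal (δ ^ (1 / 8 : ℝ) * y ^ (-(5 / 8 : ℝ)) / √(y + δ)) ≤
      ENNReal.ofReal 11 := by
  rw [← Set.Ioc_union_Ioi_eq_Ioi hδ.le]
  refine (lintegral_union_le _ _ _).trans ?_
  have h1 : ∫⁻ y in Set.Ioc (0 : ℝ) δ,
      ENNReal.ofReal (δ ^ (1 / 8 : ℝ) * y ^ (-(5 / 8 : ℝ)) / √(y + δ)) ≤ ENNReal.ofReal 3 := by
    calc _ ≤ ∫⁻ y in Set.Ioc (0 : ℝ) δ,
          ENNReal.ofReal (δ ^ (-(3 / 8) : ℝ) * y ^ (-(5 / 8 : ℝ))) := by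
          refine setLIntegral_mono' measurableSet_Ioc fun y hy => ENNReal.ofReal_le_ofReal ?_
          have hy0 := hy.1
          have e : δ ^ (-(3 / 8) : ℝ) = δ ^ (1 / 8 : ℝ) / √δ := by
            rw [Real.sqrt_eq_rpow, ← Real.rpow_sub hδ]; norm_num
          rw [e, div_mul_eq_mul_div]
          gcongr; linarith
      _ = ENNReal.ofReal (∫ y in Set.Ioc (0 : ℝ) δ, δ ^ (-(3 / 8) : ℝ) * y ^ (-(5 / 8 : ℝ))) := by
          rw [ofReal_integral_eq_lintegral_ofReal]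
          · exact ((intervalIntegral.intervalIntegrable_rpow' (a := 0) (b := δ)
              (by norm_num)).1).const_mul _
          · filter_upwards [ae_restrict_mem measurableSet_Ioc] with y hy
            have := hy.1
            positivity
      _ ≤ _ := by
          apply ENNReal.ofReal_le_ofReal
          rw [integral_const_mul, ← intervalIntegral.integral_of_le hδ.le,
            integral_rpow (Or.inl (by norm_num)), Real.zero_rpow (by norm_num), sub_zero,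
            ← mul_div_assoc, ← Real.rpow_add hδ]
          norm_num
  have h2 : ∫⁻ y in Set.Ioi δ,
      ENNReal.ofReal (δ ^ (1 / 8 : ℝ) * y ^ (-(5 / 8 : ℝ)) / √(y + δ)) ≤ ENNReal.ofReal 8 := by
    calc _ ≤ ∫⁻ y in Set.Ioi δ, ENNReal.ofReal (δ ^ (1 / 8 : ℝ) * y ^ (-(9 / 8 : ℝ))) := by
          refine setLIntegral_mono' measurableSet_Ioi fun y hy => ENNReal.ofReal_le_ofReal ?_
          have hy0 : 0 < y := hδ.trans hy
          have e : y ^ (-(9 / 8) : ℝ) = y ^ (-(5 / 8) : ℝ) / √y := by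
            rw [Real.sqrt_eq_rpow, ← Real.rpow_sub hy0]; norm_num
          rw [e, ← mul_div_assoc]
          gcongr; linarith
      _ = ENNReal.ofReal (∫ y in Set.Ioi δ, δ ^ (1 / 8 : ℝ) * y ^ (-(9 / 8 : ℝ))) := by
          rw [ofReal_integral_eq_lintegral_ofReal]
          · exact (integrableOn_Ioi_rpow_of_lt (by norm_num) hδ).const_mul _
          · filter_upwards [ae_restrict_mem measurableSet_Ioi] with y hy
            have hy0 : 0 < y := hδ.trans hy
            positivity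
      _ ≤ _ := by
          apply ENNReal.ofReal_le_ofReal
          rw [integral_const_mul, integral_Ioi_rpow_of_lt (by norm_num) hδ,
            ← mul_div_assoc, mul_neg, ← Real.rpow_add hδ]
          norm_num
  refine (add_le_add h1 h2).trans (le_of_eq ?_)
  rw [← ENNReal.ofReal_add (by norm_num) (by norm_num)]; norm_num

noncomputable def uu (δ y : ℝ) : ℝ := δ ^ (1 / 8 : ℝ) * y ^ (-(5 / 8 : ℝ)) / √(y + 1)

lemma wg_le0 {z : ℂ} (h : 0 < z.im) :
    ‖z + I‖ ^ (-(7 / 4 : ℝ)) ≤ 4 * W z.re * (1 / √(z.im + 1)) := by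
  have h1 := norm_add_I h
  have h0 : 0 < ‖z + I‖ := by linarith
  have h2 : |z.re| ≤ ‖z + I‖ := by simpa using Complex.abs_re_le_norm (z + I)
  have e : ‖z + I‖ ^ (-(7 / 4 : ℝ)) = ‖z + I‖ ^ (-(5 / 4 : ℝ)) * (1 / √‖z + I‖) := by
    rw [Real.sqrt_eq_rpow, mul_one_div, ← Real.rpow_sub h0]; norm_num
  rw [e]
  apply mul_le_mul (half_rpow (by positivity) (by linarith)) _ (by positivity)
    (by have := W_pos z.re; positivity)
  gcongr; linarith

lemma wg_le1 {z : ℂ} (h : 0 < z.im) {δ : ℝ} (hδ : 0 < δ) (hz : z.im ≤ δ * ‖z + I‖ ^ 2) :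
    wg z ≤ 4 * W z.re * uu δ z.im := by
  have h1 := norm_add_I h
  have h0 : 0 < ‖z + I‖ := by linarith
  set N := ‖z + I‖
  set y := z.im
  have a : y ^ (1 / 8 : ℝ) ≤ δ ^ (1 / 8 : ℝ) * N ^ (1 / 4 : ℝ) := by
    refine (Real.rpow_le_rpow h.le hz (by norm_num)).trans (le_of_eq ?_)
    rw [Real.mul_rpow hδ.le (by positivity), ← Real.rpow_natCast, ← Real.rpow_mul h0.le]
    norm_num
  have e1 : wg z = y ^ (1 / 8 : ℝ) * y ^ (-(5 / 8 : ℝ)) * (N ^ (-(1 / 4 : ℝ)) * N ^ (-(7 / 4 : ℝ))) := by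
    unfold wg
    rw [← Real.rpow_add h, ← Real.rpow_add h0, Real.sqrt_eq_rpow, one_div, mul_inv,
      ← Real.rpow_neg h.le, ← Real.rpow_natCast, ← Real.rpow_neg h0.le]
    norm_num
  have e2 : N ^ (1 / 4 : ℝ) * N ^ (-(1 / 4 : ℝ)) = 1 := by
    rw [← Real.rpow_add h0]; norm_num
  rw [e1]
  calc _ ≤ (δ ^ (1 / 8 : ℝ) * N ^ (1 / 4 : ℝ)) * y ^ (-(5 / 8 : ℝ)) *
        (N ^ (-(1 / 4 : ℝ)) * (4 * W z.re * (1 / √(y + 1)))) := by
        gcongr
        exact wg_le0 h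
    _ = (N ^ (1 / 4 : ℝ) * N ^ (-(1 / 4 : ℝ))) * (4 * W z.re * uu δ y) := by unfold uu; ring
    _ = _ := by rw [e2, one_mul]

lemma uu_nonneg {δ y : ℝ} (hδ : 0 < δ) (hy : 0 < y) : 0 ≤ uu δ y := by unfold uu; positivity

lemma meas_uu (δ : ℝ) : Measurable (uu δ) := by unfold uu; fun_prop

/-- bound for the y-integral -/
lemma Jbound2 {δ c : ℝ} (hδ : 0 < δ) (hδ1 : δ ≤ 1) (hc : 0 ≤ c) :
    ∫⁻ y in Set.Ioi (0 : ℝ), ENNReal.ofReal (c * (1 + 1 / √(y + δ)) * uu δ y) ≤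
      ENNReal.ofReal (22 * c) := by
  have pt : ∀ y ∈ Set.Ioi (0 : ℝ), ENNReal.ofReal (c * (1 + 1 / √(y + δ)) * uu δ y) ≤
      ENNReal.ofReal c * (ENNReal.ofReal (1 ^ (1 / 8 : ℝ) * y ^ (-(5 / 8 : ℝ)) / √(y + 1)) +
        ENNReal.ofReal (δ ^ (1 / 8 : ℝ) * y ^ (-(5 / 8 : ℝ)) / √(y + δ))) := by
    intro y hy
    have hy0 : 0 < y := hy
    rw [← ENNReal.ofReal_add (by positivity) (by positivity), ← ENNReal.ofReal_mul hc]
    apply ENNReal.ofReal_le_ofReal
    rw [mul_assoc, add_mul, one_mul]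
    gcongr
    · unfold uu; gcongr
    · unfold uu
      rw [mul_comm, mul_one_div]
      gcongr
      exact div_le_self (by positivity) (Real.one_le_sqrt.mpr (by linarith))
  refine (setLIntegral_mono' measurableSet_Ioi pt).trans ?_
  rw [lintegral_const_mul' _ _ ENNReal.ofReal_ne_top, lintegral_add_left (by fun_prop)]
  calc _ ≤ ENNReal.ofReal c * (ENNReal.ofReal 11 + ENNReal.ofReal 11) := by
        gcongr
        · exact Jbound one_pos
        · exact Jbound hδ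
    _ = _ := by
      rw [← ENNReal.ofReal_add (by norm_num) (by norm_num), ← ENNReal.ofReal_mul hc]
      congr 1; ring

lemma Nrm_one : Nrm (fun _ => 1) ≠ ∞ := by
  have h1 := LB (Φ := fun _ => 1) continuousOn_const (n := fun _ => 2) (meas_uu 1)
    (fun y hy => uu_nonneg one_pos hy) (fun y _ X => by simp)
  have h2 := Jbound2 one_pos le_rfl (c := CW * 2) (by have := CW_nonneg; positivity)
  have h3 : ∫⁻ y in Set.Ioi (0 : ℝ), ENNReal.ofReal (CW * 2 * uu 1 y) ≤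
      ∫⁻ y in Set.Ioi (0 : ℝ), ENNReal.ofReal (CW * 2 * (1 + 1 / √(y + 1)) * uu 1 y) := by
    refine setLIntegral_mono' measurableSet_Ioi fun y hy => ENNReal.ofReal_le_ofReal ?_
    have := uu_nonneg one_pos hy
    have := CW_nonneg
    apply mul_le_mul_of_nonneg_right _ (uu_nonneg one_pos hy)
    apply le_mul_of_one_le_right (by positivity)
    have : 0 ≤ 1 / √(y + 1) := by positivity
    linarith
  have h4 : Nrm (fun _ => 1) ≤ ENNReal.ofReal 4 *
      ∫⁻ z in H, ENNReal.ofReal (‖(1 : ℂ)‖ ^ 2 * W z.re * uu 1 z.im) := by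
    rw [← lintegral_const_mul' _ _ ENNReal.ofReal_ne_top]
    refine setLIntegral_mono' measH fun z hz => ?_
    rw [← ENNReal.ofReal_mul (by norm_num)]
    apply ENNReal.ofReal_le_ofReal
    have h : 0 < z.im := hz
    have := wg_le1 h one_pos (by nlinarith [norm_add_I h])
    simp only [norm_one, one_pow, one_mul]
    linarith
  refine ne_top_of_le_ne_top ?_ (h4.trans (mul_le_mul_right (h1.trans (h3.trans h2)) _))
  exact ENNReal.mul_ne_top ENNReal.ofReal_ne_top ENNReal.ofReal_ne_top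

end Pool.Agent.H989Z.FU
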