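import Pool.Agent.H989Z.FU.Build3

set_option autoImplicit false
open Complex Filter Topology MeasureTheory
open scoped Real

namespace Pool.Agent.H989Z.FU

lemma hasSum_integral_mul {α : Type} [MeasurableSpace α] {μ : Measure α} {r : α → ℂ}
    (hr : Integrable r μ) {e : ℕ → α → ℂ} (he : ∀ n, AEStronglyMeasurable (e n) μ)
    (hb : ∀ n, ∀ᵐ x ∂μ, ‖e n x‖ ≤ 1) {b : ℕ → ℂ} (hs : Summable fun n => ‖b n‖) :
    HasSum (fun n => b n * ∫ x, r x * e n x ∂μ) (∫ x, r x * ∑' n, b n * e n x ∂μ) := by
  have hi : ∀ n, Integrable (fun x => b n * (r x * e n x)) μ := fun n =>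
    (hr.mul_bdd (he n) (hb n)).const_mul _
  have := hasSum_integral_of_summable_integral_norm (F := fun n x => b n * (r x * e n x)) hi
    (by
      refine Summable.of_nonneg_of_le (fun n => integral_nonneg fun x => norm_nonneg _)
        (fun n => ?_) (hs.mul_right (∫ x, ‖r x‖ ∂μ))
      rw [← integral_const_mul]
      refine integral_mono_ae (hi n).norm (hr.norm.const_mul _) ?_
      filter_upwards [hb n] with x hx
      rw [norm_mul, norm_mul]
      gcongr
      exact mul_le_of_le_one_right (norm_nonneg _) hx)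
  simp only [integral_const_mul] at this
  have e : (fun x => r x * ∑' n, b n * e n x) = fun x => ∑' n, b n * (r x * e n x) := by
    funext x
    rw [← tsum_mul_left]
    refine tsum_congr fun n => ?_
    ring
  rw [e]
  exact this

lemma orth (j : ℤ) (X : ℝ) :
    ∫ t in X..(X + 2), cexp (π * I * j * t) = if j = 0 then 2 else 0 := by
  split_ifs with h
  · simp [h]
  · have hc : (π * I * j : ℂ) ≠ 0 := by
      simp [h, Real.pi_ne_zero]
    rw [integral_exp_mul_complex hc]
    have : (π * I * j * ((X + 2 : ℝ) : ℂ)) = π * I * j * X + j * (2 * π * I) := by push_cast; ring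
    rw [this, Complex.exp_add, Complex.exp_int_mul_two_pi_mul_I]
    simp

lemma norm_osc (j : ℤ) (t : ℝ) : ‖cexp (π * I * j * t)‖ = 1 := by
  have : (π * I * j * t : ℂ) = ((π * j * t : ℝ) : ℂ) * I := by push_cast; ring
  rw [this, Complex.norm_exp_ofReal_mul_I]

lemma parseval {a : ℕ → ℂ} {k : ℕ → ℤ} (hk : Function.Injective k)
    (ha : Summable fun n => ‖a n‖) (X : ℝ) :
    HasSum (fun n => 2 * ‖a n‖ ^ 2)
      (∫ t in X..(X + 2), ‖∑' n, a n * cexp (π * I * (k n) * t)‖ ^ 2) := by
  set S : ℝ → ℂ := fun t => ∑' n, a n * cexp (π * I * (k n) * t) with hS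
  have hX : X ≤ X + 2 := by linarith
  have Sc : Continuous S := by
    refine continuous_tsum (fun n => by fun_prop) ha (fun n t => ?_)
    rw [norm_mul, norm_osc, mul_one]
  have coef : ∀ n, ∫ t in Set.Ioc X (X + 2), S t * cexp (π * I * ((-k n : ℤ) : ℂ) * t) = 2 * a n := by
    intro n
    have h1 := hasSum_integral_mul (μ := volume.restrict (Set.Ioc X (X + 2)))
      (r := fun t : ℝ => cexp (π * I * ((-k n : ℤ) : ℂ) * t))
      (Continuous.integrableOn_Ioc (by fun_prop)) (e := fun m (t : ℝ) => cexp (π * I * (k m) * t))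
      (fun m => Continuous.aestronglyMeasurable (by fun_prop))
      (fun m => Eventually.of_forall fun t => (norm_osc _ _).le) ha
    have h2 : ∀ m, a m * ∫ t in Set.Ioc X (X + 2), cexp (π * I * ((-k n : ℤ) : ℂ) * t) *
        cexp (π * I * (k m) * t) = if m = n then 2 * a n else 0 := by
      intro m
      have : ∀ t : ℝ, cexp (π * I * ((-k n : ℤ) : ℂ) * t) * cexp (π * I * (k m) * t) =
          cexp (π * I * ((k m - k n : ℤ) : ℂ) * t) := by
        intro t
        rw [← Complex.exp_add]; congr 1; push_cast; ring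
      simp only [this]
      rw [← intervalIntegral.integral_of_le hX, orth]
      by_cases hmn : m = n
      · simp [hmn, mul_comm]
      · have : k m - k n ≠ 0 := fun h => hmn (hk (by linarith))
        simp [hmn, this]
    simp only [h2] at h1
    have h3 := h1.unique (hasSum_ite_eq n (2 * a n))
    rw [← h3]
    refine integral_congr_ae (Eventually.of_forall fun t => ?_)
    simp only [hS]
    ring
  have h1 := hasSum_integral_mul (μ := volume.restrict (Set.Ioc X (X + 2))) (r := S)
    Sc.integrableOn_Ioc (e := fun m (t : ℝ) => cexp (π * I * ((-k m : ℤ) : ℂ) * t))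
    (fun m => Continuous.aestronglyMeasurable (by fun_prop))
    (fun m => Eventually.of_forall fun t => (norm_osc _ _).le)
    (b := fun n => (starRingEnd ℂ) (a n)) (by simpa using ha)
  simp only [coef] at h1
  have e1 : ∀ t : ℝ, S t * ∑' n, (starRingEnd ℂ) (a n) * cexp (π * I * ((-k n : ℤ) : ℂ) * t) =
      ((‖S t‖ ^ 2 : ℝ) : ℂ) := by
    intro t
    rw [← Complex.normSq_eq_norm_sq, ← Complex.mul_conj]
    congr 1
    simp only [hS]
    rw [Complex.conj_tsum]
    refine tsum_congr fun n => ?_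
    rw [map_mul, ← Complex.exp_conj]
    congr 2
    simp
  simp only [e1] at h1
  rw [integral_complex_ofReal, ← intervalIntegral.integral_of_le hX] at h1
  have e2 : ∀ n, (starRingEnd ℂ) (a n) * (2 * a n) = ((2 * ‖a n‖ ^ 2 : ℝ) : ℂ) := by
    intro n
    rw [← Complex.normSq_eq_norm_sq, ofReal_mul, ← Complex.mul_conj]; push_cast; ring
  simp only [e2] at h1
  exact Complex.hasSum_ofReal.mp h1

lemma th_imag {y : ℝ} (hy : 0 < y) : ‖jacobiTheta (y * I)‖ ≤ 2 + 2 / √y := by
  have hs := Real.sqrt_pos.mpr hy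
  rcases le_total 1 y with h | h
  · have := th_upper (τ := y * I) (by simp; linarith)
    have : 0 < 2 / √y := by positivity
    linarith
  · have h0 : 0 < ((y : ℂ) * I).im := by simpa using hy
    have h1 := th_S h0
    have h2 := th_upper (τ := -1 / (y * I)) (by
      rw [im_neg_inv]
      simp only [mul_im, ofReal_re, I_im, mul_one, ofReal_im, I_re, mul_zero, add_zero,
        Complex.norm_mul, norm_real, Real.norm_eq_abs, norm_I, sq_abs]
      rw [le_div_iff₀ (by positivity)]; nlinarith)
    rw [h1, norm_mul, norm_rt_eq] at h2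
    simp only [Complex.norm_mul, norm_real, Real.norm_eq_abs, norm_I, mul_one, abs_of_pos hy] at h2
    have : ‖jacobiTheta (y * I)‖ ≤ 2 / √y := by
      rw [le_div_iff₀ hs]; linarith
    linarith

lemma line_cont' {F : ℂ → ℂ} (hF : ∀ τ : ℂ, 0 < τ.im → DifferentiableAt ℂ F τ) {y : ℝ}
    (hy : 0 < y) : Continuous (fun t : ℝ => F (t + y * I)) := by
  rw [continuous_iff_continuousAt]
  intro t
  have h1 : ContinuousAt F ((t : ℂ) + y * I) := (hF _ (by simpa using hy)).continuousAt
  exact ContinuousAt.comp (f := fun t : ℝ => (t : ℂ) + y * I) h1 (by fun_prop)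

lemma th_L2 {y : ℝ} (hy : 0 < y) (X : ℝ) :
    ∫ t in X..(X + 2), ‖jacobiTheta (t + y * I)‖ ^ 2 ≤ 32 * (1 + 1 / √y) := by
  have hX : X ≤ X + 2 := by linarith
  set a : ℕ → ℂ := fun n => cexp (π * I * ((n : ℂ) + 1) ^ 2 * (y * I)) with ha
  have hsum : Summable fun n => ‖a n‖ :=
    summable_norm_iff.mpr (hasSum_nat_jacobiTheta (τ := y * I) (by simpa using hy)).summable
  have h1 := parseval (a := a) (k := fun n => ((n : ℤ) + 1) ^ 2) (by
    intro m n h
    simp only at h
    have := (pow_left_inj₀ (by positivity) (by positivity) two_ne_zero).mp h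
    omega) hsum X
  have e1 : ∀ t : ℝ, ∑' n, a n * cexp (π * I * ((((n : ℤ) + 1) ^ 2 : ℤ) : ℂ) * t) =
      (jacobiTheta (t + y * I) - 1) / 2 := by
    intro t
    rw [← (hasSum_nat_jacobiTheta (τ := t + y * I) (by simpa using hy)).tsum_eq]
    refine tsum_congr fun n => ?_
    simp only [ha]
    rw [← Complex.exp_add]; congr 1; push_cast; ring
  simp only [e1] at h1
  have h2 := (hasSum_nat_jacobiTheta (τ := (2 * y : ℝ) * I) (by simpa using hy)).mul_left 2
  have e2 : ∀ n : ℕ, 2 * cexp (π * I * ((n : ℂ) + 1) ^ 2 * ((2 * y : ℝ) * I)) =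
      ((2 * ‖a n‖ ^ 2 : ℝ) : ℂ) := by
    intro n
    have f1 : (π * I * ((n : ℂ) + 1) ^ 2 * (y * I)) = ((-(π * (n + 1) ^ 2 * y) : ℝ) : ℂ) := by
      push_cast; linear_combination (π * ((n : ℂ) + 1) ^ 2 * y) * I_mul_I
    have f2 : (π * I * ((n : ℂ) + 1) ^ 2 * ((2 * y : ℝ) * I)) =
        ((2 * -(π * (n + 1) ^ 2 * y) : ℝ) : ℂ) := by
      push_cast; linear_combination (2 * π * ((n : ℂ) + 1) ^ 2 * y) * I_mul_I
    simp only [ha]
    rw [f1, f2, Complex.norm_exp_ofReal, ← Real.exp_nat_mul, ← Complex.ofReal_exp]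
    push_cast; ring_nf
  simp only [e2] at h2
  have h3 := (Complex.hasSum_ofReal.mpr h1).unique h2
  set J := ∫ t in X..(X + 2), ‖(jacobiTheta (t + y * I) - 1) / 2‖ ^ 2 with hJ
  have h4 : J ≤ 3 + 2 / √y := by
    have a1 : J ≤ ‖(J : ℂ)‖ := by rw [Complex.norm_real]; exact le_abs_self _
    have a2 : 2 * ((jacobiTheta ((2 * y : ℝ) * I) - 1) / 2) = jacobiTheta ((2 * y : ℝ) * I) - 1 := by
      ring
    rw [h3, a2] at a1
    have a3 := norm_sub_le (jacobiTheta ((2 * y : ℝ) * I)) 1
    have a4 := th_imag (y := 2 * y) (by positivity)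
    have a5 : 2 / √(2 * y) ≤ 2 / √y := by gcongr; linarith
    rw [norm_one] at a3
    linarith
  have hc := line_cont' (F := jacobiTheta) (fun τ h => differentiableAt_jacobiTheta h) hy
  have h5 : ∫ t in X..(X + 2), ‖jacobiTheta (t + y * I)‖ ^ 2 ≤
      ∫ t in X..(X + 2), (8 * ‖(jacobiTheta (t + y * I) - 1) / 2‖ ^ 2 + 2) := by
    apply intervalIntegral.integral_mono_on hX (Continuous.intervalIntegrable (by fun_prop) _ _)
      (Continuous.intervalIntegrable (by fun_prop) _ _)
    intro t _
    rw [norm_div, Complex.norm_two]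
    have := norm_sub_norm_le (jacobiTheta (t + y * I)) 1
    rw [norm_one] at this
    have b := norm_nonneg (jacobiTheta (t + y * I))
    have c := norm_nonneg (jacobiTheta (t + y * I) - 1)
    nlinarith [sq_nonneg (‖jacobiTheta (t + y * I) - 1‖ - 1)]
  rw [intervalIntegral.integral_add (Continuous.intervalIntegrable (by fun_prop) _ _)
    (Continuous.intervalIntegrable (by fun_prop) _ _), intervalIntegral.integral_const_mul,
    intervalIntegral.integral_const, ← hJ] at h5
  have : 0 < 1 / √y := by positivity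
  have e : 2 / √y = 2 * (1 / √y) := by ring
  simp only [add_sub_cancel_left, smul_eq_mul] at h5
  linarith

lemma qexp {F : ℂ → ℂ} (hF : ∀ τ : ℂ, 0 < τ.im → DifferentiableAt ℂ F τ)
    (hper : ∀ τ : ℂ, F (τ + 2) = F τ) {M : ℝ} (hM : ∀ τ : ℂ, 1 ≤ τ.im → ‖F τ‖ ≤ M) :
    ∃ c : ℕ → ℂ, ∀ τ : ℂ, 0 < τ.im → HasSum (fun n : ℕ => c n * cexp (π * I * n * τ)) (F τ) := by
  have per : Function.Periodic F ((2 : ℝ) : ℂ) := fun τ => by simpa using hper τ
  have hd : DifferentiableOn ℂ (Function.Periodic.cuspFunction 2 F) (Metric.ball 0 1) := by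
    intro q hq
    apply DifferentiableAt.differentiableWithinAt
    by_cases h0 : q = 0
    · rw [h0]
      refine Function.Periodic.differentiableAt_cuspFunction_zero two_pos per
        ((ev_iff _).mpr ⟨1, fun z hz => hF z (by linarith)⟩) ?_
      exact Asymptotics.IsBigO.of_bound M ((ev_iff _).mpr ⟨1, fun z hz => by simpa using hM z hz⟩)
    · rw [← Function.Periodic.qParam_right_inv two_ne_zero h0]
      refine Function.Periodic.differentiableAt_cuspFunction two_ne_zero per (hF _ ?_)
      rw [Function.Periodic.im_invQParam]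
      have h1 : Real.log ‖q‖ < 0 :=
        Real.log_neg (norm_pos_iff.mpr h0) (by simpa using hq)
      have := Real.pi_pos
      have h2 : -2 / (2 * π) < 0 := by
        apply div_neg_of_neg_of_pos (by norm_num) (by positivity)
      exact mul_pos_of_neg_of_neg h2 h1
  refine ⟨fun n => ((n.factorial : ℂ))⁻¹ * iteratedDeriv n (Function.Periodic.cuspFunction 2 F) 0,
    fun τ h => ?_⟩
  have h1 := Complex.hasSum_taylorSeries_on_ball hd (z := Function.Periodic.qParam 2 τ)
    (by simpa using Function.Periodic.norm_qParam_lt_one two_pos h)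
  rw [Function.Periodic.eq_cuspFunction two_ne_zero per] at h1
  refine (congrArg (fun f => HasSum f (F τ)) (funext fun n => ?_)).mp h1
  rw [sub_zero, Function.Periodic.qParam, ← Complex.exp_nat_mul, smul_eq_mul, smul_eq_mul]
  have : (n : ℂ) * (2 * π * I * τ / ((2 : ℝ) : ℂ)) = π * I * n * τ := by push_cast; ring
  rw [this]; ring

theorem F_L2 {F : ℂ → ℂ} (hF : ∀ τ : ℂ, 0 < τ.im → DifferentiableAt ℂ F τ)
    (hper : ∀ τ : ℂ, F (τ + 2) = F τ) {B : ℝ} (hB : 0 ≤ B)
    (hb : ∀ τ : ℂ, 0 < τ.im → ‖F τ‖ ^ 2 ≤ B * (1 / √τ.im + ‖jacobiTheta τ‖ ^ 2)) :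
    ∃ c : ℕ → ℂ, (∀ τ : ℂ, 0 < τ.im → HasSum (fun n : ℕ => c n * cexp (π * I * n * τ)) (F τ)) ∧
      ∃ B' : ℝ, 0 ≤ B' ∧
      (∀ y : ℝ, 0 < y → ∀ X : ℝ, ∫ t in X..(X + 2), ‖F (t + y * I)‖ ^ 2 ≤ B' * (1 + 1 / √y)) ∧
      ∀ y δ : ℝ, 0 < y → 0 < δ → ∀ X : ℝ,
        ∫ t in X..(X + 2), ‖F (t + y * I + δ * I) - F (t + y * I)‖ ^ 2 ≤
          (δ / y) ^ 2 * (B' * (1 + 1 / √y)) := by
  have hpi := Real.pi_pos
  obtain ⟨c, hc⟩ := qexp hF hper (M := √(B * (1 + (5 / 3) ^ 2))) (by
    intro τ h
    apply Real.le_sqrt_of_sq_le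
    refine (hb τ (by linarith)).trans ?_
    have a := th_upper (τ := τ) (by linarith)
    have b : 1 / √τ.im ≤ 1 := by
      rw [div_le_one (Real.sqrt_pos.mpr (by linarith))]; exact Real.one_le_sqrt.mpr h
    gcongr)
  have L1 : ∀ y : ℝ, 0 < y → ∀ X : ℝ,
      ∫ t in X..(X + 2), ‖F (t + y * I)‖ ^ 2 ≤ 34 * B * (1 + 1 / √y) := by
    intro y hy X
    have hX : X ≤ X + 2 := by linarith
    have c1 := line_cont' hF hy
    have c2 := line_cont' (F := jacobiTheta) (fun τ h => differentiableAt_jacobiTheta h) hy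
    have h5 : ∫ t in X..(X + 2), ‖F (t + y * I)‖ ^ 2 ≤
        ∫ t in X..(X + 2), B * (1 / √y + ‖jacobiTheta (t + y * I)‖ ^ 2) := by
      apply intervalIntegral.integral_mono_on hX ((c1.norm.pow 2).intervalIntegrable _ _)
        (Continuous.intervalIntegrable (by fun_prop) _ _)
      intro t _
      simpa using hb (t + y * I) (by simpa using hy)
    rw [intervalIntegral.integral_const_mul, intervalIntegral.integral_add
      (Continuous.intervalIntegrable (by fun_prop) _ _)
      (Continuous.intervalIntegrable (by fun_prop) _ _), intervalIntegral.integral_const] at h5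
    have h6 := th_L2 hy X
    have : 0 < 1 / √y := by positivity
    simp only [add_sub_cancel_left, smul_eq_mul] at h5
    refine h5.trans ?_
    rw [mul_comm 34 B, mul_assoc]
    gcongr
    linarith
  have nrm : ∀ (n : ℕ) (y : ℝ), ‖cexp (π * I * n * (y * I))‖ = rexp (-(π * n * y)) := by
    intro n y
    have : (π * I * n * (y * I) : ℂ) = ((-(π * n * y) : ℝ) : ℂ) := by
      push_cast; linear_combination (π * (n : ℂ) * y) * I_mul_I
    rw [this, Complex.norm_exp_ofReal]
  have sm : ∀ y : ℝ, 0 < y → Summable fun n : ℕ => ‖c n * cexp (π * I * n * (y * I))‖ :=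
    fun y hy => summable_norm_iff.mpr (hc (y * I) (by simpa using hy)).summable
  have ev : ∀ (y : ℝ), 0 < y → ∀ t : ℝ, HasSum (fun n : ℕ => c n * cexp (π * I * n * (y * I)) *
      cexp (π * I * (((n : ℕ) : ℤ) : ℂ) * t)) (F (t + y * I)) := by
    intro y hy t
    refine (congrArg (fun f => HasSum f (F (t + y * I))) (funext fun n => ?_)).mpr
      (hc (t + y * I) (by simpa using hy))
    rw [mul_assoc, ← Complex.exp_add]; congr 2; push_cast; ring
  refine ⟨c, hc, 68 * B, by positivity, fun y hy X => (L1 y hy X).trans ?_, fun y δ hy hδ X => ?_⟩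
  · gcongr; norm_num
  · have p1 := parseval (k := fun n : ℕ => (n : ℤ)) Nat.cast_injective (sm (y / 2) (by positivity)) X
    simp only [(ev (y / 2) (by positivity) _).tsum_eq] at p1
    have p2 := parseval (k := fun n : ℕ => (n : ℤ))
      (a := fun n : ℕ => c n * cexp (π * I * n * ((y + δ : ℝ) * I)) - c n * cexp (π * I * n * (y * I)))
      Nat.cast_injective
      (Summable.of_nonneg_of_le (fun n => norm_nonneg _) (fun n => norm_sub_le _ _)
        ((sm (y + δ) (by positivity)).add (sm y hy))) X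
    have e : ∀ t : ℝ, ∑' n : ℕ, (c n * cexp (π * I * n * ((y + δ : ℝ) * I)) -
        c n * cexp (π * I * n * (y * I))) * cexp (π * I * (((n : ℕ) : ℤ) : ℂ) * t) =
        F (t + y * I + δ * I) - F (t + y * I) := by
      intro t
      have := ((ev (y + δ) (by positivity) t).sub (ev y hy t)).tsum_eq
      have e2 : (t : ℂ) + (y + δ : ℝ) * I = t + y * I + δ * I := by push_cast; ring
      rw [e2] at this
      rw [← this]
      refine tsum_congr fun n => ?_
      ring
    simp only [e] at p2
    have h3 := hasSum_le (fun n => ?_) p2 (p1.mul_left ((δ / y) ^ 2))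
    · refine h3.trans ?_
      gcongr
      refine (L1 (y / 2) (by positivity) X).trans ?_
      have : 1 / √(y / 2) ≤ 2 * (1 / √y) := by
        rw [mul_one_div, div_le_div_iff₀ (by positivity) (by positivity), one_mul]
        apply Real.sqrt_le_iff.mpr
        refine ⟨by positivity, ?_⟩
        rw [mul_pow, Real.sq_sqrt (by positivity)]; linarith
      have h4 : 0 < 1 / √y := by positivity
      nlinarith
    · have e3 : c n * cexp (π * I * n * ((y + δ : ℝ) * I)) - c n * cexp (π * I * n * (y * I)) =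
          c n * cexp (π * I * n * ((y / 2 : ℝ) * I)) *
            (((rexp (-(π * n * (y / 2))) * (rexp (-(π * n * δ)) - 1) : ℝ)) : ℂ) := by
        have f : ∀ u : ℝ, cexp (π * I * n * (u * I)) = ((rexp (-(π * n * u)) : ℝ) : ℂ) := by
          intro u
          rw [Complex.ofReal_exp]; congr 1
          push_cast; linear_combination (π * (n : ℂ) * u) * I_mul_I
        rw [f, f, f, mul_assoc (c n), ← mul_sub]
        congr 1
        rw [← ofReal_sub, ← ofReal_mul]
        congr 1
        rw [mul_sub, mul_sub, mul_one, ← Real.exp_add, ← Real.exp_add, ← Real.exp_add]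
        congr 2 <;> ring
      rw [e3, norm_mul, mul_pow, Complex.norm_real, Real.norm_eq_abs, sq_abs]
      have h5 : (rexp (-(π * n * (y / 2))) * (rexp (-(π * n * δ)) - 1)) ^ 2 ≤ (δ / y) ^ 2 := by
        rw [← neg_sq, ← mul_neg]
        have a1 : 0 ≤ π * n * δ := by positivity
        have a2 : -(rexp (-(π * n * δ)) - 1) ≤ π * n * δ := by
          linarith [Real.add_one_le_exp (-(π * n * δ))]
        have a3 : 0 ≤ -(rexp (-(π * n * δ)) - 1) := by
          have : rexp (-(π * n * δ)) ≤ 1 := by rw [Real.exp_le_one_iff]; linarith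
          linarith
        apply pow_le_pow_left₀ (by positivity)
        refine (mul_le_mul_of_nonneg_left a2 (Real.exp_pos _).le).trans ?_
        rw [le_div_iff₀ hy, Real.exp_neg]
        have a4 : π * n * y ≤ rexp (π * n * (y / 2)) := by
          have b1 := Real.add_one_le_exp (π * n * (y / 4))
          have b2 : rexp (π * n * (y / 2)) = rexp (π * n * (y / 4)) ^ 2 := by
            rw [← Real.exp_nat_mul]; congr 1; push_cast; ring
          have b3 : 0 ≤ π * n * (y / 4) := by positivity
          have b4 := pow_le_pow_left₀ (by positivity) b1 2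
          rw [b2]
          nlinarith [sq_nonneg (π * n * (y / 4) - 1)]
        have a5 := Real.exp_pos (π * n * (y / 2))
        calc (rexp (π * n * (y / 2)))⁻¹ * (π * n * δ) * y
            = (π * n * y) / rexp (π * n * (y / 2)) * δ := by field_simp
          _ ≤ 1 * δ := by gcongr; rw [div_le_one a5]; exact a4
          _ = δ := one_mul _
      have h6 := sq_nonneg ‖c n * cexp (π * I * n * ((y / 2 : ℝ) * I))‖
      nlinarith

end Pool.Agent.H989Z.FU
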