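import Pool.Agent.H989Z.FU.Theta

set_option autoImplicit false
open Complex Filter Topology
open scoped Real

namespace Pool.Agent.H989Z.FU

@[ext] structure Mat where
  a : ℤ
  b : ℤ
  c : ℤ
  d : ℤ
  det : a * d - b * c = 1
  pac : (a + c) % 2 = 1
  pbd : (b + d) % 2 = 1
  pcd : (c + d) % 2 = 1

def mulS : Mat ≃ Mat where
  toFun g := ⟨g.b, -g.a, g.d, -g.c, by linear_combination g.det, g.pbd,
    by have := g.pac; omega, by have := g.pcd; omega⟩
  invFun g := ⟨-g.b, g.a, -g.d, g.c, by linear_combination g.det, by have := g.pbd; omega,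
    g.pac, by have := g.pcd; omega⟩
  left_inv g := by ext <;> simp
  right_inv g := by ext <;> simp

def mulT : Mat ≃ Mat where
  toFun g := ⟨g.a, g.b + 2 * g.a, g.c, g.d + 2 * g.c, by linear_combination g.det, g.pac,
    by have := g.pbd; omega, by have := g.pcd; omega⟩
  invFun g := ⟨g.a, g.b - 2 * g.a, g.c, g.d - 2 * g.c, by linear_combination g.det, g.pac,
    by have := g.pbd; omega, by have := g.pcd; omega⟩
  left_inv g := by ext <;> simp
  right_inv g := by ext <;> simp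

noncomputable def chi (n : ℤ) : ℂ := if n % 4 = 1 then 1 else if n % 4 = 3 then -1 else 0

noncomputable def kap (ε : ℂ) (c d : ℤ) : ℂ := chi d + I * ε * chi c

lemma norm_chi (n : ℤ) : ‖chi n‖ ≤ 1 := by
  unfold chi; split_ifs <;> simp

lemma norm_kap {ε : ℂ} (hε : ε = 1 ∨ ε = -1) (c d : ℤ) : ‖kap ε c d‖ ≤ 2 := by
  unfold kap
  have h1 := norm_chi c
  have h2 := norm_chi d
  have h3 : ‖ε‖ = 1 := by rcases hε with rfl | rfl <;> simp
  refine (norm_add_le _ _).trans ?_
  rw [norm_mul, norm_mul, h3, norm_I]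
  linarith

lemma chi_neg (n : ℤ) : chi (-n) = -chi n := by
  unfold chi
  split_ifs <;> first | omega | simp

lemma kap_S {ε : ℂ} (hε : ε = 1 ∨ ε = -1) (c d : ℤ) : kap ε d (-c) = I * ε * kap ε c d := by
  unfold kap
  rw [chi_neg]
  have := I_mul_I
  rcases hε with rfl | rfl
  · linear_combination (-chi c) * this
  · linear_combination (-chi c) * this

lemma kap_T (ε : ℂ) {c d : ℤ} (h : (c + d) % 2 = 1) : kap ε c (d + 2 * c) = kap ε c d := by
  unfold kap
  congr 1
  unfold chi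
  split_ifs <;> first | omega | rfl

noncomputable def term (φ : ℂ → ℂ) (ε : ℂ) (g : Mat) (τ : ℂ) : ℂ :=
  kap ε g.c g.d * (((g.c : ℂ) * τ + g.d) ^ 3)⁻¹ * φ ((g.a * τ + g.b) / (g.c * τ + g.d))

lemma den_ne (g : Mat) {τ : ℂ} (h : 0 < τ.im) : (g.c : ℂ) * τ + g.d ≠ 0 := by
  intro h0
  have h1 := congrArg Complex.im h0
  have h2 := congrArg Complex.re h0
  simp at h1 h2
  rcases h1 with h1 | h1
  · rw [h1] at h2
    simp at h2
    have := g.det
    rw [h1, h2] at this
    simp at this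
  · exact h.ne' h1

lemma act_im (g : Mat) (τ : ℂ) :
    (((g.a : ℂ) * τ + g.b) / (g.c * τ + g.d)).im = τ.im / ‖(g.c : ℂ) * τ + g.d‖ ^ 2 := by
  rw [div_im, ← Complex.normSq_eq_norm_sq, ← sub_div]
  congr 1
  have : (g.a : ℝ) * g.d - g.b * g.c = 1 := by exact_mod_cast g.det
  simp
  linear_combination τ.im * this

lemma act_im_pos (g : Mat) {τ : ℂ} (h : 0 < τ.im) :
    0 < (((g.a : ℂ) * τ + g.b) / (g.c * τ + g.d)).im := by
  rw [act_im g τ]
  have := norm_pos_iff.mpr (den_ne g h)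
  positivity

lemma term_S (φ : ℂ → ℂ) {ε : ℂ} (hε : ε = 1 ∨ ε = -1) (g : Mat) {τ : ℂ} (h : 0 < τ.im) :
    term φ ε g (-1 / τ) = -ε * (-I * τ) ^ 3 * term φ ε (mulS g) τ := by
  have h0 := ne_zero_of_im h
  have h1 := den_ne (mulS g) h
  unfold term
  simp only [mulS, Equiv.coe_fn_mk, Int.cast_neg] at h1 ⊢
  rw [kap_S hε]
  have e1 : (g.c : ℂ) * (-1 / τ) + g.d = (g.d * τ + -g.c) / τ := by field_simp; ring
  have e2 : ((g.a : ℂ) * (-1 / τ) + g.b) / ((g.d * τ + -g.c) / τ) =
      (g.b * τ + -g.a) / (g.d * τ + -g.c) := by field_simp; ring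
  rw [e1, e2, div_pow, inv_div, div_eq_mul_inv]
  have e3 : -ε * (-I) ^ 3 * (I * ε) = 1 := by
    have h4 := I_pow_four
    rcases hε with rfl | rfl
    · linear_combination h4
    · linear_combination h4
  linear_combination (-(kap ε g.c g.d * τ ^ 3 * (((g.d : ℂ) * τ + -g.c) ^ 3)⁻¹ *
    φ ((g.b * τ + -g.a) / (g.d * τ + -g.c)))) * e3

lemma term_T (φ : ℂ → ℂ) (ε : ℂ) (g : Mat) (τ : ℂ) :
    term φ ε g (τ + 2) = term φ ε (mulT g) τ := by
  unfold term
  simp only [mulT, Equiv.coe_fn_mk]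
  rw [kap_T ε g.pcd]
  push_cast
  congr 3
  · congr 1; ring
  · ring
  · ring

noncomputable def wt (g : Mat) : ℝ := if |g.a| < |g.c| then ‖![g.c, g.d]‖ ^ (-(3 : ℝ)) else 0

lemma wt_nonneg (g : Mat) : 0 ≤ wt g := by
  unfold wt; split_ifs <;> positivity

lemma summable_wt : Summable wt := by
  have h1 := EisensteinSeries.summable_one_div_norm_rpow (k := 3) (by norm_num)
  have inj : Function.Injective (fun g : {g : Mat // |g.a| < |g.c|} => ![g.1.c, g.1.d]) := by
    rintro ⟨g, hg⟩ ⟨g', hg'⟩ h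
    have hc : g.c = g'.c := by simpa using congrFun h 0
    have hd : g.d = g'.d := by simpa using congrFun h 1
    have d1 := g.det
    have d2 := g'.det
    rw [← hc, ← hd] at d2
    rw [← hc] at hg'
    have hk : g.a - g'.a = (g.a * (g'.b - g.b) + g.b * (g.a - g'.a)) * (-g.c) := by
      linear_combination (-(g.a - g'.a) + g.a) * d1 - g.a * d2
    have hk2 : g.b - g'.b = (g.a * (g'.b - g.b) + g.b * (g.a - g'.a)) * (-g.d) := by
      linear_combination (-(g.b - g'.b) + g.b) * d1 - g.b * d2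
    set k := g.a * (g'.b - g.b) + g.b * (g.a - g'.a) with hkd
    have hc0 : 0 < |g.c| := (abs_nonneg _).trans_lt hg
    have hk3 : |k| < 2 := by
      have h2 : |k| * |g.c| < 2 * |g.c| := by
        rw [← abs_neg g.c, ← abs_mul, ← hk, abs_neg]
        have := abs_sub g.a g'.a
        linarith
      exact lt_of_mul_lt_mul_right h2 hc0.le
    have p1 := g.pac
    have p2 := g'.pac
    have p3 := g.pbd
    have p4 := g'.pbd
    have p5 := g.pcd
    rw [← hc] at p2
    rw [← hd] at p4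
    have hk0 : k = 0 := by
      have : k = -1 ∨ k = 0 ∨ k = 1 := by
        have := abs_lt.mp hk3
        omega
      rcases this with h | h | h
      · rw [h] at hk hk2; omega
      · exact h
      · rw [h] at hk hk2; omega
    rw [hk0] at hk hk2
    apply Subtype.ext
    ext
    · simp only; omega
    · simp only; omega
    · exact hc
    · exact hd
  have h2 := h1.comp_injective inj
  have h3 := (summable_subtype_iff_indicator (f := fun g : Mat => ‖![g.c, g.d]‖ ^ (-(3 : ℝ)))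
    (s := {g : Mat | |g.a| < |g.c|})).mp h2
  refine h3.congr fun g => ?_
  simp [wt, Set.indicator_apply]

noncomputable def termX (φ : ℂ → ℂ) (ε : ℂ) (g : Mat) (τ : ℂ) : ℂ :=
  if |g.a| < |g.c| then term φ ε g τ else 0

lemma norm_pair_le (g : Mat) {τ : ℂ} (h : 0 < τ.im) :
    ‖![g.c, g.d]‖ ≤ ‖(g.c : ℂ) * τ + g.d‖ * (1 + (1 + ‖τ‖) / τ.im) := by
  set N := ‖(g.c : ℂ) * τ + g.d‖ with hN
  have hN0 : 0 ≤ N := norm_nonneg _
  have h1 : |(g.c : ℝ)| * τ.im ≤ N := by
    have := Complex.abs_im_le_norm ((g.c : ℂ) * τ + g.d)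
    simpa [abs_mul, abs_of_pos h] using this
  have h1' : |(g.c : ℝ)| ≤ N / τ.im := by rwa [le_div_iff₀ h]
  have h2 : |(g.d : ℝ)| ≤ N + |(g.c : ℝ)| * ‖τ‖ := by
    have := norm_sub_le ((g.c : ℂ) * τ + g.d) ((g.c : ℂ) * τ)
    simpa using this
  have h3 : |(g.c : ℝ)| * ‖τ‖ ≤ N / τ.im * ‖τ‖ := by gcongr
  have e : N * (1 + (1 + ‖τ‖) / τ.im) = N + N / τ.im + N / τ.im * ‖τ‖ := by ring
  have h4 : 0 ≤ N / τ.im := by positivity
  have h5 : 0 ≤ N / τ.im * ‖τ‖ := by positivity
  rw [e, pi_norm_le_iff_of_nonneg (by positivity)]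
  intro i
  fin_cases i
  · simp only [Fin.zero_eta, Matrix.cons_val_zero, Int.norm_eq_abs]; linarith
  · simp only [Fin.mk_one, Matrix.cons_val_one, Matrix.cons_val_fin_one, Int.norm_eq_abs]; linarith

lemma norm_termX {φ : ℂ → ℂ} {ε : ℂ} (hε : ε = 1 ∨ ε = -1) {M : ℝ}
    (h1 : ∀ w : ℂ, 0 < w.im → ‖w‖ ≤ 1 → ‖φ w‖ ≤ M)
    (h2 : ∀ w : ℂ, 0 < w.im → ‖φ w‖ ≤ M * (1 + 1 / w.im) ^ 5) (g : Mat) {τ : ℂ} (h : 0 < τ.im) :
    ‖termX φ ε g τ‖ ≤ 2 * M * ((1 + 1 / τ.im) ^ 5 * (1 + (1 + ‖τ‖) / τ.im) ^ 3) * wt g := by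
  have hM : 0 ≤ M := (norm_nonneg _).trans (h1 I (by simp) (by simp))
  unfold termX wt
  split_ifs with hg
  · have hden := den_ne g h
    have hN : 0 < ‖(g.c : ℂ) * τ + g.d‖ := norm_pos_iff.mpr hden
    have hφ : ‖φ ((g.a * τ + g.b) / (g.c * τ + g.d))‖ ≤ M * (1 + 1 / τ.im) ^ 5 := by
      by_cases hc : 1 ≤ ‖(g.c : ℂ) * τ + g.d‖
      · refine (h1 _ (act_im_pos g h) ?_).trans ?_
        · have hc0 : (g.c : ℂ) ≠ 0 := by
            have : g.c ≠ 0 := by rintro h0; rw [h0] at hg; simp at hg; linarith [abs_nonneg g.a]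
            exact_mod_cast this
          have hdet : (g.a : ℂ) * g.d - g.b * g.c = 1 := by exact_mod_cast g.det
          have e : ((g.a : ℂ) * τ + g.b) / (g.c * τ + g.d) =
              (g.a - 1 / (g.c * τ + g.d)) / g.c := by
            rw [eq_div_iff hc0, eq_sub_iff_add_eq, div_mul_eq_mul_div, ← add_div, div_eq_iff hden]
            linear_combination -hdet
          rw [e, norm_div, div_le_one (norm_pos_iff.mpr hc0)]
          refine (norm_sub_le _ _).trans ?_
          have h3 : ‖1 / ((g.c : ℂ) * τ + g.d)‖ ≤ 1 := by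
            rw [norm_div, norm_one, div_le_one hN]; exact hc
          have h4 : |(g.a : ℝ)| + 1 ≤ |(g.c : ℝ)| := by exact_mod_cast hg
          simp only [Complex.norm_intCast]
          linarith
        · apply le_mul_of_one_le_right hM
          apply one_le_pow₀
          have : 0 < 1 / τ.im := by positivity
          linarith
      · push Not at hc
        refine (h2 _ (act_im_pos g h)).trans ?_
        have h3 : τ.im ≤ (((g.a : ℂ) * τ + g.b) / (g.c * τ + g.d)).im := by
          rw [act_im g τ, le_div_iff₀ (by positivity)]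
          apply mul_le_of_le_one_right h.le
          exact pow_le_one₀ hN.le hc.le
        have h4 := act_im_pos g h
        gcongr
    have hP := norm_pair_le g h
    have hP0 : 0 < ‖![g.c, g.d]‖ := by
      rw [norm_pos_iff]
      intro h0
      have : g.c = 0 := by simpa using congrFun h0 0
      rw [this] at hg; simp at hg; linarith [abs_nonneg g.a]
    set L := 1 + (1 + ‖τ‖) / τ.im
    have hL : 0 < L := by positivity
    have hinv : ‖(((g.c : ℂ) * τ + g.d) ^ 3)⁻¹‖ ≤ L ^ 3 * ‖![g.c, g.d]‖ ^ (-(3 : ℝ)) := by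
      rw [Real.rpow_neg hP0.le, norm_inv, norm_pow, ← div_eq_mul_inv, inv_eq_one_div,
        div_le_div_iff₀ (by positivity) (by positivity), one_mul, ← mul_pow]
      have : ‖![g.c, g.d]‖ ^ (3 : ℝ) = ‖![g.c, g.d]‖ ^ (3 : ℕ) := by
        rw [← Real.rpow_natCast]; norm_num
      rw [this, mul_comm L]
      gcongr
    unfold term
    rw [norm_mul, norm_mul]
    calc _ ≤ 2 * (L ^ 3 * ‖![g.c, g.d]‖ ^ (-(3 : ℝ))) * (M * (1 + 1 / τ.im) ^ 5) := by
          gcongr
          exact norm_kap hε _ _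
      _ = _ := by ring
  · simp

def m1 : Mat := ⟨1, 0, 0, 1, by norm_num, by norm_num, by norm_num, by norm_num⟩
def m2 : Mat := ⟨-1, 0, 0, -1, by norm_num, by norm_num, by norm_num, by norm_num⟩
def m3 : Mat := ⟨0, -1, 1, 0, by norm_num, by norm_num, by norm_num, by norm_num⟩
def m4 : Mat := ⟨0, 1, -1, 0, by norm_num, by norm_num, by norm_num, by norm_num⟩

lemma cols (g : Mat) (h1 : g ≠ m1) (h2 : g ≠ m2) (h3 : g ≠ m3) (h4 : g ≠ m4) :
    |g.b| < |g.d| ↔ |g.a| < |g.c| := by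
  have hdet := g.det
  have p1 := g.pac
  have p2 := g.pbd
  have n1 : |g.a| ≠ |g.c| := by
    intro h; rcases abs_eq_abs.mp h with h | h <;> omega
  have n2 : |g.b| ≠ |g.d| := by
    intro h; rcases abs_eq_abs.mp h with h | h <;> omega
  have t1 : |g.a| * |g.d| ≤ |g.b| * |g.c| + 1 := by
    rw [← abs_mul, ← abs_mul]
    have : g.a * g.d = g.b * g.c + 1 := by linarith
    rw [this]
    exact (abs_add_le _ _).trans (by simp)
  have t2 : |g.b| * |g.c| ≤ |g.a| * |g.d| + 1 := by
    rw [← abs_mul, ← abs_mul]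
    have : g.b * g.c = g.a * g.d + -1 := by linarith
    rw [this]
    exact (abs_add_le _ _).trans (by simp)
  have a0 := abs_nonneg g.a
  have b0 := abs_nonneg g.b
  have c0 := abs_nonneg g.c
  have d0 := abs_nonneg g.d
  constructor
  · intro h
    by_contra hc
    have hc' : |g.c| + 1 ≤ |g.a| := by omega
    have hb' : |g.b| + 1 ≤ |g.d| := by omega
    have : (|g.c| + 1) * (|g.b| + 1) ≤ |g.a| * |g.d| := by gcongr
    have hb : g.b = 0 := by
      have : |g.b| ≤ 0 := by nlinarith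
      exact abs_nonpos_iff.mp this
    have hcc : g.c = 0 := by
      have : |g.c| ≤ 0 := by nlinarith
      exact abs_nonpos_iff.mp this
    rw [hb, hcc] at hdet
    simp only [mul_zero, sub_zero] at hdet
    rcases Int.eq_one_or_neg_one_of_mul_eq_one' hdet with ⟨ha, hd⟩ | ⟨ha, hd⟩
    · exact h1 (by ext <;> simp [m1, *])
    · exact h2 (by ext <;> simp [m2, *])
  · intro h
    by_contra hc
    have hc' : |g.d| + 1 ≤ |g.b| := by omega
    have hb' : |g.a| + 1 ≤ |g.c| := by omega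
    have : (|g.d| + 1) * (|g.a| + 1) ≤ |g.b| * |g.c| := by gcongr
    have ha : g.a = 0 := by
      have : |g.a| ≤ 0 := by nlinarith
      exact abs_nonpos_iff.mp this
    have hd : g.d = 0 := by
      have : |g.d| ≤ 0 := by nlinarith
      exact abs_nonpos_iff.mp this
    rw [ha, hd] at hdet
    have hdet' : (-g.b) * g.c = 1 := by linarith
    rcases Int.eq_one_or_neg_one_of_mul_eq_one' hdet' with ⟨hb, hcc⟩ | ⟨hb, hcc⟩
    · have : g.b = -1 := by omega
      exact h3 (by ext <;> simp [m3, *])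
    · have : g.b = 1 := by omega
      exact h4 (by ext <;> simp [m4, *])

theorem poincare (φ : ℂ → ℂ) {ε : ℂ} (hε : ε = 1 ∨ ε = -1)
    (hd : ∀ w : ℂ, 0 < w.im → DifferentiableAt ℂ φ w) {M : ℝ}
    (h1 : ∀ w : ℂ, 0 < w.im → ‖w‖ ≤ 1 → ‖φ w‖ ≤ M)
    (h2 : ∀ w : ℂ, 0 < w.im → ‖φ w‖ ≤ M * (1 + 1 / w.im) ^ 5) :
    ∃ Φ : ℂ → ℂ, (∀ τ : ℂ, 0 < τ.im → DifferentiableAt ℂ Φ τ) ∧ (∀ τ : ℂ, Φ (τ + 2) = Φ τ) ∧
      (∀ τ : ℂ, 0 < τ.im →
        (-I * τ) ^ 3 * Φ τ + ε * Φ (-1 / τ) = (-I * τ) ^ 3 * φ τ + ε * φ (-1 / τ)) ∧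
      ∃ C, 0 ≤ C ∧ ∀ τ : ℂ, 0 < τ.im →
        ‖Φ τ‖ ≤ C * ((1 + 1 / τ.im) ^ 5 * (1 + (1 + ‖τ‖) / τ.im) ^ 3) := by
  classical
  have hM : 0 ≤ M := (norm_nonneg _).trans (h1 I (by simp) (by simp))
  have hs : ∀ τ : ℂ, 0 < τ.im → Summable (fun g => termX φ ε g τ) := fun τ h =>
    Summable.of_norm_bounded (summable_wt.mul_left _) (fun g => norm_termX hε h1 h2 g h)
  refine ⟨fun τ => -(1 / 2) * ∑' g, termX φ ε g τ, ?_, ?_, ?_, ?_⟩
  · intro τ h
    apply DifferentiableAt.const_mul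
    set U : Set ℂ := {w | τ.im / 2 < w.im} ∩ {w | ‖w‖ < ‖τ‖ + 1} with hU
    have hUo : IsOpen U := (isOpen_lt continuous_const Complex.continuous_im).inter
      (isOpen_lt continuous_norm continuous_const)
    have hτU : τ ∈ U := ⟨by simp only [Set.mem_ofPred_eq]; linarith, by simp⟩
    refine (differentiableOn_tsum_of_summable_norm (summable_wt.mul_left
      (2 * M * ((1 + 1 / (τ.im / 2)) ^ 5 * (1 + (1 + (‖τ‖ + 1)) / (τ.im / 2)) ^ 3))) ?_ hUo
      ?_).differentiableAt (hUo.mem_nhds hτU)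
    · intro g w hw
      have hw0 : 0 < w.im := by have := hw.1; simp only [Set.mem_ofPred_eq] at this; linarith
      apply DifferentiableAt.differentiableWithinAt
      unfold termX
      split_ifs
      · unfold term
        have hden := den_ne g hw0
        have hA : DifferentiableAt ℂ (fun w : ℂ => (((g.c : ℂ) * w + g.d) ^ 3)⁻¹) w :=
          DifferentiableAt.inv (by fun_prop) (pow_ne_zero _ hden)
        refine DifferentiableAt.mul (hA.const_mul _) ?_
        exact DifferentiableAt.comp (g := φ)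
          (f := fun w : ℂ => ((g.a : ℂ) * w + g.b) / (g.c * w + g.d)) w (hd _ (act_im_pos g hw0))
          (DifferentiableAt.div (by fun_prop) (by fun_prop) hden)
      · fun_prop
    · intro g w hw
      have hw1 : τ.im / 2 < w.im := hw.1
      have hw2 : ‖w‖ < ‖τ‖ + 1 := hw.2
      have hw0 : 0 < w.im := by linarith
      refine (norm_termX hε h1 h2 g hw0).trans ?_
      have := wt_nonneg g
      gcongr
  · intro τ
    simp only
    congr 1
    rw [← mulT.tsum_eq (fun g => termX φ ε g τ)]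
    refine tsum_congr fun g => ?_
    unfold termX
    rw [term_T]
    rfl
  · intro τ h
    have hε2 : ε * ε = 1 := by rcases hε with rfl | rfl <;> simp
    have h0 := ne_zero_of_im h
    have e1 : ∑' g, termX φ ε g (-1 / τ) = -ε * (-I * τ) ^ 3 *
        ∑' g : Mat, (if |g.b| < |g.d| then term φ ε g τ else 0) := by
      rw [← mulS.tsum_eq (fun g : Mat => if |g.b| < |g.d| then term φ ε g τ else 0),
        ← tsum_mul_left]
      refine tsum_congr fun g => ?_
      unfold termX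
      rw [term_S φ hε g h]
      simp only [mulS, Equiv.coe_fn_mk, abs_neg]
      split_ifs <;> simp
    have hfin : HasSum (fun g : Mat => (if |g.b| < |g.d| then term φ ε g τ else 0) - termX φ ε g τ)
        (∑ g ∈ ({m1, m2, m3, m4} : Finset Mat),
          ((if |g.b| < |g.d| then term φ ε g τ else 0) - termX φ ε g τ)) := by
      apply hasSum_sum_of_ne_finset_zero
      intro g hg
      simp only [Finset.mem_insert, Finset.mem_singleton, not_or] at hg
      unfold termX
      simp only [cols g hg.1 hg.2.1 hg.2.2.1 hg.2.2.2, sub_self]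
    have e2 := (hfin.add (hs τ h).hasSum).tsum_eq
    simp only [sub_add_cancel] at e2
    have n12 : m1 ≠ m2 := fun h => by have := congrArg Mat.a h; simp [m1, m2] at this
    have n13 : m1 ≠ m3 := fun h => by have := congrArg Mat.a h; simp [m1, m3] at this
    have n14 : m1 ≠ m4 := fun h => by have := congrArg Mat.a h; simp [m1, m4] at this
    have n23 : m2 ≠ m3 := fun h => by have := congrArg Mat.a h; simp [m2, m3] at this
    have n24 : m2 ≠ m4 := fun h => by have := congrArg Mat.a h; simp [m2, m4] at this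
    have n34 : m3 ≠ m4 := fun h => by have := congrArg Mat.b h; simp [m3, m4] at this
    rw [Finset.sum_insert (by simp [n12, n13, n14]), Finset.sum_insert (by simp [n23, n24]),
      Finset.sum_pair n34] at e2
    have t1 : term φ ε m1 τ = φ τ := by simp [term, m1, kap, chi]
    have t2 : term φ ε m2 τ = φ τ := by simp [term, m2, kap, chi]; norm_num
    have t3 : term φ ε m3 τ = I * ε * (τ ^ 3)⁻¹ * φ (-1 / τ) := by simp [term, m3, kap, chi]
    have t4 : term φ ε m4 τ = I * ε * (τ ^ 3)⁻¹ * φ (-1 / τ) := by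
      have e : (1 : ℂ) / -τ = -1 / τ := by rw [div_neg, neg_div]
      have e' : (-τ) ^ 3 = -(τ ^ 3) := by ring
      simp only [term, m4, kap, chi, Int.cast_zero, Int.cast_neg, Int.cast_one, zero_mul, zero_add,
        add_zero, neg_mul, one_mul, e, e']
      norm_num
    have c1 : (if |m1.b| < |m1.d| then term φ ε m1 τ else 0) - termX φ ε m1 τ = φ τ := by
      rw [← t1]; simp [termX, m1]
    have c2 : (if |m2.b| < |m2.d| then term φ ε m2 τ else 0) - termX φ ε m2 τ = φ τ := by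
      rw [← t2]; simp [termX, m2]
    have c3 : (if |m3.b| < |m3.d| then term φ ε m3 τ else 0) - termX φ ε m3 τ =
        -(I * ε * (τ ^ 3)⁻¹ * φ (-1 / τ)) := by
      rw [← t3]; simp [termX, m3]
    have c4 : (if |m4.b| < |m4.d| then term φ ε m4 τ else 0) - termX φ ε m4 τ =
        -(I * ε * (τ ^ 3)⁻¹ * φ (-1 / τ)) := by
      rw [← t4]; simp [termX, m4]
    rw [c1, c2, c3, c4] at e2
    simp only
    rw [e1, e2]
    have e3 : (-I * τ) ^ 3 * (I * (τ ^ 3)⁻¹) = -1 := by
      have h4 := I_pow_four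
      field_simp
      linear_combination -h4
    set S := ∑' g, termX φ ε g τ
    set A := (-I * τ) ^ 3
    linear_combination (1 / 2 * A * (2 * φ τ - 2 * (I * ε * (τ ^ 3)⁻¹ * φ (-1 / τ)) + S)) * hε2
      - ε * φ (-1 / τ) * e3
  · refine ⟨M * ∑' g, wt g, mul_nonneg hM (tsum_nonneg wt_nonneg), fun τ h => ?_⟩
    have := tsum_of_norm_bounded (summable_wt.mul_left
      (2 * M * ((1 + 1 / τ.im) ^ 5 * (1 + (1 + ‖τ‖) / τ.im) ^ 3))).hasSum
      (fun g => norm_termX hε h1 h2 g h)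
    rw [tsum_mul_left] at this
    rw [norm_mul]
    have e : ‖(-(1 / 2) : ℂ)‖ = 1 / 2 := by simp
    rw [e]
    linarith

end Pool.Agent.H989Z.FU
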