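import Pool.Agent.H989Z.FU.Weak
import Pool.Agent.Helper76.HPlanch

set_option autoImplicit false
open Complex Filter Topology MeasureTheory FourierTransform
open scoped Real ENNReal

namespace Pool.Agent.H989Z.FU

noncomputable def PP (h : ℝ → ℂ) (z : ℂ) : ℂ := ∫ x : ℝ, h x * (x ^ 2 * cexp (π * I * z * x ^ 2))

noncomputable def Ph (h : ℝ → ℂ) (z : ℂ) : ℂ := ∫ x : ℝ, h x * cexp (π * I * z * x ^ 2)

noncomputable def AA (h : ℝ → ℂ) (y u : ℝ) : ℂ := h (√u) * ((√u * rexp (-(π * y * u)) : ℝ) : ℂ)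

lemma norm_gauss (z : ℂ) (x : ℝ) : ‖cexp (π * I * z * x ^ 2)‖ = rexp (-(π * x ^ 2 * z.im)) := by
  have : (π * I * z * x ^ 2 : ℂ) = ((π * x ^ 2 : ℝ) : ℂ) * I * z := by push_cast; ring
  rw [this, norm_exp_I_mul]

lemma norm_gauss_le {z : ℂ} (h : 0 ≤ z.im) (x : ℝ) : ‖cexp (π * I * z * x ^ 2)‖ ≤ 1 := by
  rw [norm_gauss, Real.exp_le_one_iff]
  have : 0 ≤ π * x ^ 2 * z.im := by have := Real.pi_pos; positivity
  linarith

lemma sq_exp_le {y : ℝ} (hy : 0 < y) (x : ℝ) : x ^ 2 * rexp (-(π * x ^ 2 * y)) ≤ 1 / y := by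
  have hpi := Real.pi_gt_three
  rw [Real.exp_neg, ← div_eq_mul_inv, div_le_div_iff₀ (Real.exp_pos _) hy, one_mul]
  have := Real.add_one_le_exp (π * x ^ 2 * y)
  have h2 : 0 ≤ x ^ 2 * y := by positivity
  nlinarith

lemma norm_sq_gauss {z : ℂ} {y : ℝ} (hy : 0 < y) (h : y ≤ z.im) (x : ℝ) :
    ‖(x : ℂ) ^ 2 * cexp (π * I * z * x ^ 2)‖ ≤ 1 / y := by
  rw [norm_mul, norm_gauss, norm_pow, Complex.norm_real, Real.norm_eq_abs, sq_abs]
  refine le_trans ?_ (sq_exp_le hy x)
  have := Real.pi_pos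
  gcongr

lemma hasDeriv_Ph {h : ℝ → ℂ} (hi : Integrable h) {z : ℂ} (hz : 0 < z.im) :
    HasDerivAt (Ph h) (π * I * PP h z) z := by
  have hm := hi.aestronglyMeasurable
  have := hasDerivAt_integral_of_dominated_loc_of_deriv_le (μ := volume)
    (F := fun (w : ℂ) (x : ℝ) => h x * cexp (π * I * w * x ^ 2))
    (F' := fun (w : ℂ) (x : ℝ) => π * I * (h x * (x ^ 2 * cexp (π * I * w * x ^ 2))))
    (x₀ := z) (bound := fun x => π * (‖h x‖ * (1 / (z.im / 2)))) (s := {w | z.im / 2 < w.im})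
    ((isOpen_lt continuous_const Complex.continuous_im).mem_nhds (by simp; linarith))
    (Eventually.of_forall fun w => hm.mul (Continuous.aestronglyMeasurable (by fun_prop)))
    (hi.mul_bdd (Continuous.aestronglyMeasurable (by fun_prop))
      (Eventually.of_forall fun x => norm_gauss_le hz.le x))
    ((hm.mul (Continuous.aestronglyMeasurable (by fun_prop))).const_mul _)
    (Eventually.of_forall fun x w hw => by
      rw [norm_mul, norm_mul (h x), norm_mul, norm_I, mul_one, Complex.norm_real,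
        Real.norm_eq_abs, abs_of_pos Real.pi_pos]
      have := Real.pi_pos
      gcongr
      exact norm_sq_gauss (by linarith) (le_of_lt hw) x)
    ((hi.norm.mul_const _).const_mul _)
    (Eventually.of_forall fun x w _ => by
      have h1 : HasDerivAt (fun w : ℂ => π * I * w * x ^ 2) (π * I * x ^ 2) w := by
        simpa using ((hasDerivAt_id w).const_mul (π * I : ℂ)).mul_const ((x : ℂ) ^ 2)
      have h2 := (h1.cexp).const_mul (h x)
      have e : π * I * (h x * (x ^ 2 * cexp (π * I * w * x ^ 2))) =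
        h x * (cexp (π * I * w * x ^ 2) * (π * I * x ^ 2)) := by ring
      rw [e]; exact h2)
  have h2 := this.2
  rw [integral_const_mul] at h2
  exact h2

lemma meas_PP {h : ℝ → ℂ} (hc : Continuous h) : Measurable (PP h) := by
  have : StronglyMeasurable (fun p : ℂ × ℝ => h p.2 * (p.2 ^ 2 * cexp (π * I * p.1 * p.2 ^ 2))) :=
    Continuous.stronglyMeasurable (by fun_prop)
  exact this.integral_prod_right'.measurable

lemma cont_AA {h : ℝ → ℂ} (hc : Continuous h) (y : ℝ) : Continuous (AA h y) := by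
  unfold AA; fun_prop

lemma sq_image : (fun x : ℝ => x ^ 2) '' Set.Ioi 0 = Set.Ioi 0 := by
  ext u
  constructor
  · rintro ⟨x, hx, rfl⟩
    have : 0 < x := hx
    exact Set.mem_Ioi.mpr (by positivity)
  · intro hu
    have : 0 < u := hu
    exact ⟨√u, Real.sqrt_pos.mpr this, Real.sq_sqrt this.le⟩

lemma sq_deriv : ∀ x ∈ Set.Ioi (0 : ℝ), HasDerivWithinAt (fun x : ℝ => x ^ 2) (2 * x) (Set.Ioi 0) x :=
  fun x _ => by simpa using (hasDerivAt_pow 2 x).hasDerivWithinAt

lemma sq_inj : Set.InjOn (fun x : ℝ => x ^ 2) (Set.Ioi 0) := fun _ ha _ hb h =>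
  (pow_left_inj₀ (le_of_lt ha) (le_of_lt hb) two_ne_zero).mp h

lemma AA_neg (h : ℝ → ℂ) (y : ℝ) {u : ℝ} (hu : u ∉ Set.Ioi (0 : ℝ)) : AA h y u = 0 := by
  unfold AA
  rw [Real.sqrt_eq_zero_of_nonpos (not_lt.mp hu)]; simp

lemma AA_sq (h : ℝ → ℂ) (y : ℝ) {x : ℝ} (hx : 0 ≤ x) :
    AA h y (x ^ 2) = h x * ((x * rexp (-(π * x ^ 2 * y)) : ℝ) : ℂ) := by
  unfold AA
  rw [Real.sqrt_sq hx]
  congr 4; ring

lemma int_AA {h : ℝ → ℂ} (hi : Integrable h) {y : ℝ} (hy : 0 < y) : Integrable (AA h y) := by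
  refine IntegrableOn.integrable_of_forall_notMem_eq_zero (s := Set.Ioi 0) ?_
    (fun u hu => AA_neg h y hu)
  rw [← sq_image, integrableOn_image_iff_integrableOn_abs_deriv_smul measurableSet_Ioi sq_deriv sq_inj]
  have h1 : Integrable (fun x : ℝ => h x * ((2 * (x ^ 2 * rexp (-(π * x ^ 2 * y))) : ℝ) : ℂ)) := by
    refine hi.mul_bdd (c := 2 * (1 / y)) (Continuous.aestronglyMeasurable (by fun_prop))
      (Eventually.of_forall fun x => ?_)
    rw [Complex.norm_real, Real.norm_eq_abs, abs_of_nonneg (by positivity)]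
    gcongr
    exact sq_exp_le hy x
  refine h1.integrableOn.congr_fun (fun x hx => ?_) measurableSet_Ioi
  have hx0 : 0 < x := hx
  simp only
  rw [AA_sq h y hx0.le, abs_of_pos (by positivity), Complex.real_smul]
  push_cast; ring

lemma PP_eq {h : ℝ → ℂ} (hi : Integrable h) (he : ∀ x, h (-x) = h x) (t : ℝ) {y : ℝ} (hy : 0 < y) :
    PP h (t + y * I) = 𝓕 (AA h y) (-t / 2) := by
  set k : ℝ → ℂ := fun x => h x * (x ^ 2 * cexp (π * I * (t + y * I) * x ^ 2)) with hk
  have ki : Integrable k := hi.mul_bdd (Continuous.aestronglyMeasurable (by fun_prop))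
    (Eventually.of_forall fun x => norm_sq_gauss hy (by simp) x)
  have e1 : PP h (t + y * I) = 2 * ∫ x in Set.Ioi (0 : ℝ), k x := by
    have a := intervalIntegral.integral_Iic_add_Ioi (b := 0) ki.integrableOn ki.integrableOn
    have b := integral_comp_neg_Ioi (0 : ℝ) k
    rw [neg_zero] at b
    have c : ∀ x, k (-x) = k x := by intro x; simp only [hk, he]; simp
    simp only [c] at b
    change ∫ x, k x = _
    rw [← a, ← b]; ring
  rw [e1, fourier_eq', ← setIntegral_eq_integral_of_forall_compl_eq_zero (s := Set.Ioi 0)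
    (f := fun u : ℝ => cexp (-2 * π * I * ((-t / 2 : ℝ) : ℂ) * u) * AA h y u)
    (fun u hu => by rw [AA_neg h y hu, mul_zero])]
  conv_rhs => rw [← sq_image]
  rw [integral_image_eq_integral_abs_deriv_smul measurableSet_Ioi sq_deriv sq_inj,
    ← integral_const_mul]
  refine setIntegral_congr_fun measurableSet_Ioi fun x hx => ?_
  have hx0 : 0 < x := hx
  simp only [hk]
  rw [AA_sq h y hx0.le, abs_of_pos (by positivity), Complex.real_smul]
  have : cexp (π * I * (t + y * I) * x ^ 2) =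
      cexp (-2 * π * I * ((-t / 2 : ℝ) : ℂ) * ((x ^ 2 : ℝ) : ℂ)) *
        ((rexp (-(π * x ^ 2 * y)) : ℝ) : ℂ) := by
    rw [Complex.ofReal_exp, ← Complex.exp_add]
    congr 1
    push_cast
    linear_combination (π * y * (x : ℂ) ^ 2) * I_mul_I
  rw [this]; push_cast; ring

lemma gamma_half {c : ℝ} (hc : 0 < c) :
    ∫ y in Set.Ioi (0 : ℝ), rexp (-(c * y)) / √y = √(π / c) := by
  have := Real.integral_rpow_mul_exp_neg_mul_Ioi (a := 1 / 2) (by norm_num) hc
  rw [Real.Gamma_one_half_eq, ← Real.sqrt_eq_rpow, ← Real.sqrt_mul (by positivity)] at this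
  have e : 1 / c * π = π / c := by ring
  rw [e] at this
  rw [← this]
  refine setIntegral_congr_fun measurableSet_Ioi fun y hy => ?_
  have hy0 : 0 < y := hy
  rw [Real.sqrt_eq_rpow, div_eq_mul_inv, mul_comm, ← Real.rpow_neg hy0.le]
  norm_num

lemma gamma_half_l {c : ℝ} (hc : 0 < c) :
    ∫⁻ y in Set.Ioi (0 : ℝ), ENNReal.ofReal (rexp (-(c * y)) / √y) = ENNReal.ofReal √(π / c) := by
  rw [← gamma_half hc, ofReal_integral_eq_lintegral_ofReal]
  · apply Integrable.of_integral_ne_zero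
    rw [gamma_half hc]
    have := Real.pi_pos
    positivity
  · exact Eventually.of_forall fun y => by positivity

lemma planch_le {A : ℝ → ℂ} (hi : Integrable A) :
    ∫⁻ ξ, ‖𝓕 A ξ‖ₑ ^ 2 ≤ ∫⁻ t, ‖A t‖ₑ ^ 2 := by
  by_cases h : ∫⁻ t, ‖A t‖ₑ ^ 2 = ∞
  · rw [h]; exact le_top
  · refine (Pool.Agent.Helper76.NormalHP.plancherel_lintegral A hi ⟨hi.1, ?_⟩).le
    rw [eLpNorm_lt_top_iff_lintegral_rpow_enorm_lt_top (by norm_num) (by norm_num)]
    simpa using lt_top_iff_ne_top.mpr h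

lemma ofReal_norm_sq (a : ℂ) : ENNReal.ofReal (‖a‖ ^ 2) = ‖a‖ₑ ^ 2 := by
  rw [ENNReal.ofReal_pow (norm_nonneg _), ofReal_norm]

lemma PL {h : ℝ → ℂ} (hc : Continuous h) (hi : Integrable h) (he : ∀ x, h (-x) = h x)
    (h2 : Integrable (fun x => (1 + x ^ 2) * ‖h x‖ ^ 2)) : Nu (PP h) ≠ ∞ := by
  have hpi := Real.pi_pos
  have mP := meas_PP hc
  unfold Nu
  rw [lintegral_H (by fun_prop)]
  have step : ∀ y ∈ Set.Ioi (0 : ℝ),
      ∫⁻ t : ℝ, ENNReal.ofReal (‖PP h (t + y * I)‖ ^ 2 / √((t : ℂ) + y * I).im) ≤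
      ∫⁻ x in Set.Ioi (0 : ℝ), ENNReal.ofReal (4 * x ^ 3 * ‖h x‖ ^ 2) *
        ENNReal.ofReal (rexp (-(2 * π * x ^ 2 * y)) / √y) := by
    intro y hy
    have hy0 : 0 < y := hy
    have e1 : ∀ t : ℝ, ENNReal.ofReal (‖PP h (t + y * I)‖ ^ 2 / √((t : ℂ) + y * I).im) =
        ENNReal.ofReal (2 / √y) * (ENNReal.ofReal (|-1 / 2|) * ‖𝓕 (AA h y) (-t / 2)‖ₑ ^ 2) := by
      intro t
      rw [PP_eq hi he t hy0, ← ofReal_norm_sq, ← ENNReal.ofReal_mul (by positivity),
        ← ENNReal.ofReal_mul (by positivity)]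
      congr 1
      simp only [add_im, ofReal_im, mul_im, ofReal_re, I_im, mul_one, I_re, mul_zero, add_zero,
        zero_add]
      norm_num
      ring
    simp only [e1]
    rw [lintegral_const_mul' _ _ ENNReal.ofReal_ne_top]
    have e2 := lintegral_image_eq_lintegral_abs_deriv_mul (s := Set.univ) (f := fun t : ℝ => -t / 2)
      (f' := fun _ => -1 / 2) MeasurableSet.univ
      (fun t _ => ((hasDerivAt_neg' t).div_const 2).hasDerivWithinAt)
      (fun a _ b _ hab => by simp only at hab; linarith) (fun ξ => ‖𝓕 (AA h y) ξ‖ₑ ^ 2)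
    have e3 : (fun t : ℝ => -t / 2) '' Set.univ = Set.univ := by
      apply Set.eq_univ_of_forall
      intro u; exact ⟨-2 * u, trivial, by ring⟩
    rw [e3, Measure.restrict_univ] at e2
    rw [← e2]
    refine (mul_le_mul_right (planch_le (int_AA hi hy0)) _).trans (le_of_eq ?_)
    rw [← setLIntegral_eq_of_support_subset (s := Set.Ioi 0) (fun u hu => by
      by_contra hc
      exact hu (by simp [AA_neg h y hc]))]
    conv_lhs => rw [← sq_image]
    rw [lintegral_image_eq_lintegral_abs_deriv_mul measurableSet_Ioi sq_deriv sq_inj,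
      ← lintegral_const_mul' _ _ ENNReal.ofReal_ne_top]
    refine setLIntegral_congr_fun measurableSet_Ioi fun x hx => ?_
    have hx0 : 0 < x := hx
    rw [AA_sq h y hx0.le, ← ofReal_norm_sq, ← ENNReal.ofReal_mul (by positivity),
      ← ENNReal.ofReal_mul (by positivity), ← ENNReal.ofReal_mul (by positivity)]
    congr 1
    rw [norm_mul, Complex.norm_real, Real.norm_eq_abs, mul_pow, sq_abs, abs_of_pos (by positivity),
      mul_pow, ← Real.exp_nat_mul]
    have : ((2 : ℕ) : ℝ) * -(π * x ^ 2 * y) = -(2 * π * x ^ 2 * y) := by push_cast; ring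
    rw [this]; ring
  refine ne_top_of_le_ne_top ?_ (setLIntegral_mono' measurableSet_Ioi step)
  rw [lintegral_lintegral_swap (by fun_prop)]
  have fin : ∫⁻ x, ENNReal.ofReal (4 * ((1 + x ^ 2) * ‖h x‖ ^ 2)) ≠ ∞ :=
    (lintegral_ofReal_ne_top_iff_integrable (h2.const_mul 4).1
      (Eventually.of_forall fun x => by positivity)).mpr (h2.const_mul 4)
  refine ne_top_of_le_ne_top fin (le_trans ?_ (setLIntegral_le_lintegral (Set.Ioi 0) _))
  refine setLIntegral_mono' measurableSet_Ioi fun x hx => ?_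
  have hx0 : 0 < x := hx
  rw [lintegral_const_mul' _ _ ENNReal.ofReal_ne_top, gamma_half_l (by positivity),
    ← ENNReal.ofReal_mul (by positivity)]
  apply ENNReal.ofReal_le_ofReal
  have : √(π / (2 * π * x ^ 2)) ≤ 1 / x := by
    apply Real.sqrt_le_iff.mpr
    refine ⟨by positivity, ?_⟩
    rw [div_pow, one_pow, div_le_div_iff₀ (by positivity) (by positivity)]
    nlinarith [sq_nonneg x]
  calc _ ≤ 4 * x ^ 3 * ‖h x‖ ^ 2 * (1 / x) := by gcongr
    _ = 4 * (x ^ 2 * ‖h x‖ ^ 2) := by field_simp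
    _ ≤ _ := by gcongr; linarith

end Pool.Agent.H989Z.FU
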