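import Pool.Agent.H989Z.FU.Rep1

set_option autoImplicit false
open Complex Filter Topology MeasureTheory FourierTransform
open scoped Real ENNReal

namespace Pool.Agent.H989Z.FU

lemma four_gauss {w : ℂ} (hw : 0 < w.im) (ξ : ℝ) :
    𝓕 (fun x : ℝ => cexp (π * I * w * x ^ 2)) ξ = cexp (π * I * (-1 / w) * ξ ^ 2) / rt w := by
  have h0 := ne_zero_of_im hw
  have h := congrFun (fourier_gaussian_pi (b := -I * w) (by simpa using hw)) ξ
  have e : (fun x : ℝ => cexp (π * I * w * x ^ 2)) = fun x : ℝ => cexp (-π * (-I * w) * x ^ 2) := by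
    funext x; congr 1; ring
  rw [e, h]
  unfold rt
  have : (-π / (-I * w) : ℂ) = π * I * (-1 / w) := by
    field_simp
    linear_combination I_mul_I
  rw [this]; ring

lemma int_gauss {w : ℂ} (hw : 0 < w.im) : Integrable (fun x : ℝ => cexp (π * I * w * x ^ 2)) := by
  have := integrable_cexp_neg_mul_sq (b := -(π * I * w)) (by
    have := Real.pi_pos
    simp; positivity)
  simpa only [neg_neg] using this

lemma mult_formula {f h : ℝ → ℂ} (hf : Integrable f) (hh : Integrable h) :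
    ∫ x, 𝓕 f x * h x = ∫ x, f x * 𝓕 h x := by
  simpa using! (VectorFourier.integral_fourierIntegral_smul_eq_flip (L := innerₗ ℝ)
    Real.continuous_fourierChar continuous_inner hf hh)

lemma Ph_S {f : ℝ → ℂ} (hf : Integrable f) {w : ℂ} (hw : 0 < w.im) :
    Ph f (-1 / w) = rt w * Ph (𝓕 f) w := by
  have hr := rt_ne (ne_zero_of_im hw)
  unfold Ph
  rw [mult_formula hf (int_gauss hw), ← integral_const_mul]
  refine integral_congr_ae (Eventually.of_forall fun x => ?_)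
  simp only
  rw [four_gauss hw]; field_simp

lemma hasDeriv_rt {w : ℂ} (hw : 0 < w.im) : HasDerivAt rt (rt w / (2 * w)) w := by
  have h0 := ne_zero_of_im hw
  have hr := rt_ne h0
  have h1 := (diff_rt (Or.inl hw)).hasDerivAt
  have h2 := h1.pow 2
  have h3 : HasDerivAt (fun w : ℂ => -I * w) (-I) w := by
    simpa using (hasDerivAt_id w).const_mul (-I)
  have e : rt ^ 2 = fun w => -I * w := by funext z; simp only [Pi.pow_apply]; exact rt_sq z
  rw [e] at h2
  have h4 := h2.unique h3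
  have h5 := rt_sq w
  have : deriv rt w = rt w / (2 * w) := by
    rw [eq_div_iff (by simpa using h0)]
    apply mul_left_cancel₀ hr
    norm_num at h4
    linear_combination w * h4 - h5
  rwa [this] at h1

lemma PP_S {f : ℝ → ℂ} (hf : Integrable f) (hg : Integrable (𝓕 f)) {w : ℂ} (hw : 0 < w.im) :
    PP f (-1 / w) = w ^ 2 * rt w * (PP (𝓕 f) w + Ph (𝓕 f) w / w / (2 * π * I)) := by
  have h0 := ne_zero_of_im hw
  have hS : HasDerivAt (fun z : ℂ => -1 / z) (1 / w ^ 2) w := by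
    have := (hasDerivAt_inv h0).const_mul (-1 : ℂ)
    simpa [div_eq_mul_inv] using this
  have h1 := (hasDeriv_Ph hf (im_neg_inv_pos hw)).comp w hS
  have h2 := (hasDeriv_rt hw).mul (hasDeriv_Ph hg hw)
  have e : (Ph f ∘ fun z : ℂ => -1 / z) =ᶠ[𝓝 w] rt * Ph (𝓕 f) := by
    filter_upwards [isOpen_H.mem_nhds hw] with z hz
    exact Ph_S hf hz
  have h3 := (h2.congr_of_eventuallyEq e).unique h1
  have hp : (π : ℂ) ≠ 0 := by exact_mod_cast Real.pi_ne_zero
  have hI := I_ne_zero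
  field_simp at h3 ⊢
  linear_combination -h3

lemma hardy_pt {g : ℝ → ℂ} (hc : Continuous g) (hi : Integrable g) (h0 : ∫ x, g x = 0) {w : ℂ}
    (hw : 0 < w.im) : ‖Ph g w / w‖ₑ ≤ ∫⁻ s in Set.Ioc (0 : ℝ) 1, ‖π * I * PP g (s * w)‖ₑ := by
  by_cases ht : ∫⁻ s in Set.Ioc (0 : ℝ) 1, ‖π * I * PP g (s * w)‖ₑ = ∞
  · rw [ht]; exact le_top
  have mP := meas_PP hc
  have w0 := ne_zero_of_im hw
  have i1 : IntegrableOn (fun s : ℝ => π * I * PP g (s * w)) (Set.Ioc 0 1) :=
    ⟨Measurable.aestronglyMeasurable (by fun_prop), lt_top_iff_ne_top.mpr ht⟩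
  have c1 : ContinuousOn (fun s : ℝ => Ph g (s * w)) (Set.Icc 0 1) := by
    refine continuousOn_of_dominated (bound := fun x => ‖g x‖)
      (fun s _ => Continuous.aestronglyMeasurable (by fun_prop))
      (fun s hs => Eventually.of_forall fun x => ?_) hi.norm
      (Eventually.of_forall fun x => Continuous.continuousOn (by fun_prop))
    rw [norm_mul]
    refine mul_le_of_le_one_right (norm_nonneg _) (norm_gauss_le ?_ x)
    have := hs.1
    simp; positivity
  have key := intervalIntegral.integral_eq_sub_of_hasDerivAt_of_le (a := 0) (b := 1)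
    (f := fun s : ℝ => Ph g (s * w) / w) (f' := fun s : ℝ => π * I * PP g (s * w)) zero_le_one
    (c1.div_const w)
    (fun s hs => by
      have hs0 := hs.1
      have a := hasDeriv_Ph hi (z := s * w) (by simp; positivity)
      have b : HasDerivAt (fun u : ℂ => u * w) w (s : ℂ) := by
        simpa using (hasDerivAt_id (s : ℂ)).mul_const w
      have c := ((a.comp (s : ℂ) b).div_const w).comp_ofReal
      rw [mul_div_cancel_right₀ _ w0] at c
      exact c)
    ((intervalIntegrable_iff_integrableOn_Ioc_of_le zero_le_one).mpr i1)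
  have z : Ph g (((0 : ℝ) : ℂ) * w) = 0 := by
    unfold Ph; simpa using h0
  rw [z, zero_div, sub_zero, ofReal_one, one_mul, intervalIntegral.integral_of_le zero_le_one] at key
  rw [← key]
  exact enorm_integral_le_lintegral_enorm _

lemma lint_rpow : ∫⁻ s in Set.Ioc (0 : ℝ) 1, ENNReal.ofReal (s ^ (-(3 / 4) : ℝ)) ≠ ∞ :=
  ((intervalIntegral.intervalIntegrable_rpow' (a := 0) (b := 1) (r := -(3 / 4))
    (by norm_num)).1).lintegral_lt_top.ne

lemma cs_w {a : ℝ → ℝ≥0∞} (ha : Measurable a) :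
    (∫⁻ s in Set.Ioc (0 : ℝ) 1, a s) ^ 2 ≤
      (∫⁻ s in Set.Ioc (0 : ℝ) 1, ENNReal.ofReal (s ^ (-(3 / 4) : ℝ))) *
      ∫⁻ s in Set.Ioc (0 : ℝ) 1, ENNReal.ofReal (s ^ ((3 / 4) : ℝ)) * a s ^ 2 := by
  have h := ENNReal.lintegral_mul_le_Lp_mul_Lq (volume.restrict (Set.Ioc (0 : ℝ) 1))
    Real.HolderConjugate.two_two (f := fun s => ENNReal.ofReal (s ^ (-(3 / 8) : ℝ)))
    (g := fun s => ENNReal.ofReal (s ^ ((3 / 8) : ℝ)) * a s) (by fun_prop) (by fun_prop)
  have e1 : ∫⁻ s in Set.Ioc (0 : ℝ) 1, a s = ∫⁻ s in Set.Ioc (0 : ℝ) 1,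
      ((fun s : ℝ => ENNReal.ofReal (s ^ (-(3 / 8) : ℝ))) *
        fun s : ℝ => ENNReal.ofReal (s ^ ((3 / 8) : ℝ)) * a s) s := by
    refine setLIntegral_congr_fun measurableSet_Ioc fun s hs => ?_
    have := hs.1
    simp only [Pi.mul_apply]
    rw [← mul_assoc, ← ENNReal.ofReal_mul (by positivity), ← Real.rpow_add this]
    simp
  have e2 : ∫⁻ s in Set.Ioc (0 : ℝ) 1, ENNReal.ofReal (s ^ (-(3 / 8) : ℝ)) ^ (2 : ℝ) =
      ∫⁻ s in Set.Ioc (0 : ℝ) 1, ENNReal.ofReal (s ^ (-(3 / 4) : ℝ)) := by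
    refine setLIntegral_congr_fun measurableSet_Ioc fun s hs => ?_
    have := hs.1
    rw [ENNReal.ofReal_rpow_of_nonneg (by positivity) (by norm_num), ← Real.rpow_mul this.le]
    norm_num
  have e3 : ∫⁻ s in Set.Ioc (0 : ℝ) 1, (ENNReal.ofReal (s ^ ((3 / 8) : ℝ)) * a s) ^ (2 : ℝ) =
      ∫⁻ s in Set.Ioc (0 : ℝ) 1, ENNReal.ofReal (s ^ ((3 / 4) : ℝ)) * a s ^ 2 := by
    refine setLIntegral_congr_fun measurableSet_Ioc fun s hs => ?_
    have := hs.1
    rw [ENNReal.mul_rpow_of_nonneg _ _ (by norm_num),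
      ENNReal.ofReal_rpow_of_nonneg (by positivity) (by norm_num), ← Real.rpow_mul this.le,
      ENNReal.rpow_two]
    norm_num
  rw [← e1, e2, e3, ← ENNReal.mul_rpow_of_nonneg _ _ (by norm_num)] at h
  refine (pow_le_pow_left₀ zero_le h 2).trans (le_of_eq ?_)
  rw [← ENNReal.rpow_two, ← ENNReal.rpow_mul]
  norm_num

lemma Nu_scale (Φ : ℂ → ℂ) {s : ℝ} (hs : 0 < s) :
    ∫⁻ z in H, ENNReal.ofReal (‖Φ (s * z)‖ ^ 2 / √z.im) =
      ENNReal.ofReal (s ^ (-(3 / 2) : ℝ)) * Nu Φ := by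
  unfold Nu
  rw [cv_scale hs (fun z => ENNReal.ofReal (‖Φ z‖ ^ 2 / √z.im)),
    ← lintegral_const_mul' _ _ ENNReal.ofReal_ne_top]
  refine setLIntegral_congr_fun measH fun z hz => ?_
  have h : 0 < z.im := hz
  rw [← ENNReal.ofReal_mul (by positivity), ← ENNReal.ofReal_mul (by positivity)]
  congr 1
  have e : ((s : ℂ) * z).im = s * z.im := by simp
  have e2 : s ^ (-(3 / 2) : ℝ) = √s / s ^ 2 := by
    rw [Real.sqrt_eq_rpow, ← Real.rpow_natCast, ← Real.rpow_sub hs]; norm_num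
  have := Real.sqrt_pos.mpr hs
  have := Real.sqrt_pos.mpr h
  rw [e, Real.sqrt_mul hs.le, e2]
  field_simp

lemma hardy {g : ℝ → ℂ} (hc : Continuous g) (hi : Integrable g) (h0 : ∫ x, g x = 0)
    (hN : Nu (PP g) ≠ ∞) : Nu (fun w => Ph g w / w) ≠ ∞ := by
  have mP := meas_PP hc
  have hpi := Real.pi_pos
  set J := ∫⁻ s in Set.Ioc (0 : ℝ) 1, ENNReal.ofReal (s ^ (-(3 / 4) : ℝ)) with hJ
  have J0 : J ≠ ∞ := lint_rpow
  have step : ∀ z ∈ H, ENNReal.ofReal (‖Ph g z / z‖ ^ 2 / √z.im) ≤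
      J * ∫⁻ s in Set.Ioc (0 : ℝ) 1, ENNReal.ofReal (π ^ 2 * s ^ ((3 / 4) : ℝ)) *
        ENNReal.ofReal (‖PP g (s * z)‖ ^ 2 / √z.im) := by
    intro z hz
    have h : 0 < z.im := hz
    have a := (pow_le_pow_left₀ zero_le (hardy_pt hc hi h0 h) 2).trans (cs_w (by fun_prop))
    rw [div_eq_mul_inv (‖Ph g z / z‖ ^ 2), ENNReal.ofReal_mul (by positivity), ofReal_norm_sq]
    refine (mul_le_mul_left a _).trans (le_of_eq ?_)
    rw [mul_assoc, ← lintegral_mul_const' _ _ ENNReal.ofReal_ne_top]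
    congr 1
    refine setLIntegral_congr_fun measurableSet_Ioc fun s hs => ?_
    have := hs.1
    rw [← ofReal_norm_sq, ← ENNReal.ofReal_mul (by positivity), ← ENNReal.ofReal_mul (by positivity),
      ← ENNReal.ofReal_mul (by positivity)]
    congr 1
    rw [norm_mul, norm_mul, norm_I, Complex.norm_real, Real.norm_eq_abs, abs_of_pos hpi]
    ring
  refine ne_top_of_le_ne_top ?_ (setLIntegral_mono' measH step)
  rw [lintegral_const_mul' _ _ J0, lintegral_lintegral_swap (by fun_prop)]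
  refine ENNReal.mul_ne_top J0 ?_
  have e : ∫⁻ s in Set.Ioc (0 : ℝ) 1, ∫⁻ z in H, ENNReal.ofReal (π ^ 2 * s ^ ((3 / 4) : ℝ)) *
      ENNReal.ofReal (‖PP g (s * z)‖ ^ 2 / √z.im) = ∫⁻ s in Set.Ioc (0 : ℝ) 1,
      ENNReal.ofReal (s ^ (-(3 / 4) : ℝ)) * (ENNReal.ofReal (π ^ 2) * Nu (PP g)) := by
    refine setLIntegral_congr_fun measurableSet_Ioc fun s hs => ?_
    have := hs.1
    rw [lintegral_const_mul' _ _ ENNReal.ofReal_ne_top, Nu_scale _ this, ← mul_assoc, ← mul_assoc,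
      ← ENNReal.ofReal_mul (by positivity), ← ENNReal.ofReal_mul (by positivity), mul_assoc (π ^ 2),
      ← Real.rpow_add this, mul_comm (π ^ 2)]
    norm_num
  rw [e, lintegral_mul_const' _ _ (ENNReal.mul_ne_top ENNReal.ofReal_ne_top hN)]
  exact ENNReal.mul_ne_top J0 (ENNReal.mul_ne_top ENNReal.ofReal_ne_top hN)

end Pool.Agent.H989Z.FU
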