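import Mathlib

set_option autoImplicit false
open Complex Filter Topology
open scoped Real

namespace Pool.Agent.H989Z.FU

/-- The principal square root of `-i τ`. -/
noncomputable def rt (τ : ℂ) : ℂ := (-I * τ) ^ (1 / 2 : ℂ)

noncomputable def p2 (σ : ℂ) : ℂ := jacobiTheta₂ (σ / 2) σ

noncomputable def th2 (σ : ℂ) : ℂ := cexp (π * I * σ / 4) * p2 σ

lemma ne_zero_of_im {τ : ℂ} (h : 0 < τ.im) : τ ≠ 0 := by
  rintro rfl; simp at h

lemma im_neg_inv (τ : ℂ) : (-1 / τ).im = τ.im / ‖τ‖ ^ 2 := by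
  rw [neg_div, neg_im, one_div, inv_im, Complex.normSq_eq_norm_sq]; ring

lemma im_neg_inv_pos {τ : ℂ} (h : 0 < τ.im) : 0 < (-1 / τ).im := by
  rw [im_neg_inv]
  have := norm_pos_iff.mpr (ne_zero_of_im h)
  positivity

lemma neg_inv_neg_inv (τ : ℂ) : -1 / (-1 / τ) = τ := by
  by_cases h : τ = 0
  · simp [h]
  · field_simp

lemma rt_sq (τ : ℂ) : rt τ ^ 2 = -I * τ := by
  have := Complex.cpow_nat_inv_pow (-I * τ) (n := 2) (by norm_num)
  simpa [rt] using this

lemma rt_ne {τ : ℂ} (h : τ ≠ 0) : rt τ ≠ 0 := by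
  intro h0
  have := rt_sq τ
  rw [h0] at this
  simp [h] at this

lemma norm_rt_sq (τ : ℂ) : ‖rt τ‖ ^ 2 = ‖τ‖ := by
  rw [← norm_pow, rt_sq]; simp

lemma norm_rt_eq (τ : ℂ) : ‖rt τ‖ = √‖τ‖ := by
  rw [← norm_rt_sq τ, Real.sqrt_sq (norm_nonneg _)]

lemma diff_rt {τ : ℂ} (h : 0 < τ.im ∨ τ.re ≠ 0) : DifferentiableAt ℂ rt τ := by
  unfold rt
  apply DifferentiableAt.cpow (by fun_prop) (by fun_prop)
  rcases h with h | h
  · left; simpa using h
  · right; simpa using h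

lemma th_S {τ : ℂ} (h : 0 < τ.im) : jacobiTheta (-1 / τ) = rt τ * jacobiTheta τ := by
  have h1 := rt_ne (ne_zero_of_im h)
  rw [jacobiTheta_eq_jacobiTheta₂, jacobiTheta_eq_jacobiTheta₂ τ,
    jacobiTheta₂_functional_equation 0 τ]
  simp only [zero_div, ne_eq, OfNat.ofNat_ne_zero, not_false_eq_true, zero_pow, mul_zero,
    Complex.exp_zero, mul_one]
  change _ = rt τ * (1 / rt τ * _)
  field_simp

lemma th_add_two (τ : ℂ) : jacobiTheta (τ + 2) = jacobiTheta τ := by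
  rw [add_comm, jacobiTheta_two_add]

lemma th_half (w : ℂ) : jacobiTheta₂ (1 / 2) w = jacobiTheta (w + 1) := by
  unfold jacobiTheta₂ jacobiTheta jacobiTheta₂_term
  refine tsum_congr fun n => ?_
  obtain ⟨k, hk⟩ : ∃ k : ℤ, n ^ 2 - n = 2 * k := by
    have : Even (n ^ 2 - n) := by
      have := Int.even_mul_pred_self n
      have e : n * (n - 1) = n ^ 2 - n := by ring
      rwa [e] at this
    obtain ⟨k, hk⟩ := this
    exact ⟨k, by omega⟩
  have hk' : (n : ℂ) ^ 2 = n + 2 * k := by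
    have : ((n ^ 2 - n : ℤ) : ℂ) = ((2 * k : ℤ) : ℂ) := by rw [hk]
    push_cast at this
    linear_combination this
  have : (π * I * (n : ℂ) ^ 2 * (w + 1)) =
      (2 * π * I * n * (1 / 2) + π * I * n ^ 2 * w) + k * (2 * π * I) := by
    have e : (π * I * (n : ℂ) ^ 2 * (w + 1)) = π * I * n ^ 2 * w + π * I * (n : ℂ) ^ 2 := by ring
    rw [e]
    linear_combination (π * I) * hk'
  rw [this, Complex.exp_add _ (k * _), Complex.exp_int_mul_two_pi_mul_I, mul_one]

lemma th_cusp {σ : ℂ} (h : 0 < σ.im) : jacobiTheta (1 - 1 / σ) = rt σ * th2 σ := by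
  have h0 := ne_zero_of_im h
  have h1 := rt_ne h0
  unfold th2 p2
  rw [jacobiTheta₂_functional_equation (σ / 2) σ]
  have e1 : σ / 2 / σ = 1 / 2 := by field_simp
  have e2 : (1 - 1 / σ) = -1 / σ + 1 := by ring
  rw [e1, th_half, e2]
  change _ = rt σ * (_ * (1 / rt σ * _ * _))
  have e3 : cexp (π * I * σ / 4) * cexp (-π * I * (σ / 2) ^ 2 / σ) = 1 := by
    rw [← Complex.exp_add]
    have : π * I * σ / 4 + -π * I * (σ / 2) ^ 2 / σ = 0 := by field_simp; ring
    rw [this, Complex.exp_zero]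
  calc _ = (cexp (π * I * σ / 4) * cexp (-π * I * (σ / 2) ^ 2 / σ)) * jacobiTheta (-1 / σ + 1) := by
        rw [e3, one_mul]
    _ = _ := by field_simp

lemma p2_add_one (σ : ℂ) : p2 (σ + 1) = p2 σ := by
  unfold p2 jacobiTheta₂ jacobiTheta₂_term
  refine tsum_congr fun n => ?_
  obtain ⟨k, hk⟩ : ∃ k : ℤ, n ^ 2 + n = 2 * k := by
    have : Even (n ^ 2 + n) := by
      have := Int.even_mul_succ_self n
      have e : n * (n + 1) = n ^ 2 + n := by ring
      rwa [e] at this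
    obtain ⟨k, hk⟩ := this
    exact ⟨k, by omega⟩
  have hk' : (n : ℂ) ^ 2 + n = 2 * k := by
    have : ((n ^ 2 + n : ℤ) : ℂ) = ((2 * k : ℤ) : ℂ) := by rw [hk]
    push_cast at this
    linear_combination this
  have : (2 * π * I * n * ((σ + 1) / 2) + π * I * (n : ℂ) ^ 2 * (σ + 1)) =
      (2 * π * I * n * (σ / 2) + π * I * n ^ 2 * σ) + k * (2 * π * I) := by
    linear_combination (π * I) * hk'
  rw [this, Complex.exp_add _ (k * _), Complex.exp_int_mul_two_pi_mul_I, mul_one]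

/-- The eighth root of unity. -/
noncomputable def zeta : ℂ := cexp (π * I / 4)

lemma zeta_ne : zeta ≠ 0 := Complex.exp_ne_zero _

lemma zeta_pow_four : zeta ^ 4 = -1 := by
  unfold zeta
  rw [← Complex.exp_nat_mul]
  have : ((4 : ℕ) : ℂ) * (π * I / 4) = π * I := by push_cast; ring
  rw [this, Complex.exp_pi_mul_I]

lemma norm_zeta : ‖zeta‖ = 1 := by
  unfold zeta
  have : (π * I / 4 : ℂ) = ((π / 4 : ℝ) : ℂ) * I := by push_cast; ring
  rw [this, Complex.norm_exp_ofReal_mul_I]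

lemma th2_add_one (σ : ℂ) : th2 (σ + 1) = zeta * th2 σ := by
  unfold th2 zeta
  rw [p2_add_one, ← mul_assoc, ← Complex.exp_add]
  congr 2; ring

lemma diff_p2 {σ : ℂ} (h : 0 < σ.im) : DifferentiableAt ℂ p2 σ := by
  have h1 := (hasFDerivAt_jacobiTheta₂ (σ / 2) h).differentiableAt
  have h2 : DifferentiableAt ℂ (fun s : ℂ => (s / 2, s)) σ := by fun_prop
  exact DifferentiableAt.comp (g := fun p : ℂ × ℂ => jacobiTheta₂ p.1 p.2)
    (f := fun s : ℂ => (s / 2, s)) σ h1 h2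

lemma diff_th2 {σ : ℂ} (h : 0 < σ.im) : DifferentiableAt ℂ th2 σ := by
  unfold th2
  exact DifferentiableAt.mul (by fun_prop) (diff_p2 h)

lemma norm_p2_sub {σ : ℂ} (h : 0 < σ.im) :
    ‖p2 σ - 2‖ ≤ 2 * (rexp (-2 * π * σ.im) / (1 - rexp (-2 * π * σ.im))) := by
  set r := rexp (-2 * π * σ.im) with hr
  have hr0 : 0 < r := Real.exp_pos _
  have hr1 : r < 1 := by
    rw [hr, Real.exp_lt_one_iff]
    have := Real.pi_pos
    nlinarith
  have hs := (hasSum_jacobiTheta₂_term (σ / 2) h).nat_add_neg_add_one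
  set t : ℕ → ℂ := fun n => cexp (π * I * ((n : ℂ) ^ 2 + n) * σ) with ht
  have e : (fun n : ℕ => jacobiTheta₂_term (n : ℤ) (σ / 2) σ +
      jacobiTheta₂_term (-((n : ℤ) + 1)) (σ / 2) σ) = fun n => 2 * t n := by
    funext n
    simp only [jacobiTheta₂_term, ht]
    push_cast
    rw [two_mul (cexp _)]
    congr 2 <;> ring
  rw [e] at hs
  have hs2 := (hasSum_nat_add_iff' 1).mpr hs
  simp only [Finset.sum_range_one, ht, Nat.cast_zero, ne_eq, OfNat.ofNat_ne_zero,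
    not_false_eq_true, zero_pow, add_zero, mul_zero, zero_mul, Complex.exp_zero, mul_one] at hs2
  have hb : ∀ n : ℕ, ‖2 * cexp (π * I * (((n + 1 : ℕ) : ℂ) ^ 2 + ((n + 1 : ℕ) : ℂ)) * σ)‖ ≤
      2 * (r * r ^ n) := by
    intro n
    rw [norm_mul, Complex.norm_two, Complex.norm_exp]
    gcongr
    rw [← pow_succ', hr, ← Real.exp_nat_mul]
    apply Real.exp_le_exp.mpr
    have : (π * I * (((n + 1 : ℕ) : ℂ) ^ 2 + ((n + 1 : ℕ) : ℂ)) * σ) =
        ((π * (((n + 1 : ℕ) : ℝ) ^ 2 + ((n + 1 : ℕ) : ℝ)) : ℝ) : ℂ) * (σ * I) := by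
      push_cast; ring
    rw [this, re_ofReal_mul, mul_I_re]
    have h1 : (1 : ℝ) ≤ ((n + 1 : ℕ) : ℝ) := by exact_mod_cast Nat.succ_pos n
    set m : ℝ := ((n + 1 : ℕ) : ℝ)
    have := Real.pi_pos
    have h2 : 0 ≤ π * σ.im * (m ^ 2 - m) := by
      apply mul_nonneg (by positivity); nlinarith
    nlinarith
  have hg : HasSum (fun n : ℕ => 2 * (r * r ^ n)) (2 * (r / (1 - r))) := by
    have := ((hasSum_geometric_of_lt_one hr0.le hr1).mul_left r).mul_left 2
    simpa [div_eq_mul_inv] using this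
  exact hs2.norm_le_of_bounded hg hb

lemma exp_neg_half_pi : rexp (-(π / 2)) ≤ 1 / 4 := by
  rw [Real.exp_neg, inv_eq_one_div]
  apply one_div_le_one_div_of_le (by norm_num)
  have h1 : (3 : ℝ) < π := Real.pi_gt_three
  have h2 : rexp (π / 2) = rexp 1 * rexp (π / 2 - 1) := by rw [← Real.exp_add]; ring_nf
  have h3 := Real.add_one_le_exp (π / 2 - 1)
  have h4 := Real.exp_one_gt_d9
  rw [h2]
  nlinarith

lemma p2_near {σ : ℂ} (h : 1 / 4 ≤ σ.im) : ‖p2 σ - 2‖ ≤ 2 / 3 := by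
  have h0 : 0 < σ.im := by linarith
  refine (norm_p2_sub h0).trans ?_
  have hr : rexp (-2 * π * σ.im) ≤ 1 / 4 := by
    refine le_trans (Real.exp_le_exp.mpr ?_) exp_neg_half_pi
    have := Real.pi_pos
    nlinarith
  have hr0 := Real.exp_pos (-2 * π * σ.im)
  set r := rexp (-2 * π * σ.im)
  have : r / (1 - r) ≤ 1 / 3 := by
    rw [div_le_div_iff₀ (by linarith) (by norm_num)]; linarith
  linarith

lemma th_near {τ : ℂ} (h : 1 / 2 ≤ τ.im) : ‖jacobiTheta τ - 1‖ ≤ 2 / 3 := by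
  have h0 : 0 < τ.im := by linarith
  refine (norm_jacobiTheta_sub_one_le h0).trans ?_
  have hr : rexp (-π * τ.im) ≤ 1 / 4 := by
    refine le_trans (Real.exp_le_exp.mpr ?_) exp_neg_half_pi
    have := Real.pi_pos
    nlinarith
  have hr0 := Real.exp_pos (-π * τ.im)
  set r := rexp (-π * τ.im)
  rw [div_mul_eq_mul_div, div_le_div_iff₀ (by linarith) (by norm_num)]
  linarith

lemma th_lower {τ : ℂ} (h : 1 / 2 ≤ τ.im) : 1 / 3 ≤ ‖jacobiTheta τ‖ := by
  have h1 := th_near h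
  have h2 := norm_sub_norm_le (1 : ℂ) (jacobiTheta τ)
  rw [norm_sub_rev] at h2
  simp only [norm_one] at h2
  linarith

lemma th_upper {τ : ℂ} (h : 1 / 2 ≤ τ.im) : ‖jacobiTheta τ‖ ≤ 5 / 3 := by
  have h1 := th_near h
  have h2 := norm_sub_norm_le (jacobiTheta τ) (1 : ℂ)
  simp only [norm_one] at h2
  linarith

lemma p2_lower {σ : ℂ} (h : 1 / 4 ≤ σ.im) : 4 / 3 ≤ ‖p2 σ‖ := by
  have h1 := p2_near h
  have h2 := norm_sub_norm_le (2 : ℂ) (p2 σ)
  rw [norm_sub_rev] at h2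
  simp only [Complex.norm_two] at h2
  linarith

lemma p2_upper {σ : ℂ} (h : 1 / 4 ≤ σ.im) : ‖p2 σ‖ ≤ 8 / 3 := by
  have h1 := p2_near h
  have h2 := norm_sub_norm_le (p2 σ) (2 : ℂ)
  simp only [Complex.norm_two] at h2
  linarith

lemma norm_th2 (σ : ℂ) : ‖th2 σ‖ = rexp (-(π * σ.im / 4)) * ‖p2 σ‖ := by
  unfold th2
  rw [norm_mul, Complex.norm_exp]
  congr 2
  have : (π * I * σ / 4 : ℂ) = ((π / 4 : ℝ) : ℂ) * (σ * I) := by push_cast; ring
  rw [this, re_ofReal_mul, mul_I_re]; ring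

/-- crude polynomial bound for theta -/
lemma th_crude {τ : ℂ} (h : 0 < τ.im) : ‖jacobiTheta τ‖ ≤ 1 + 1 / τ.im := by
  have h1 := norm_jacobiTheta_sub_one_le h
  have h2 := norm_sub_norm_le (jacobiTheta τ) (1 : ℂ)
  simp only [norm_one] at h2
  have hpi := Real.pi_gt_three
  have h3 : 2 / (1 - rexp (-π * τ.im)) * rexp (-π * τ.im) ≤ 1 / τ.im := by
    have e : rexp (-π * τ.im) = 1 / rexp (π * τ.im) := by
      rw [neg_mul, Real.exp_neg, one_div]
    have h4 := Real.add_one_le_exp (π * τ.im)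
    have h5 : 0 < π * τ.im := by positivity
    set E := rexp (π * τ.im)
    rw [e]
    have h6 : 1 < E := by linarith
    have e2 : 2 / (1 - 1 / E) * (1 / E) = 2 / (E - 1) := by
      have : E - 1 ≠ 0 := by linarith
      have : E ≠ 0 := by linarith
      field_simp
    rw [e2, div_le_div_iff₀ (by linarith) h]
    nlinarith
  linarith

/-- The reduction principle for the theta group. -/
lemma reduce (Q : ℂ → Prop) (hper : ∀ τ : ℂ, 0 < τ.im → (Q (τ + 2) ↔ Q τ))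
    (hbase : ∀ τ : ℂ, 0 < τ.im → |τ.re| ≤ 1 → 1 - ‖τ‖ ^ 2 < 2 * τ.im → Q τ)
    (hstep : ∀ τ : ℂ, 0 < τ.im → 2 * τ.im ≤ 1 - ‖τ‖ ^ 2 → Q (-1 / τ) → Q τ) :
    ∀ τ : ℂ, 0 < τ.im → Q τ := by
  have hint : ∀ (k : ℤ) (τ : ℂ), 0 < τ.im → (Q (τ + 2 * k) ↔ Q τ) := by
    intro k
    induction k using Int.induction_on with
    | zero => intro τ _; simp
    | succ n ih =>
      intro τ hτ
      have e : τ + 2 * (((n : ℤ) + 1 : ℤ) : ℂ) = (τ + 2 * ((n : ℤ) : ℂ)) + 2 := by push_cast; ring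
      rw [e, hper _ (by simpa using hτ), ih τ hτ]
    | pred n ih =>
      intro τ hτ
      have e : τ + 2 * ((-(n : ℤ) : ℤ) : ℂ) = (τ + 2 * ((-(n : ℤ) - 1 : ℤ) : ℂ)) + 2 := by
        push_cast; ring
      rw [← ih τ hτ, e, hper _ (by simpa using hτ)]
  have key : ∀ n : ℕ, ∀ τ : ℂ, 0 < τ.im → 1 / τ.im ≤ 2 * n → Q τ := by
    intro n
    induction n with
    | zero =>
      intro τ hτ h
      have : 0 < 1 / τ.im := by positivity
      simp at h this
      linarith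
    | succ n ih =>
      intro τ hτ h
      set k : ℤ := -round (τ.re / 2) with hk
      set w : ℂ := τ + 2 * k with hw
      have hwim : w.im = τ.im := by simp [hw]
      have hwre : |w.re| ≤ 1 := by
        have h1 := abs_sub_round (τ.re / 2)
        have : w.re = 2 * (τ.re / 2 - round (τ.re / 2)) := by
          simp [hw, hk]; ring
        rw [this, abs_mul]
        norm_num at h1 ⊢
        linarith
      rw [← hint k τ hτ]
      have hw0 : 0 < w.im := by rw [hwim]; exact hτ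
      by_cases hc : 1 - ‖w‖ ^ 2 < 2 * w.im
      · exact hbase w hw0 hwre hc
      · push Not at hc
        apply hstep w hw0 hc
        apply ih _ (im_neg_inv_pos hw0)
        rw [im_neg_inv, one_div_div]
        rw [← hwim] at h
        push_cast at h
        rw [div_le_iff₀ hw0] at h ⊢
        nlinarith
  intro τ hτ
  obtain ⟨n, hn⟩ := exists_nat_ge (1 / τ.im)
  apply key n τ hτ
  have : (0 : ℝ) ≤ n := Nat.cast_nonneg n
  linarith

/-- the cusp coordinate -/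
lemma cusp_coord (τ : ℂ) :
    τ = 1 - 1 / (1 / (1 - τ)) ∧ (1 / (1 - τ)).im = τ.im / ‖1 - τ‖ ^ 2 := by
  constructor
  · rw [one_div_one_div]; ring
  · rw [one_div, inv_im, Complex.normSq_eq_norm_sq]; simp

lemma cusp_height {τ : ℂ} (h : 0 < τ.im) (h0 : 0 ≤ τ.re) (h1 : τ.re ≤ 1)
    (hb : 1 - ‖τ‖ ^ 2 < 2 * τ.im) (hy : τ.im ≤ 1 / 2) :
    1 / (8 * τ.im) ≤ (1 / (1 - τ)).im := by
  rw [(cusp_coord τ).2]
  have e1 : ‖τ‖ ^ 2 = τ.re ^ 2 + τ.im ^ 2 := by
    rw [← Complex.normSq_eq_norm_sq, Complex.normSq_apply]; ring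
  have e2 : ‖1 - τ‖ ^ 2 = (1 - τ.re) ^ 2 + τ.im ^ 2 := by
    rw [← Complex.normSq_eq_norm_sq, Complex.normSq_apply]; simp; ring
  rw [e2]
  rw [e1] at hb
  set x := τ.re
  set y := τ.im
  have h2 : 1 - x ≤ 5 / 2 * y := by nlinarith
  have h3 : (1 - x) ^ 2 ≤ (5 / 2 * y) ^ 2 := by
    apply pow_le_pow_left₀ (by linarith) h2
  rw [div_le_div_iff₀ (by positivity) (by positivity)]
  nlinarith

lemma th_ne {τ : ℂ} (h : 0 < τ.im) : jacobiTheta τ ≠ 0 := by
  have pos : ∀ τ : ℂ, 0 < τ.im → 0 ≤ τ.re → τ.re ≤ 1 → 1 - ‖τ‖ ^ 2 < 2 * τ.im → τ.im ≤ 1 / 2 →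
      jacobiTheta τ ≠ 0 := by
    intro τ h h0 h1 hb hy
    have hY := cusp_height h h0 h1 hb hy
    have hY2 : 1 / 4 ≤ (1 / (1 - τ)).im := by
      refine le_trans ?_ hY
      apply one_div_le_one_div_of_le (by positivity); linarith
    have hY0 : 0 < (1 / (1 - τ)).im := by linarith
    rw [(cusp_coord τ).1, th_cusp hY0]
    refine mul_ne_zero (rt_ne (ne_zero_of_im hY0)) (mul_ne_zero (Complex.exp_ne_zero _) ?_)
    have := p2_lower hY2
    intro h0; rw [h0] at this; norm_num at this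
  refine reduce (fun τ => jacobiTheta τ ≠ 0) ?_ ?_ ?_ τ h
  · intro τ _; simp only [th_add_two]
  · intro τ h hre hb
    by_cases hy : 1 / 2 ≤ τ.im
    · have := th_lower hy
      intro h0; rw [h0] at this; norm_num at this
    · push Not at hy
      by_cases h0 : 0 ≤ τ.re
      · exact pos τ h h0 (abs_le.mp hre).2 hb hy.le
      · push Not at h0
        have e : jacobiTheta (-(starRingEnd ℂ) τ) = (starRingEnd ℂ) (jacobiTheta τ) := by
          rw [jacobiTheta_eq_jacobiTheta₂, jacobiTheta_eq_jacobiTheta₂, jacobiTheta₂_conj]; simp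
        have := pos (-(starRingEnd ℂ) τ) (by simpa using h) (by simp; linarith)
          (by simp; linarith [(abs_le.mp hre).1]) (by simpa using hb) (by simpa using hy.le)
        rw [e] at this
        simpa using this
  · intro τ h _ h2 h3
    rw [th_S h, h3, mul_zero] at h2
    exact h2 rfl

lemma th2_ne {σ : ℂ} (h : 0 < σ.im) : th2 σ ≠ 0 := by
  have h1 : 0 < (1 - 1 / σ).im := by
    have := im_neg_inv_pos h
    have e : 1 - 1 / σ = -1 / σ + 1 := by ring
    rw [e]; simpa using this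
  have := th_ne h1
  rw [th_cusp h] at this
  exact right_ne_zero_of_mul this

lemma rt_mul_rt {τ : ℂ} (h : 0 < τ.im) : rt (-1 / τ) * rt τ = 1 := by
  have h1 := th_S (im_neg_inv_pos h)
  rw [neg_inv_neg_inv, th_S h] at h1
  have h2 := th_ne h
  have : (rt (-1 / τ) * rt τ - 1) * jacobiTheta τ = 0 := by linear_combination -h1
  rcases mul_eq_zero.mp this with h3 | h3
  · linear_combination h3
  · exact absurd h3 h2

/-- The weight two form that changes sign under the inversion. -/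
noncomputable def E2 (τ : ℂ) : ℂ := jacobiTheta (τ + 1) ^ 4 - th2 τ ^ 4

lemma E2_add_two (τ : ℂ) : E2 (τ + 2) = E2 τ := by
  unfold E2
  have e1 : τ + 2 + 1 = (τ + 1) + 2 := by ring
  have e2 : τ + 2 = (τ + 1) + 1 := by ring
  rw [e1, th_add_two, e2, th2_add_one, th2_add_one]
  have := zeta_pow_four
  linear_combination (-(th2 τ) ^ 4 * (zeta ^ 4 - 1)) * this

lemma th2_S {τ : ℂ} (h : 0 < τ.im) : th2 (-1 / τ) = rt τ * jacobiTheta (τ + 1) := by
  have h1 := th_cusp (im_neg_inv_pos h)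
  have e : 1 - 1 / (-1 / τ) = τ + 1 := by
    have := ne_zero_of_im h
    field_simp; ring
  rw [e] at h1
  rw [h1, ← mul_assoc, mul_comm (rt τ), rt_mul_rt h, one_mul]

lemma E2_S {τ : ℂ} (h : 0 < τ.im) : E2 (-1 / τ) = -(rt τ ^ 4 * E2 τ) := by
  unfold E2
  have e : -1 / τ + 1 = 1 - 1 / τ := by ring
  rw [e, th_cusp h, th2_S h]; ring

lemma E2_cusp {σ : ℂ} (h : 0 < σ.im) :
    E2 (1 - 1 / σ) = rt σ ^ 4 * (jacobiTheta σ ^ 4 + jacobiTheta (σ + 1) ^ 4) := by
  unfold E2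
  have e1 : 1 - 1 / σ + 1 = -1 / σ + 2 := by ring
  have e2 : 1 - 1 / σ = -1 / σ + 1 := by ring
  rw [e1, th_add_two, th_S h, e2, th2_add_one, th2_S h]
  have := zeta_pow_four
  linear_combination (-(rt σ * jacobiTheta (σ + 1)) ^ 4) * this

lemma diff_E2 {τ : ℂ} (h : 0 < τ.im) : DifferentiableAt ℂ E2 τ := by
  unfold E2
  have h1 : DifferentiableAt ℂ (fun s => jacobiTheta (s + 1)) τ :=
    DifferentiableAt.comp (g := jacobiTheta) (f := fun s : ℂ => s + 1) τ
      (differentiableAt_jacobiTheta (τ := τ + 1) (by simpa using h)) (by fun_prop)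
  exact (h1.pow 4).sub ((diff_th2 h).pow 4)

lemma E2_bound {τ : ℂ} (h : 1 / 2 ≤ τ.im) : ‖E2 τ‖ ≤ 60 := by
  unfold E2
  refine (norm_sub_le _ _).trans ?_
  rw [norm_pow, norm_pow]
  have h1 := th_upper (τ := τ + 1) (by simpa using h)
  have h2 : ‖th2 τ‖ ≤ 8 / 3 := by
    rw [norm_th2]
    have := p2_upper (σ := τ) (by linarith)
    have h3 : rexp (-(π * τ.im / 4)) ≤ 1 := by
      rw [Real.exp_le_one_iff]
      have := Real.pi_pos
      nlinarith
    have := norm_nonneg (p2 τ)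
    nlinarith
  have a := pow_le_pow_left₀ (norm_nonneg _) h1 4
  have b := pow_le_pow_left₀ (norm_nonneg _) h2 4
  norm_num at a b
  linarith

end Pool.Agent.H989Z.FU
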