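import Pool.Agent.H989Z.FU.Meas

set_option autoImplicit false
open Complex Filter Topology MeasureTheory
open scoped Real ENNReal

namespace Pool.Agent.H989Z.FU

lemma meas_wg : Measurable wg := by unfold wg; fun_prop

lemma ae_H : ∀ᵐ z : ℂ ∂(volume.restrict H), 0 < z.im := ae_restrict_mem measH

lemma int_of_Nrm {Φ : ℂ → ℂ} (hm : AEStronglyMeasurable Φ (volume.restrict H)) (h : Nrm Φ ≠ ∞) :
    Integrable (fun z => ‖Φ z‖ ^ 2 * wg z) (volume.restrict H) := by
  refine (lintegral_ofReal_ne_top_iff_integrable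
    ((hm.norm.pow 2).mul meas_wg.aestronglyMeasurable) ?_).mp h
  filter_upwards [ae_H] with z hz
  exact mul_nonneg (sq_nonneg _) (wg_pos hz).le

lemma int_mul {r Φ : ℂ → ℂ} (hrm : AEStronglyMeasurable r (volume.restrict H))
    (hr : Integrable (fun z => ‖r z‖ ^ 2 / wg z) (volume.restrict H))
    (hm : AEStronglyMeasurable Φ (volume.restrict H)) (h : Nrm Φ ≠ ∞) :
    Integrable (fun z => r z * Φ z) (volume.restrict H) := by
  refine Integrable.mono' (hr.add (int_of_Nrm hm h)) (hrm.mul hm) ?_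
  filter_upwards [ae_H] with z hz
  have hw := wg_pos hz
  simp only [Pi.add_apply]
  rw [norm_mul, div_add' _ _ _ hw.ne', le_div_iff₀ hw]
  nlinarith [sq_nonneg (‖r z‖ - ‖Φ z‖ * wg z), norm_nonneg (r z), norm_nonneg (Φ z),
    mul_nonneg (mul_nonneg (norm_nonneg (r z)) (norm_nonneg (Φ z))) hw.le]

lemma weak_conv {r : ℂ → ℂ} (hrm : AEStronglyMeasurable r (volume.restrict H))
    (hr : Integrable (fun z => ‖r z‖ ^ 2 / wg z) (volume.restrict H))
    {V : ℕ → ℂ → ℂ} (hm : ∀ k, AEStronglyMeasurable (V k) (volume.restrict H)) {C : ℝ≥0∞}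
    (hC : C ≠ ∞) (hV : ∀ k, Nrm (V k) ≤ C)
    (hlim : ∀ z : ℂ, 0 < z.im → Tendsto (fun k => V k z) atTop (𝓝 0)) :
    Tendsto (fun k => ∫ z in H, r z * V k z) atTop (𝓝 0) := by
  rw [Metric.tendsto_atTop]
  intro η hη
  set L : ℝ := 2 * (C.toReal + 1) / η with hL
  have hL0 : 0 < L := by positivity
  have hfin : ∀ k, Nrm (V k) ≠ ∞ := fun k => ne_top_of_le_ne_top hC (hV k)
  have mm : ∀ k, AEStronglyMeasurable (fun z => min (‖r z‖ * ‖V k z‖) (L * (‖r z‖ ^ 2 / wg z)))
      (volume.restrict H) := fun k =>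
    (((hrm.norm.mul (hm k).norm).aemeasurable).min
      (hr.const_mul L).aestronglyMeasurable.aemeasurable).aestronglyMeasurable
  have bd : ∀ k, ∀ᵐ z ∂(volume.restrict H),
      ‖min (‖r z‖ * ‖V k z‖) (L * (‖r z‖ ^ 2 / wg z))‖ ≤ L * (‖r z‖ ^ 2 / wg z) := by
    intro k
    filter_upwards [ae_H] with z hz
    have := wg_pos hz
    rw [Real.norm_eq_abs, abs_of_nonneg (le_min (by positivity) (by positivity))]
    exact min_le_right _ _
  have dct := tendsto_integral_of_dominated_convergence (μ := volume.restrict H)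
    (F := fun k z => min (‖r z‖ * ‖V k z‖) (L * (‖r z‖ ^ 2 / wg z))) (f := fun _ => 0)
    (fun z => L * (‖r z‖ ^ 2 / wg z)) mm (hr.const_mul L) bd
    (by
      filter_upwards [ae_H] with z hz
      have := wg_pos hz
      have h1 : Tendsto (fun k => ‖r z‖ * ‖V k z‖) atTop (𝓝 0) := by
        simpa using (hlim z hz).norm.const_mul ‖r z‖
      have h2 := h1.min (tendsto_const_nhds (x := L * (‖r z‖ ^ 2 / wg z)))
      rwa [min_eq_left (by positivity)] at h2)
  rw [integral_zero, Metric.tendsto_atTop] at dct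
  obtain ⟨N, hN⟩ := dct (η / 2) (by positivity)
  refine ⟨N, fun k hk => ?_⟩
  have h1 := hN k hk
  rw [dist_zero_right] at h1 ⊢
  have i1 : Integrable (fun z => min (‖r z‖ * ‖V k z‖) (L * (‖r z‖ ^ 2 / wg z)))
      (volume.restrict H) := Integrable.mono' (hr.const_mul L) (mm k) (bd k)
  have i2 := int_of_Nrm (hm k) (hfin k)
  have h2 : ‖∫ z in H, r z * V k z‖ ≤ ∫ z in H,
      (min (‖r z‖ * ‖V k z‖) (L * (‖r z‖ ^ 2 / wg z)) + L⁻¹ * (‖V k z‖ ^ 2 * wg z)) := by
    apply norm_integral_le_of_norm_le (i1.add (i2.const_mul _))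
    filter_upwards [ae_H] with z hz
    have hw := wg_pos hz
    simp only [Pi.add_apply]
    rw [norm_mul]
    have n1 := norm_nonneg (r z)
    have n2 := norm_nonneg (V k z)
    rcases le_total (‖r z‖ * ‖V k z‖) (L * (‖r z‖ ^ 2 / wg z)) with h | h
    · rw [min_eq_left h]
      have : 0 ≤ L⁻¹ * (‖V k z‖ ^ 2 * wg z) := by positivity
      linarith
    · rw [min_eq_right h]
      have e : L * (‖r z‖ ^ 2 / wg z) + L⁻¹ * (‖V k z‖ ^ 2 * wg z) =
          ((L * ‖r z‖) ^ 2 + (‖V k z‖ * wg z) ^ 2) / (L * wg z) := by field_simp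
      rw [e, le_div_iff₀ (by positivity)]
      nlinarith [sq_nonneg (L * ‖r z‖ - ‖V k z‖ * wg z),
        mul_nonneg (mul_nonneg n1 n2) (mul_pos hL0 hw).le]
  rw [integral_add i1 (i2.const_mul _), integral_const_mul] at h2
  have h3 : ∫ z in H, ‖V k z‖ ^ 2 * wg z ≤ C.toReal := by
    rw [integral_eq_lintegral_of_nonneg_ae _ i2.aestronglyMeasurable]
    · exact ENNReal.toReal_mono hC (hV k)
    · filter_upwards [ae_H] with z hz
      exact mul_nonneg (sq_nonneg _) (wg_pos hz).le
  have h4 : L⁻¹ * ∫ z in H, ‖V k z‖ ^ 2 * wg z ≤ η / 2 := by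
    refine (mul_le_mul_of_nonneg_left h3 (by positivity)).trans ?_
    rw [hL, inv_div, div_mul_eq_mul_div, div_le_div_iff₀ (by positivity) (by norm_num)]
    nlinarith
  have h5 := le_abs_self (∫ z in H, min (‖r z‖ * ‖V k z‖) (L * (‖r z‖ ^ 2 / wg z)))
  rw [Real.norm_eq_abs] at h1
  linarith

open Classical in
noncomputable def Vd (F : ℂ → ℂ) (δ : ℝ) (z : ℂ) : ℂ :=
  if δ < z.im ∧ δ < (-1 / z).im then F (z + δ * I) - F z else F (z + δ * I)

lemma contOn_shift {F : ℂ → ℂ} (hF : ContinuousOn F H) {δ : ℝ} (hδ : 0 < δ) :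
    ContinuousOn (fun z => F (z + δ * I)) H :=
  hF.comp (by fun_prop) (fun z hz => by
    have : 0 < z.im := hz
    change 0 < (z + δ * I).im
    simp; linarith)

lemma contOn_S {F : ℂ → ℂ} (hF : ContinuousOn F H) : ContinuousOn (fun z => F (-1 / z) / rt z) H := by
  refine ContinuousOn.div (hF.comp ?_ (fun z hz => im_neg_inv_pos hz)) ?_
    (fun z hz => rt_ne (ne_zero_of_im hz))
  · exact continuousOn_const.div continuousOn_id (fun z hz => ne_zero_of_im hz)
  · exact fun z hz => (diff_rt (Or.inl hz)).continuousAt.continuousWithinAt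

lemma aem_Vd {F : ℂ → ℂ} (hF : ContinuousOn F H) {δ : ℝ} (hδ : 0 < δ) :
    AEMeasurable (Vd F δ) (volume.restrict H) := by
  classical
  have h1 := (contOn_shift hF hδ).aemeasurable (μ := volume) measH
  have h2 := hF.aemeasurable (μ := volume) measH
  have hs : MeasurableSet {z : ℂ | δ < z.im ∧ δ < (-1 / z).im} :=
    (measurableSet_lt (g := fun z : ℂ => z.im) measurable_const (by fun_prop)).inter
      (measurableSet_lt (g := fun z : ℂ => (-1 / z).im) measurable_const (by fun_prop))
  have : Vd F δ = fun z => F (z + δ * I) - Set.indicator {z : ℂ | δ < z.im ∧ δ < (-1 / z).im} F z := by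
    funext z
    unfold Vd
    rw [Set.indicator_apply]
    simp only [Set.mem_ofPred_eq]
    split_ifs <;> simp
  rw [this]
  exact h1.sub (h2.indicator hs)

lemma Nrm_Vd {F : ℂ → ℂ} (hF : ContinuousOn F H) {B : ℝ} (hB : 0 ≤ B)
    (h1 : ∀ y : ℝ, 0 < y → ∀ X : ℝ, ∫ t in X..(X + 2), ‖F (t + y * I)‖ ^ 2 ≤ B * (1 + 1 / √y))
    (h2 : ∀ y δ : ℝ, 0 < y → 0 < δ → ∀ X : ℝ,
        ∫ t in X..(X + 2), ‖F (t + y * I + δ * I) - F (t + y * I)‖ ^ 2 ≤
          (δ / y) ^ 2 * (B * (1 + 1 / √y))) {δ : ℝ} (hδ : 0 < δ) (hδ1 : δ ≤ 1) :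
    Nrm (Vd F δ) ≤ ENNReal.ofReal 4 *
      (ENNReal.ofReal (22 * (CW * (2 * B))) + ENNReal.ofReal (22 * (CW * B))) := by
  classical
  have hCW := CW_nonneg
  have c1 := contOn_shift hF hδ
  set u1 : ℝ → ℝ := fun y => if δ < y then uu y y else 0 with hu1
  have mu1 : Measurable u1 := by
    refine Measurable.ite (measurableSet_lt measurable_const measurable_id) ?_ measurable_const
    unfold uu; fun_prop
  have u10 : ∀ y, 0 < y → 0 ≤ u1 y := by
    intro y hy
    simp only [hu1]
    split_ifs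
    · exact uu_nonneg hy hy
    · exact le_rfl
  have b1 := LB (Φ := fun z => F (z + δ * I) - F z) (c1.sub hF) mu1 u10
    (n := fun y => (δ / y) ^ 2 * (B * (1 + 1 / √y))) (fun y hy X => h2 y δ hy hδ X)
  have b2 := LB (Φ := fun z => F (z + δ * I)) c1 (meas_uu δ) (fun y hy => uu_nonneg hδ hy)
    (n := fun y => B * (1 + 1 / √(y + δ))) (fun y hy X => by
      have := h1 (y + δ) (by positivity) X
      have e : ∀ t : ℝ, (t : ℂ) + ((y + δ : ℝ) : ℂ) * I = t + y * I + δ * I := by
        intro t; push_cast; ring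
      simpa only [e] using this)
  have b1' : ∫⁻ y in Set.Ioi (0 : ℝ),
      ENNReal.ofReal (CW * ((δ / y) ^ 2 * (B * (1 + 1 / √y))) * u1 y) ≤
      ENNReal.ofReal (22 * (CW * (2 * B))) := by
    refine le_trans (setLIntegral_mono' measurableSet_Ioi fun y hy =>
      ENNReal.ofReal_le_ofReal ?_) (Jbound2 hδ hδ1 (by positivity))
    have hy0 : 0 < y := hy
    have hu := uu_nonneg hδ hy0
    simp only [hu1]
    split_ifs with hc
    · have a1 : (δ / y) ^ 2 * uu y y ≤ uu δ y := by
        unfold uu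
        rw [← mul_div_assoc, ← mul_assoc]
        gcongr
        have hq : δ / y ≤ 1 := by rw [div_le_one hy0]; exact hc.le
        have : (δ / y) ^ 2 ≤ (δ / y) ^ (1 / 8 : ℝ) := by
          rw [← Real.rpow_natCast]
          exact Real.rpow_le_rpow_of_exponent_ge (by positivity) hq (by norm_num)
        refine (mul_le_mul_of_nonneg_right this (by positivity)).trans (le_of_eq ?_)
        rw [Real.div_rpow hδ.le hy0.le]
        have : 0 < y ^ (1 / 8 : ℝ) := by positivity
        field_simp
      have a2 : 1 + 1 / √y ≤ 2 * (1 + 1 / √(y + δ)) := by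
        have : 1 / √y ≤ 2 * (1 / √(y + δ)) := by
          rw [mul_one_div, div_le_div_iff₀ (by positivity) (by positivity), one_mul]
          apply Real.sqrt_le_iff.mpr
          refine ⟨by positivity, ?_⟩
          rw [mul_pow, Real.sq_sqrt hy0.le]; linarith
        linarith
      have a3 := uu_nonneg hy0 hy0
      calc _ = CW * B * (1 + 1 / √y) * ((δ / y) ^ 2 * uu y y) := by ring
        _ ≤ CW * B * (2 * (1 + 1 / √(y + δ))) * uu δ y := by gcongr
        _ = _ := by ring
    · rw [mul_zero]; positivity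
  have b2' : ∫⁻ y in Set.Ioi (0 : ℝ), ENNReal.ofReal (CW * (B * (1 + 1 / √(y + δ))) * uu δ y) ≤
      ENNReal.ofReal (22 * (CW * B)) := by
    have := Jbound2 hδ hδ1 (c := CW * B) (by positivity)
    simpa only [mul_assoc] using this
  have m2 : AEMeasurable (fun z => ENNReal.ofReal (‖F (z + δ * I)‖ ^ 2 * W z.re * uu δ z.im))
      (volume.restrict H) := by
    exact ((((c1.aemeasurable (μ := volume) measH).norm.pow_const 2).mul
      (meas_W.comp Complex.measurable_re).aemeasurable).mul
      ((meas_uu δ).comp Complex.measurable_im).aemeasurable).ennreal_ofReal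
  refine le_trans ?_ (mul_le_mul_right (add_le_add (b1.trans b1') (b2.trans b2')) _)
  rw [← lintegral_add_right' _ m2, ← lintegral_const_mul' _ _ ENNReal.ofReal_ne_top]
  refine setLIntegral_mono' measH fun z hz => ?_
  have h : 0 < z.im := hz
  have hW := W_pos z.re
  have p1 := u10 _ h
  have p2 := uu_nonneg hδ h
  have hN : 1 ≤ ‖z + I‖ ^ 2 := one_le_pow₀ (by linarith [norm_add_I h])
  rw [← ENNReal.ofReal_add (by positivity) (by positivity), ← ENNReal.ofReal_mul (by norm_num)]
  apply ENNReal.ofReal_le_ofReal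
  unfold Vd
  split_ifs with hc
  · have a := wg_le1 h h (by nlinarith)
    have e : u1 z.im = uu z.im z.im := by simp only [hu1]; rw [if_pos hc.1]
    rw [e]
    have : 0 ≤ ‖F (z + δ * I)‖ ^ 2 * W z.re * uu δ z.im := by positivity
    have := mul_le_mul_of_nonneg_left a (sq_nonneg ‖F (z + δ * I) - F z‖)
    linarith
  · have hz2 : z.im ≤ δ * ‖z + I‖ ^ 2 := by
      rw [not_and_or, not_lt, not_lt] at hc
      rcases hc with hc | hc
      · nlinarith
      · rw [im_neg_inv, div_le_iff₀ (pow_pos (norm_pos_iff.mpr (ne_zero_of_im h)) 2)] at hc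
        refine hc.trans (mul_le_mul_of_nonneg_left ?_ hδ.le)
        rw [← Complex.normSq_eq_norm_sq, ← Complex.normSq_eq_norm_sq, normSq_apply, normSq_apply]
        simp only [add_re, I_re, add_zero, add_im, I_im]
        nlinarith
    have a := wg_le1 h hδ hz2
    have : 0 ≤ ‖F (z + δ * I) - F z‖ ^ 2 * W z.re * u1 z.im := by positivity
    have := mul_le_mul_of_nonneg_left a (sq_nonneg ‖F (z + δ * I)‖)
    linarith

lemma Nrm_psi {φ : ℂ → ℂ} {ε : ℂ} {K : ℝ} (S : Seed φ ε K) : Nrm (psi φ ε) ≠ ∞ := by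
  have h1 := Nrm_one
  have h2 : Nrm (fun z => 1 / rt z) ≠ ∞ := by
    have := Nrm_S (fun _ => 1)
    rw [this]; exact h1
  have h3 : Nrm (psi φ ε) ≤ ENNReal.ofReal (2 * K ^ 2) *
      (Nrm (fun z => 1 / rt z) + Nrm (fun _ => 1)) := by
    unfold Nrm
    rw [← lintegral_add_right' _ (by have := meas_wg; fun_prop),
      ← lintegral_const_mul' _ _ ENNReal.ofReal_ne_top]
    refine setLIntegral_mono' measH fun z hz => ?_
    have h : 0 < z.im := hz
    have hw := wg_pos h
    rw [← ENNReal.ofReal_add (by positivity) (by positivity), ← ENNReal.ofReal_mul (by positivity)]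
    apply ENNReal.ofReal_le_ofReal
    have a := pow_le_pow_left₀ (norm_nonneg _) (S.norm_psi h) 2
    rw [norm_div, norm_one, norm_rt_eq, ← add_mul, ← mul_assoc]
    apply mul_le_mul_of_nonneg_right _ hw.le
    refine a.trans ?_
    have e : K / √‖z‖ = K * (1 / √‖z‖) := by ring
    rw [e]
    nlinarith [sq_nonneg (K - K * (1 / √‖z‖))]
  exact ne_top_of_le_ne_top (ENNReal.mul_ne_top ENNReal.ofReal_ne_top
    (ENNReal.add_ne_top.mpr ⟨h2, h1⟩)) h3

lemma norm_exp_nat {z : ℂ} (h : 0 < z.im) (n : ℕ) : ‖cexp (π * I * n * z)‖ ≤ 1 := by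
  have : (π * I * n * z : ℂ) = ((π * n : ℝ) : ℂ) * I * z := by push_cast; ring
  rw [this, norm_exp_I_mul, Real.exp_le_one_iff]
  have : 0 ≤ π * n * z.im := by have := Real.pi_pos; positivity
  linarith

theorem partC {r : ℂ → ℂ} (hrm : AEStronglyMeasurable r (volume.restrict H))
    (hr : Integrable (fun z => ‖r z‖ ^ 2 / wg z) (volume.restrict H))
    (z1 : ∀ n : ℕ, ∫ z in H, r z * cexp (π * I * n * z) = 0)
    (z2 : ∀ n : ℕ, ∫ z in H, r z * (cexp (π * I * n * (-1 / z)) / rt z) = 0)
    {φ : ℂ → ℂ} {ε : ℂ} {K : ℝ} (S : Seed φ ε K) : ∫ z in H, r z * psi φ ε z = 0 := by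
  obtain ⟨F, f1, f2, f3, B0, hB0, f4⟩ := exists_F S
  obtain ⟨c, hc, B, hB, g1, g2⟩ := F_L2 f1 f2 hB0 f4
  have hF : ContinuousOn F H := fun z hz => (f1 z hz).continuousAt.continuousWithinAt
  have hψ : ContinuousOn (psi φ ε) H := fun z hz =>
    (S.diff_psi (Or.inl hz)).continuousAt.continuousWithinAt
  have mrt : AEStronglyMeasurable (fun z => 1 / rt z) (volume.restrict H) :=
    (contOn_S (F := fun _ => 1) continuousOn_const).aestronglyMeasurable measH
  have i1 : Integrable r (volume.restrict H) := by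
    simpa using int_mul hrm hr aestronglyMeasurable_const Nrm_one
  have i2 : Integrable (fun z => r z * (1 / rt z)) (volume.restrict H) :=
    int_mul hrm hr mrt (by rw [Nrm_S (fun _ => 1)]; exact Nrm_one)
  have iψ := int_mul hrm hr (hψ.aestronglyMeasurable measH) (Nrm_psi S)
  have key : ∀ δ : ℝ, 0 < δ → ∀ (q g : ℂ → ℂ), Integrable q (volume.restrict H) →
      ContinuousOn g H → (∀ z ∈ H, g z ∈ H) →
      (∀ n : ℕ, ∫ z in H, q z * cexp (π * I * n * g z) = 0) →
      Integrable (fun z => q z * F (g z + δ * I)) (volume.restrict H) ∧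
        ∫ z in H, q z * F (g z + δ * I) = 0 := by
    intro δ hδ q g hq hg hgH hz
    have sm : Summable fun n : ℕ => ‖c n * cexp (π * I * n * (δ * I))‖ :=
      summable_norm_iff.mpr (hc (δ * I) (by simpa using hδ)).summable
    have ev : ∀ z ∈ H, HasSum (fun n : ℕ => c n * cexp (π * I * n * (δ * I)) *
        cexp (π * I * n * g z)) (F (g z + δ * I)) := by
      intro z hz
      have h0 : 0 < (g z).im := hgH z hz
      refine (congrArg (fun f => HasSum f (F (g z + δ * I))) (funext fun n => ?_)).mpr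
        (hc (g z + δ * I) (by simp; linarith))
      rw [mul_assoc, ← Complex.exp_add]; congr 2; ring
    constructor
    · refine hq.mul_bdd (c := ∑' n : ℕ, ‖c n * cexp (π * I * n * (δ * I))‖)
        (((contOn_shift hF hδ).comp hg hgH).aestronglyMeasurable measH) ?_
      filter_upwards [ae_restrict_mem measH] with z hz
      refine (ev z hz).norm_le_of_bounded sm.hasSum fun n => ?_
      rw [norm_mul]
      exact mul_le_of_le_one_right (norm_nonneg _) (norm_exp_nat (hgH z hz) n)
    · have h1 := hasSum_integral_mul hq (e := fun n z => cexp (π * I * n * g z))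
        (fun n => ContinuousOn.aestronglyMeasurable
          ((continuousOn_const.mul hg).cexp) measH)
        (fun n => by
          filter_upwards [ae_restrict_mem measH] with z hz
          exact norm_exp_nat (hgH z hz) n) sm
      simp only [hz, mul_zero] at h1
      rw [← h1.unique hasSum_zero]
      refine setIntegral_congr_fun measH fun z hz => ?_
      rw [(ev z hz).tsum_eq]
  have cS : ContinuousOn (fun z : ℂ => -1 / z) H :=
    continuousOn_const.div continuousOn_id (fun z hz => ne_zero_of_im hz)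
  set d : ℕ → ℝ := fun k => 1 / ((k : ℝ) + 1) with hd
  have d0 : ∀ k, 0 < d k := fun k => by simp only [hd]; positivity
  have d1 : ∀ k, d k ≤ 1 := fun k => by
    simp only [hd]
    rw [div_le_one (by positivity)]
    linarith [(Nat.cast_nonneg k : (0 : ℝ) ≤ k)]
  set V : ℕ → ℂ → ℂ := fun k z =>
    F (z + d k * I) + ε * (F (-1 / z + d k * I) / rt z) - psi φ ε z with hV
  set C0 := ENNReal.ofReal 4 *
      (ENNReal.ofReal (22 * (CW * (2 * B))) + ENNReal.ofReal (22 * (CW * B))) with hC0
  have lim := weak_conv hrm hr (V := V) (C := ENNReal.ofReal 3 * (C0 + C0 + Nrm (psi φ ε)))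
    (fun k => ContinuousOn.aestronglyMeasurable (((contOn_shift hF (d0 k)).add
      (continuousOn_const.mul (contOn_S (contOn_shift hF (d0 k))))).sub hψ) measH)
    (by
      have : C0 ≠ ∞ := ENNReal.mul_ne_top ENNReal.ofReal_ne_top
        (ENNReal.add_ne_top.mpr ⟨ENNReal.ofReal_ne_top, ENNReal.ofReal_ne_top⟩)
      exact ENNReal.mul_ne_top ENNReal.ofReal_ne_top
        (ENNReal.add_ne_top.mpr ⟨ENNReal.add_ne_top.mpr ⟨this, this⟩, Nrm_psi S⟩))
    (by
      intro k
      have a := Nrm_Vd hF hB g1 g2 (d0 k) (d1 k)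
      have b := (Nrm_S (Vd F (d k))).trans_le a
      refine le_trans ?_ (mul_le_mul_right (add_le_add (add_le_add a b) le_rfl) _)
      have m1 : AEMeasurable (fun z => ENNReal.ofReal (‖Vd F (d k) z‖ ^ 2 * wg z))
          (volume.restrict H) := (((aem_Vd hF (d0 k)).norm.pow_const 2).mul
          meas_wg.aemeasurable).ennreal_ofReal
      have m2 : AEMeasurable (fun z => ENNReal.ofReal (‖psi φ ε z‖ ^ 2 * wg z))
          (volume.restrict H) := (((hψ.aemeasurable (μ := volume) measH).norm.pow_const 2).mul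
          meas_wg.aemeasurable).ennreal_ofReal
      unfold Nrm
      rw [← lintegral_add_left' m1, ← lintegral_add_right' _ m2,
        ← lintegral_const_mul' _ _ ENNReal.ofReal_ne_top]
      refine setLIntegral_mono' measH fun z hz => ?_
      have h : 0 < z.im := hz
      have hw := wg_pos h
      rw [← ENNReal.ofReal_add (by positivity) (by positivity),
        ← ENNReal.ofReal_add (by positivity) (by positivity), ← ENNReal.ofReal_mul (by positivity)]
      apply ENNReal.ofReal_le_ofReal
      rw [← add_mul, ← add_mul, ← mul_assoc]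
      apply mul_le_mul_of_nonneg_right _ hw.le
      have t : ‖V k z‖ ≤ ‖Vd F (d k) z‖ + ‖Vd F (d k) (-1 / z) / rt z‖ + ‖psi φ ε z‖ := by
        have n0 := norm_nonneg (psi φ ε z)
        by_cases hc : d k < z.im ∧ d k < (-1 / z).im
        · have e : V k z = Vd F (d k) z + ε * (Vd F (d k) (-1 / z) / rt z) := by
            simp only [hV, Vd, neg_inv_neg_inv]
            rw [if_pos hc, if_pos hc.symm, ← f3 z h]; ring
          rw [e]
          refine (norm_add_le _ _).trans ?_
          rw [norm_mul, S.norm_eps, one_mul]; linarith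
        · have e : V k z = Vd F (d k) z + ε * (Vd F (d k) (-1 / z) / rt z) - psi φ ε z := by
            simp only [hV, Vd, neg_inv_neg_inv]
            rw [if_neg hc, if_neg (fun h => hc h.symm)]
          rw [e]
          refine (norm_sub_le _ _).trans (add_le_add ((norm_add_le _ _).trans ?_) le_rfl)
          rw [norm_mul, S.norm_eps, one_mul]
      refine (pow_le_pow_left₀ (norm_nonneg _) t 2).trans ?_
      nlinarith [sq_nonneg (‖Vd F (d k) z‖ - ‖Vd F (d k) (-1 / z) / rt z‖),
        sq_nonneg (‖Vd F (d k) z‖ - ‖psi φ ε z‖),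
        sq_nonneg (‖Vd F (d k) (-1 / z) / rt z‖ - ‖psi φ ε z‖)])
    (by
      intro z h
      have dl : Tendsto (fun k => ((d k : ℝ) : ℂ) * I) atTop (𝓝 0) := by
        have := ((Complex.continuous_ofReal.tendsto 0).comp
          tendsto_one_div_add_atTop_nhds_zero_nat).mul_const I
        simpa [hd, Function.comp_def] using this
      have t : ∀ w : ℂ, 0 < w.im → Tendsto (fun k => F (w + d k * I)) atTop (𝓝 (F w)) := by
        intro w hw
        refine (f1 w hw).continuousAt.tendsto.comp ?_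
        simpa using dl.const_add w
      have := ((t z h).add (((t _ (im_neg_inv_pos h)).div_const (rt z)).const_mul ε)).sub_const
        (psi φ ε z)
      rwa [← mul_div_assoc, f3 z h, sub_self] at this)
  have val : ∀ k, ∫ z in H, r z * V k z = -∫ z in H, r z * psi φ ε z := by
    intro k
    obtain ⟨a1, a2⟩ := key (d k) (d0 k) r id i1 continuousOn_id (fun z hz => hz) z1
    obtain ⟨b1, b2⟩ := key (d k) (d0 k) (fun z => r z * (1 / rt z)) (fun z => -1 / z) i2 cS
      (fun z hz => im_neg_inv_pos hz) (fun n => by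
        rw [← z2 n]
        refine setIntegral_congr_fun measH fun z _ => ?_
        ring)
    have e : (fun z => r z * V k z) = fun z => (r z * F (id z + d k * I) +
        ε * (r z * (1 / rt z) * F (-1 / z + d k * I))) - r z * psi φ ε z := by
      funext z; simp only [hV, id]; ring
    have i3 : Integrable (fun z => r z * F (id z + d k * I) +
        ε * (r z * (1 / rt z) * F (-1 / z + d k * I))) (volume.restrict H) :=
      a1.add (b1.const_mul ε)
    rw [e, integral_sub i3 iψ, integral_add a1 (b1.const_mul ε),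
      integral_const_mul, a2, b2]
    simp
  simp only [val] at lim
  have := tendsto_nhds_unique lim tendsto_const_nhds
  exact neg_eq_zero.mp this.symm

end Pool.Agent.H989Z.FU
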